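import Mathlib
import Pool.Agent.H204R3.GP.TateG
import Pool.Agent.W522.U.B1

/-!
# Forms killed by the block diagonal skew operators of a graded symplectic space
-/

set_option linter.unusedSectionVars false

namespace Pool.Agent.X300.KT

open Module Pool.Agent.H204R3.SP Pool.Agent.H204R3.GP Pool.Agent.W522.U

noncomputable section

variable {K : Type*} [Field K] [CharZero K] {Y : Type*} [AddCommGroup Y] [Module K Y]
  {I : Type*} [Fintype I] [DecidableEq I]
  (P : I → Module.End K Y) (st : I → I) (ω : Y →ₗ[K] Y →ₗ[K] K)

/-- The block diagonal skew operators. -/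
def SkBl : Submodule K (Module.End K Y) where
  carrier := {Z | (∀ i u, Z (P i u) = P i (Z u)) ∧ ∀ u v, ω (Z u) v + ω u (Z v) = 0}
  zero_mem' := ⟨fun i u => by simp, fun u v => by simp⟩
  add_mem' := fun {Z Z'} h h' => ⟨fun i u => by
    rw [LinearMap.add_apply, LinearMap.add_apply, map_add, h.1, h'.1], fun u v => by
    rw [LinearMap.add_apply, LinearMap.add_apply, map_add, map_add, LinearMap.add_apply]
    linear_combination h.2 u v + h'.2 u v⟩
  smul_mem' := fun c Z h => ⟨fun i u => by
    rw [LinearMap.smul_apply, LinearMap.smul_apply, map_smul, h.1], fun u v => by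
    rw [LinearMap.smul_apply, LinearMap.smul_apply, map_smul, map_smul, LinearMap.smul_apply,
      smul_eq_mul, smul_eq_mul]
    linear_combination c * h.2 u v⟩

/-- The structure of a graded symplectic space. -/
structure Graded : Prop where
  idem : ∀ i u, P i (P i u) = P i u
  orth : ∀ i j, i ≠ j → ∀ u, P i (P j u) = 0
  sum : ∀ u, ∑ i, P i u = u
  alt : ∀ u, ω u u = 0
  nondeg : ∀ u, (∀ v, ω u v = 0) → u = 0
  invol : ∀ i, st (st i) = i
  pair : ∀ i u v, ω (P i u) v = ω u (P (st i) v)

variable {P st ω}

theorem Graded.skew (G : Graded P st ω) (u v : Y) : ω u v = -ω v u := by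
  have h1 := G.alt (u + v)
  simp only [map_add, LinearMap.add_apply, G.alt] at h1
  linear_combination h1

theorem Graded.pair' (G : Graded P st ω) (i : I) (u v : Y) : ω u (P i v) = ω (P (st i) u) v := by
  rw [G.pair, G.invol]

theorem Graded.apply_of_mem (G : Graded P st ω) {i j : I} {u : Y} (hu : P j u = u) :
    P i u = if i = j then u else 0 := by
  by_cases h : i = j
  · rw [if_pos h, h, hu]
  · rw [if_neg h, ← hu, G.orth i j h]

/-- The elementary operators. -/
theorem SS_mem_SkBl (G : Graded P st ω) {i : I} {a b : Y} (ha : P i a = a) (hb : P (st i) b = b) :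
    SS ω a b ∈ SkBl P ω := by
  refine ⟨fun k u => ?_, fun u v => ?_⟩
  · rw [SS_apply, SS_apply, map_add, map_smul, map_smul, G.apply_of_mem hb, G.apply_of_mem ha,
      G.pair' k a u, G.pair' k b u, G.apply_of_mem (i := st k) ha, G.apply_of_mem (i := st k) hb]
    by_cases h1 : k = st i
    · have h2 : st k = i := by rw [h1, G.invol]
      rw [if_pos h2, if_pos h1]
      by_cases h3 : k = i
      · rw [if_pos h3, if_pos (by rw [h2, ← h1, h3])]
      · rw [if_neg h3, if_neg (by rw [h2, ← h1]; exact fun h => h3 h.symm)]
        simp
    · have h2 : st k ≠ i := fun h => h1 (by rw [← h, G.invol])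
      rw [if_neg h1, if_neg h2]
      by_cases h3 : k = i
      · rw [if_pos h3, if_pos (by rw [h3])]
        simp
      · rw [if_neg h3, if_neg (fun h => h3 (by rw [← G.invol k, h, G.invol]))]
        simp
  · rw [SS_apply, SS_apply, map_add, map_add, map_smul, map_smul, map_smul, map_smul,
      LinearMap.add_apply, LinearMap.smul_apply, LinearMap.smul_apply]
    simp only [smul_eq_mul]
    rw [G.skew u a, G.skew u b]
    ring

/-- The pairing of one component. -/
def bc (P : I → Module.End K Y) (ω : Y →ₗ[K] Y →ₗ[K] K) (i : I) : Y →ₗ[K] Y →ₗ[K] K :=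
  ω.comp (P i)

theorem bc_apply (i : I) (u v : Y) : bc P ω i u v = ω (P i u) v := rfl

/-- The products of pairings over a matching. -/
def Prods (P : I → Module.End K Y) (ω : Y →ₗ[K] Y →ₗ[K] K) (κ : Type) (m : ℕ) :
    Set (MultilinearMap K (fun _ : κ => Y) K) :=
  {ψ | ∃ (e : Fin m × Fin 2 ≃ κ) (c : Fin m → I), ∀ v,
    ψ v = ∏ s, bc P ω (c s) (v (e (s, 0))) (v (e (s, 1)))}

/-- The first fundamental theorem. -/
theorem fft_graded [FiniteDimensional K Y] (G : Graded P st ω) {κ : Type} [Fintype κ] [DecidableEq κ]
    (φ : MultilinearMap K (fun _ : κ => Y) K) (hφ : ∀ Z ∈ SkBl P ω, Kills Z φ) :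
    (∀ m, Fintype.card κ = 2 * m → φ ∈ Submodule.span K (Prods P ω κ m)) ∧
    (Odd (Fintype.card κ) → φ = 0) := by
  classical
  obtain ⟨n, e, lab, he1, he2, he3, he4⟩ := exists_sb ω G.skew G.alt
    (fun i => LinearMap.range (P i)) st G.invol (by
      rintro c d hcd _ ⟨u, rfl⟩ _ ⟨v, rfl⟩
      rw [G.pair, G.orth _ _ (fun h => hcd h.symm), map_zero]) G.nondeg (by
      rw [eq_top_iff]
      intro u _
      rw [← G.sum u]
      exact Submodule.sum_mem _ fun i _ => Submodule.mem_iSup_of_mem i ⟨u, rfl⟩)
  have hPe : ∀ x, P (lab x) (e x) = e x := by
    intro x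
    obtain ⟨u, hu⟩ := he1 x
    rw [← hu, G.idem]
  let inv : Fin n ⊕ Fin n → Fin n ⊕ Fin n := Sum.swap
  let jj : Fin n ⊕ Fin n → K := fun x => ω (e x) (e x.swap)
  have hinv : ∀ x, inv (inv x) = x := Sum.swap_swap
  have hjj : ∀ x, jj (inv x) = -jj x := by
    intro x
    change ω (e x.swap) (e x.swap.swap) = -ω (e x) (e x.swap)
    rw [Sum.swap_swap, G.skew]
  have hω : ∀ x y, ω (e x) (e y) = JJ inv jj x y := by
    intro x y
    unfold JJ
    by_cases h : y = inv x
    · rw [if_pos h, h]
    · rw [if_neg h, he3 x y h]
  have hcls : ∀ x y, lab x = lab y → lab (inv x) = lab (inv y) := by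
    intro x y h
    change lab x.swap = lab y.swap
    rw [he2, he2, h]
  let coef : MultilinearMap K (fun _ : κ => Y) K →ₗ[K] ((κ → Fin n ⊕ Fin n) → K) :=
    { toFun := fun φ I => φ (fun k => e (I k))
      map_add' := fun _ _ => rfl
      map_smul' := fun _ _ => rfl }
  have hinj : Function.Injective coef := fun φ φ' h =>
    Basis.ext_multilinear (fun _ => e) fun I => congrFun h I
  have hrel : ∀ b c, lab (inv b) = lab c → ∀ J : κ → Fin n ⊕ Fin n,
      ∑ k, (JJ inv jj b (J k) * coef φ (Function.update J k c) +
        JJ inv jj c (J k) * coef φ (Function.update J k b)) = 0 := by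
    intro b c hbc J
    have h2 : SS ω (e b) (e c) ∈ SkBl P ω := SS_mem_SkBl G (hPe b) (by
      have h3 : st (lab b) = lab c := by rw [← hbc]; exact (he2 b).symm
      rw [h3]
      exact hPe c)
    have h3 := hφ _ h2 (fun k => e (J k))
    rw [← h3]
    refine Finset.sum_congr rfl fun k _ => ?_
    rw [SS_apply, hω, hω, MultilinearMap.map_update_add, MultilinearMap.map_update_smul,
      MultilinearMap.map_update_smul, smul_eq_mul, smul_eq_mul]
    have h4 : ∀ z : Fin n ⊕ Fin n, coef φ (Function.update J k z) =
        φ (Function.update (fun k => e (J k)) k (e z)) := by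
      intro z
      change φ (fun l => e (Function.update J k z l)) = _
      congr 1
      funext l
      by_cases hl : l = k
      · subst hl
        rw [Function.update_self, Function.update_self]
      · rw [Function.update_of_ne hl, Function.update_of_ne hl]
    rw [h4, h4]
  constructor
  · intro m hm
    let F : (κ → I) → ((κ → Fin n ⊕ Fin n) → K) := fun t J =>
      if (fun k => lab (J k)) = t then coef φ J else 0
    have hF : coef φ = ∑ t, F t := by
      funext J
      rw [Finset.sum_apply]
      simp only [F]
      rw [Finset.sum_ite_eq, if_pos (Finset.mem_univ _)]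
    have hFt : ∀ t, F t ∈ InvG lab inv jj κ t := by
      intro t
      refine ⟨fun b c hbc J => ?_, fun J hJ k => ?_⟩
      · have htype : ∀ (k : κ) (z : Fin n ⊕ Fin n), lab (J k) = lab z →
            (fun l => lab (Function.update J k z l)) = fun l => lab (J l) := by
          intro k z hz
          funext l
          by_cases hl : l = k
          · subst hl
            rw [Function.update_self, hz]
          · rw [Function.update_of_ne hl]
        have h1 : ∀ k, JJ inv jj b (J k) * F t (Function.update J k c) +
            JJ inv jj c (J k) * F t (Function.update J k b) =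
            if (fun k => lab (J k)) = t then JJ inv jj b (J k) * coef φ (Function.update J k c) +
              JJ inv jj c (J k) * coef φ (Function.update J k b) else 0 := by
          intro k
          have e1 : JJ inv jj b (J k) * F t (Function.update J k c) =
              if (fun k => lab (J k)) = t then JJ inv jj b (J k) *
                coef φ (Function.update J k c) else 0 := by
            by_cases h : J k = inv b
            · have h2 := htype k c (by rw [h, hbc])
              simp only [F]
              rw [h2]
              split_ifs
              · rfl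
              · rw [mul_zero]
            · have h2 : JJ inv jj b (J k) = 0 := by
                unfold JJ
                rw [if_neg h]
              rw [h2, zero_mul, zero_mul]
              split_ifs <;> rfl
          have e2 : JJ inv jj c (J k) * F t (Function.update J k b) =
              if (fun k => lab (J k)) = t then JJ inv jj c (J k) *
                coef φ (Function.update J k b) else 0 := by
            by_cases h : J k = inv c
            · have h2 := htype k b (by rw [h, ← hcls _ _ hbc, hinv])
              simp only [F]
              rw [h2]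
              split_ifs
              · rfl
              · rw [mul_zero]
            · have h2 : JJ inv jj c (J k) = 0 := by
                unfold JJ
                rw [if_neg h]
              rw [h2, zero_mul, zero_mul]
              split_ifs <;> rfl
          rw [e1, e2]
          split_ifs
          · rfl
          · rw [add_zero]
        rw [Finset.sum_congr rfl (fun k _ => h1 k)]
        by_cases hI : (fun k => lab (J k)) = t
        · simp only [if_pos hI]
          exact hrel b c hbc J
        · simp only [if_neg hI]
          exact Finset.sum_const_zero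
      · by_contra h
        apply hJ
        simp only [F]
        rw [if_neg]
        rintro rfl
        exact h rfl
    have h1 : coef φ ∈ MatG lab inv jj κ m := by
      rw [hF]
      exact Submodule.sum_mem _ fun t _ => fftG hinv hjj (fun x => he4 x) hcls m κ hm t (hFt t)
    have h3 : MatG lab inv jj κ m ≤ (Submodule.span K (Prods P ω κ m)).map coef := by
      unfold MatG
      rw [Submodule.span_le]
      rintro _ ⟨σ, c, rfl⟩
      let ψ : MultilinearMap K (fun _ : κ => Y) K :=
        (Pool.Agent.H204R3.CM.prodMap (fun l : Fin m => bil2 (bc P ω (c l)))).domDomCongr σ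
      have hψ : ∀ v, ψ v = ∏ s, bc P ω (c s) (v (σ (s, 0))) (v (σ (s, 1))) := fun v => rfl
      refine ⟨ψ, Submodule.subset_span ⟨σ, c, hψ⟩, ?_⟩
      funext J
      change ψ (fun k => e (J k)) = _
      rw [hψ]
      refine Finset.prod_congr rfl fun s _ => ?_
      rw [bc_apply, G.apply_of_mem (hPe _)]
      by_cases h : lab (J (σ (s, 0))) = c s
      · rw [if_pos h, if_pos h.symm, hω]
      · rw [if_neg h, if_neg (fun h' => h h'.symm), map_zero, LinearMap.zero_apply]
    obtain ⟨φ', hφ', hφφ⟩ := h3 h1
    rw [← hinj hφφ]
    exact hφ'
  · intro hodd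
    apply hinj
    rw [map_zero]
    funext J
    rw [Pi.zero_apply]
    by_contra h0
    have hcnt : ∀ b, (Finset.univ.filter (fun k => J k = inv b)).card =
        (Finset.univ.filter (fun k => J k = b)).card := by
      intro b
      have h1 := hrel b (inv b) rfl J
      have h2 : ∀ k, JJ inv jj b (J k) * coef φ (Function.update J k (inv b)) +
          JJ inv jj (inv b) (J k) * coef φ (Function.update J k b) =
          (jj b * coef φ J) * ((if J k = inv b then 1 else 0) - (if J k = b then 1 else 0)) := by
        intro k
        unfold JJ
        rw [hinv, hjj]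
        by_cases h3 : J k = inv b
        · by_cases h4 : J k = b
          · rw [if_pos h3, if_pos h4, if_pos h3, if_pos h4]
            have h5 : Function.update J k (inv b) = J := by rw [← h3, Function.update_eq_self]
            have h6 : Function.update J k b = J := by
              conv_lhs => rw [← h4]
              rw [Function.update_eq_self]
            rw [h5, h6]
            ring
          · rw [if_pos h3, if_neg h4, if_pos h3, if_neg h4]
            have h5 : Function.update J k (inv b) = J := by rw [← h3, Function.update_eq_self]
            rw [h5]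
            ring
        · by_cases h4 : J k = b
          · rw [if_neg h3, if_pos h4, if_neg h3, if_pos h4]
            have h6 : Function.update J k b = J := by
              conv_lhs => rw [← h4]
              rw [Function.update_eq_self]
            rw [h6]
            ring
          · rw [if_neg h3, if_neg h4, if_neg h3, if_neg h4]
            ring
      rw [Finset.sum_congr rfl fun k _ => h2 k, ← Finset.mul_sum, Finset.sum_sub_distrib,
        Finset.sum_boole, Finset.sum_boole] at h1
      have h3 : jj b * coef φ J ≠ 0 := mul_ne_zero (he4 b) h0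
      have h4 := (mul_eq_zero.1 h1).resolve_left h3
      exact_mod_cast sub_eq_zero.1 h4
    have hcard : Fintype.card κ = ∑ b, (Finset.univ.filter (fun k => J k = b)).card := by
      rw [← Finset.card_univ]
      exact Finset.card_eq_sum_card_fiberwise (fun _ _ => Finset.mem_univ _)
    rw [Fintype.sum_sum_type] at hcard
    have h5 : ∑ a : Fin n, (Finset.univ.filter (fun k => J k = Sum.inr a)).card =
        ∑ a : Fin n, (Finset.univ.filter (fun k => J k = Sum.inl a)).card :=
      Finset.sum_congr rfl fun a _ => hcnt (Sum.inl a)
    rw [h5] at hcard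
    rw [Nat.odd_iff] at hodd
    omega

end

end Pool.Agent.X300.KT
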