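import Mathlib
import Pool.Agent.X300.KT.FFT

/-!
# Subspaces of block diagonal skew operators which are stable under commutators
-/

set_option linter.unusedSectionVars false

namespace Pool.Agent.X300.KT

open Module Pool.Agent.H204R3.SP Pool.Agent.H204R3.GP Pool.Agent.W522.U

noncomputable section

variable {K : Type*} [Field K] [CharZero K] {Y : Type*} [AddCommGroup Y] [Module K Y]
  {I : Type*} [Fintype I] [DecidableEq I]
  {P : I → Module.End K Y} {st : I → I} {ω : Y →ₗ[K] Y →ₗ[K] K}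

/-- The commutator of a skew operator and an elementary operator. -/
theorem SS_bracket {Z : Module.End K Y} (hZ : ∀ u v, ω (Z u) v + ω u (Z v) = 0)
    (hsk : ∀ u v, ω u v = -ω v u) (a b : Y) :
    Z * SS ω a b - SS ω a b * Z = SS ω (Z a) b + SS ω a (Z b) := by
  ext x
  rw [LinearMap.sub_apply, LinearMap.add_apply, Module.End.mul_apply, Module.End.mul_apply, SS_apply,
    SS_apply, SS_apply, SS_apply, map_add, map_smul, map_smul]
  have h1 : ω a (Z x) = -ω (Z a) x := by linear_combination hZ a x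
  have h2 : ω b (Z x) = -ω (Z b) x := by linear_combination hZ b x
  rw [h1, h2]
  module

theorem SS_zero_left (b : Y) : SS ω 0 b = 0 := by
  ext x
  rw [SS_apply]
  simp

theorem SS_zero_right (a : Y) : SS ω a 0 = 0 := by
  rw [SS_comm, SS_zero_left]

theorem SS_add_left (a a' b : Y) : SS ω (a + a') b = SS ω a b + SS ω a' b := by
  ext x
  rw [LinearMap.add_apply, SS_apply, SS_apply, SS_apply, map_add, LinearMap.add_apply]
  module

theorem SS_smul_left (c : K) (a b : Y) : SS ω (c • a) b = c • SS ω a b := by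
  ext x
  rw [LinearMap.smul_apply, SS_apply, SS_apply, map_smul, LinearMap.smul_apply]
  module

theorem SS_add_right (a b b' : Y) : SS ω a (b + b') = SS ω a b + SS ω a b' := by
  rw [SS_comm, SS_add_left, SS_comm ω b a, SS_comm ω b' a]

theorem SS_smul_right (c : K) (a b : Y) : SS ω a (c • b) = c • SS ω a b := by
  rw [SS_comm, SS_smul_left, SS_comm]

/-- The pairing of vectors in different blocks. -/
theorem Graded.zero_of_mem (G : Graded P st ω) {i j : I} {u v : Y} (hu : P i u = u) (hv : P j v = v)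
    (h : j ≠ st i) : ω u v = 0 := by
  rw [← hu, G.pair, G.apply_of_mem hv, if_neg (fun h' => h h'.symm), map_zero]

/-- The pairing of a block with its dual is nondegenerate. -/
theorem Graded.exists_pair (G : Graded P st ω) {i : I} {u : Y} (hu : P i u = u) (h0 : u ≠ 0) :
    ∃ v, P (st i) v = v ∧ ω u v ≠ 0 := by
  by_contra hcon
  push Not at hcon
  apply h0
  refine G.nondeg u fun v => ?_
  rw [← hu, G.pair]
  exact hcon _ (G.idem _ _)

/-- The adapted basis of a graded symplectic space. -/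
theorem Graded.exists_basis [FiniteDimensional K Y] (G : Graded P st ω) :
    ∃ (n : ℕ) (e : Basis (Fin n ⊕ Fin n) K Y) (lab : Fin n ⊕ Fin n → I) (e' : Fin n ⊕ Fin n → Y),
      (∀ x, P (lab x) (e x) = e x) ∧ (∀ x, P (st (lab x)) (e' x) = e' x) ∧
      (∀ x w, e.repr w x = ω (e' x) w) ∧ (∀ w, ∑ x, ω (e x) w • e' x = -w) := by
  classical
  obtain ⟨n, e, lab, he1, he2, he3, he4⟩ := exists_sb ω G.skew G.alt
    (fun i => LinearMap.range (P i)) st G.invol (by
      rintro c d hcd _ ⟨u, rfl⟩ _ ⟨v, rfl⟩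
      rw [G.pair, G.orth _ _ (fun h => hcd h.symm), map_zero]) G.nondeg (by
      rw [eq_top_iff]
      intro u _
      rw [← G.sum u]
      exact Submodule.sum_mem _ fun i _ => Submodule.mem_iSup_of_mem i ⟨u, rfl⟩)
  have hPe : ∀ x, P (lab x) (e x) = e x := by
    intro x
    obtain ⟨u, hu⟩ := he1 x
    rw [← hu, G.idem]
  have hne : ∀ x, ω (e x.swap) (e x) ≠ 0 := by
    intro x
    rw [G.skew]
    exact neg_ne_zero.2 (he4 x)
  refine ⟨n, e, lab, fun x => (ω (e x.swap) (e x))⁻¹ • e x.swap, hPe, fun x => ?_, fun x w => ?_,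
    fun w => ?_⟩
  · rw [map_smul, ← he2, hPe]
  · have h1 : ω (e x.swap) w = e.repr w x * ω (e x.swap) (e x) := by
      conv_lhs => rw [← e.sum_repr w]
      rw [map_sum, Finset.sum_eq_single x]
      · rw [map_smul, smul_eq_mul]
      · intro y _ hy
        rw [map_smul, he3 _ _ (by rw [Sum.swap_swap]; exact hy), smul_zero]
      · intro h
        exact absurd (Finset.mem_univ _) h
    rw [map_smul, LinearMap.smul_apply, h1, smul_eq_mul, mul_comm, mul_assoc, mul_inv_cancel₀ (hne x),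
      mul_one]
  · have h1 : ∀ w : Y, ∑ x, ω (e x) w • (ω (e x.swap) (e x))⁻¹ • e x.swap = -w := by
      intro w
      let T : Y →ₗ[K] Y := ∑ x, (ω (e x)).smulRight ((ω (e x.swap) (e x))⁻¹ • e x.swap)
      have hT : ∀ w, T w = ∑ x, ω (e x) w • (ω (e x.swap) (e x))⁻¹ • e x.swap := by
        intro w
        rw [LinearMap.sum_apply]
        rfl
      rw [← hT]
      have h2 : T = -LinearMap.id := by
        refine e.ext fun y => ?_
        rw [hT, Finset.sum_eq_single y.swap]
        · rw [Sum.swap_swap, smul_smul]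
          have h3 : ω (e y.swap) (e y) * (ω (e y) (e y.swap))⁻¹ = -1 := by
            rw [G.skew (e y.swap), neg_mul, mul_inv_cancel₀ (he4 y)]
          rw [h3, LinearMap.neg_apply, neg_one_smul]
          rfl
        · intro x _ hx
          rw [he3 x y (fun h => hx (by rw [h, Sum.swap_swap])), zero_smul]
        · intro h
          exact absurd (Finset.mem_univ _) h
      rw [h2]
      rfl
    exact h1 w

/-- Every skew block diagonal operator is a sum of elementary operators. -/
theorem two_smul_eq {n : ℕ} (e : Basis (Fin n ⊕ Fin n) K Y) (e' : Fin n ⊕ Fin n → Y)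
    (hsk : ∀ u v, ω u v = -ω v u)
    (hr : ∀ x w, e.repr w x = ω (e' x) w) (hs : ∀ w, ∑ x, ω (e x) w • e' x = -w)
    {Z : Module.End K Y} (hZ : ∀ u v, ω (Z u) v + ω u (Z v) = 0) :
    (2 : K) • Z = ∑ x, SS ω (Z (e x)) (e' x) := by
  ext v
  rw [LinearMap.smul_apply, LinearMap.sum_apply]
  have h1 : ∀ x, SS ω (Z (e x)) (e' x) v = ω (e' x) v • Z (e x) - ω (e x) (Z v) • e' x := by
    intro x
    rw [SS_apply]
    have h2 : ω (Z (e x)) v = -ω (e x) (Z v) := by linear_combination hZ (e x) v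
    rw [h2]
    module
  rw [Finset.sum_congr rfl fun x _ => h1 x, Finset.sum_sub_distrib, hs (Z v)]
  have h3 : ∑ x, ω (e' x) v • Z (e x) = Z v := by
    conv_rhs => rw [← e.sum_repr v]
    rw [map_sum]
    refine Finset.sum_congr rfl fun x _ => ?_
    rw [map_smul, hr]
  rw [h3]
  module

variable (G : Graded P st ω) (M : Submodule K (Module.End K Y)) (hM : M ≤ SkBl P ω)
  (hbr : ∀ Z ∈ SkBl P ω, ∀ A ∈ M, Z * A - A * Z ∈ M)

include G hM hbr

/-- The commutator with an element of the subspace. -/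
theorem star {Z : Module.End K Y} (hZ : Z ∈ M) {i : I} {a b : Y} (ha : P i a = a)
    (hb : P (st i) b = b) : SS ω (Z a) b + SS ω a (Z b) ∈ M := by
  rw [← SS_bracket (hM hZ).2 G.skew]
  have h1 := hbr _ (SS_mem_SkBl G ha hb) Z hZ
  have h2 : Z * SS ω a b - SS ω a b * Z = -(SS ω a b * Z - Z * SS ω a b) := by abel
  rw [h2]
  exact M.neg_mem h1

theorem br_SS {T : Module.End K Y} (hT : T ∈ SkBl P ω) {a b : Y} (h : SS ω a b ∈ M) :
    SS ω (T a) b + SS ω a (T b) ∈ M := by
  rw [← SS_bracket hT.2 G.skew]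
  exact hbr T hT _ h

theorem mem_block {Z : Module.End K Y} (hZ : Z ∈ SkBl P ω) {i : I} {a : Y} (ha : P i a = a) :
    P i (Z a) = Z a := by
  rw [← hZ.1, ha]

/-- The self-dual blocks. -/
theorem self_block {i : I} (hi : st i = i) {Z : Module.End K Y} (hZ : Z ∈ M)
    (h0 : ∃ u, P i u = u ∧ Z u ≠ 0) {a b : Y} (ha : P i a = a) (hb : P i b = b) : SS ω a b ∈ M := by
  -- a vector on which the quadratic form is not zero
  obtain ⟨u, hu, hu0⟩ : ∃ u, P i u = u ∧ ω u (Z u) ≠ 0 := by
    by_contra hcon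
    push Not at hcon
    obtain ⟨u, hu, hu0⟩ := h0
    obtain ⟨v, hv, hv0⟩ := G.exists_pair (mem_block G M hM hbr (hM hZ) hu) hu0
    rw [hi] at hv
    apply hv0
    have h1 := hcon (u + v) (by rw [map_add, hu, hv])
    rw [map_add, map_add, map_add, LinearMap.add_apply, LinearMap.add_apply, hcon u hu, hcon v hv] at h1
    have h2 := (hM hZ).2 u v
    have h3 := G.skew v (Z u)
    linear_combination (1 / 2 : K) * h2 - (1 / 2 : K) * h1 + (1 / 2 : K) * h3
  have hblk : ∀ {x y : Y}, P i x = x → P i y = y → SS ω x y ∈ SkBl P ω := fun hx hy =>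
    SS_mem_SkBl G hx (by rw [hi]; exact hy)
  have hZu := mem_block G M hM hbr (hM hZ) hu
  have h1 := star G M hM hbr hZ hu (by rw [hi]; exact hu)
  rw [SS_comm ω (Z u) u, ← two_smul K] at h1
  have h2 : SS ω u (Z u) ∈ M := by
    have h3 := M.smul_mem (2⁻¹ : K) h1
    rwa [smul_smul, inv_mul_cancel₀ two_ne_zero, one_smul] at h3
  have h3 := br_SS G M hM hbr (hblk hu hu) h2
  have h4 : SS ω u u u = 0 := by rw [SS_apply, G.alt]; simp
  have h5 : SS ω u u (Z u) = (2 * ω u (Z u)) • u := by rw [SS_apply]; module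
  rw [h4, SS_zero_left, zero_add, h5, SS_smul_right] at h3
  have h6 : SS ω u u ∈ M := by
    have h7 := M.smul_mem (2 * ω u (Z u))⁻¹ h3
    rwa [smul_smul, inv_mul_cancel₀ (mul_ne_zero two_ne_zero hu0), one_smul] at h7
  have hu00 : u ≠ 0 := by
    rintro rfl
    apply hu0
    rw [map_zero, LinearMap.zero_apply]
  obtain ⟨z, hz, hz0⟩ := G.exists_pair hu hu00
  rw [hi] at hz
  -- an operator with prescribed value
  have key : ∀ w, P i w = w → ∃ T ∈ SkBl P ω, T u = w := by
    intro w hw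
    let z' : Y := (ω z u)⁻¹ • z
    have hzu : ω z u ≠ 0 := by rw [G.skew]; exact neg_ne_zero.2 hz0
    have hz' : P i z' = z' := by rw [map_smul, hz]
    have hz1 : ω z' u = 1 := by
      rw [map_smul, LinearMap.smul_apply, smul_eq_mul, inv_mul_cancel₀ hzu]
    refine ⟨SS ω w z' - (ω w u / 2) • SS ω z' z', Submodule.sub_mem _ (hblk hw hz')
      (Submodule.smul_mem _ _ (hblk hz' hz')), ?_⟩
    rw [LinearMap.sub_apply, LinearMap.smul_apply, SS_apply, SS_apply, hz1]
    module
  have h7 : ∀ w, P i w = w → SS ω w u ∈ M := by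
    intro w hw
    obtain ⟨T, hT, hTu⟩ := key w hw
    have h8 := br_SS G M hM hbr hT h6
    rw [hTu, SS_comm ω u w, ← two_smul K] at h8
    have h9 := M.smul_mem (2⁻¹ : K) h8
    rwa [smul_smul, inv_mul_cancel₀ two_ne_zero, one_smul] at h9
  obtain ⟨T, hT, hTu⟩ := key b hb
  have h8 := br_SS G M hM hbr hT (h7 a ha)
  rw [hTu] at h8
  have h9 := M.sub_mem h8 (h7 (T a) (mem_block G M hM hbr hT ha))
  rwa [add_sub_cancel_left] at h9

/-- The other blocks: one step. -/
theorem pair_step {i : I} (hi : st i ≠ i) {u v a b : Y} (hu : P i u = u) (hv : P (st i) v = v)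
    (ha : P i a = a) (hb : P (st i) b = b) (h : SS ω u v ∈ M) (hba : ω b a = 0)
    (h1 : ω b u ≠ 0) (h2 : ω v a ≠ 0) : SS ω a b ∈ M := by
  have hT : SS ω a b ∈ SkBl P ω := SS_mem_SkBl G ha hb
  have z1 : ω a u = 0 := G.zero_of_mem ha hu (Ne.symm hi)
  have z2 : ω b v = 0 := G.zero_of_mem hb hv (by rw [G.invol]; exact hi)
  have e1 : SS ω a b u = ω b u • a := by rw [SS_apply, z1]; module
  have e2 : SS ω a b v = ω a v • b := by rw [SS_apply, z2]; module
  have e3 : SS ω a b a = 0 := by rw [SS_apply, G.alt, hba]; module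
  have e4 : SS ω a b b = 0 := by rw [SS_apply, G.alt, G.skew a b, hba]; module
  have h3 := br_SS G M hM hbr hT h
  have h4 := hbr _ hT _ h3
  rw [e1, e2, SS_smul_left, SS_smul_right, mul_add, add_mul] at h4
  have h5 : SS ω a b * ω b u • SS ω a v + SS ω a b * ω a v • SS ω u b -
      (ω b u • SS ω a v * SS ω a b + ω a v • SS ω u b * SS ω a b) =
      (2 * (ω b u * ω a v)) • SS ω a b := by
    have h6 := SS_bracket hT.2 G.skew a v
    have h7 := SS_bracket hT.2 G.skew u b
    rw [e3, SS_zero_left, e2, zero_add, SS_smul_right] at h6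
    rw [e1, e4, SS_zero_right, add_zero, SS_smul_left] at h7
    rw [mul_smul_comm, mul_smul_comm, smul_mul_assoc, smul_mul_assoc]
    have h8 : ω b u • (SS ω a b * SS ω a v) + ω a v • (SS ω a b * SS ω u b) -
        (ω b u • (SS ω a v * SS ω a b) + ω a v • (SS ω u b * SS ω a b)) =
        ω b u • (SS ω a b * SS ω a v - SS ω a v * SS ω a b) +
        ω a v • (SS ω a b * SS ω u b - SS ω u b * SS ω a b) := by
      rw [smul_sub, smul_sub]
      abel
    rw [h8, h6, h7]
    module
  rw [h5] at h4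
  have h6 : (2 * (ω b u * ω a v)) ≠ 0 := by
    refine mul_ne_zero two_ne_zero (mul_ne_zero h1 ?_)
    rw [G.skew]
    exact neg_ne_zero.2 h2
  have h7 := M.smul_mem (2 * (ω b u * ω a v))⁻¹ h4
  rwa [smul_smul, inv_mul_cancel₀ h6, one_smul] at h7

omit hM hbr G in
/-- A vector outside of four proper subspaces. -/
theorem exists_avoid {E : Type*} [AddCommGroup E] [Module K E] (S : Fin 4 → Submodule K E)
    (hS : ∀ k, S k ≠ ⊤) : ∃ x, ∀ k, x ∉ S k := by
  classical
  by_contra hcon
  push Not at hcon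
  have h1 := Subspace.biUnion_ne_univ_of_top_notMem (k := K) (E := E) (s := Finset.univ.image S) (by
    intro h
    obtain ⟨k, -, hk⟩ := Finset.mem_image.1 h
    exact hS k hk)
  apply h1
  rw [Set.eq_univ_iff_forall]
  intro x
  obtain ⟨k, hk⟩ := hcon x
  simp only [Set.mem_iUnion]
  exact ⟨S k, Finset.mem_image_of_mem _ (Finset.mem_univ _), hk⟩

/-- The other blocks. -/
theorem pair_block [FiniteDimensional K Y] {i : I} (hi : st i ≠ i)
    (h0 : 2 ≤ finrank K (LinearMap.range (P i)) →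
      ∃ Z ∈ M, ∀ c : K, ∃ u, P i u = u ∧ Z u ≠ c • u)
    {a b : Y} (ha : P i a = a) (hb : P (st i) b = b) (hba : ω b a = 0) : SS ω a b ∈ M := by
  by_cases ha0 : a = 0
  · rw [ha0, SS_zero_left]
    exact M.zero_mem
  by_cases hb0 : b = 0
  · rw [hb0, SS_zero_right]
    exact M.zero_mem
  -- the dimension
  have hnotspan : ∀ x y : Y, P i x = x → P i y = y → (∀ c : K, x ≠ c • y) →
      ∃ w, P (st i) w = w ∧ ω w y = 0 ∧ ω w x ≠ 0 := by
    intro x y hx hy hxy
    by_contra hcon
    push Not at hcon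
    by_cases hy0 : y = 0
    · have hx0 : x ≠ 0 := fun h => hxy 0 (by rw [h, zero_smul])
      obtain ⟨w, hw, hw0⟩ := G.exists_pair hx hx0
      apply hw0
      rw [G.skew, hcon w hw (by rw [hy0, map_zero]), neg_zero]
    · obtain ⟨w, hw, hw0⟩ := G.exists_pair hy hy0
      have hw0' : ω w y ≠ 0 := by rw [G.skew]; exact neg_ne_zero.2 hw0
      apply hxy (ω w x / ω w y)
      rw [← sub_eq_zero]
      by_contra hne
      obtain ⟨t, ht, ht0⟩ := G.exists_pair (u := x - (ω w x / ω w y) • y)
        (by rw [map_sub, map_smul, hx, hy]) hne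
      apply ht0
      rw [G.skew]
      have h2 := hcon (t - (ω t y / ω w y) • w) (by rw [map_sub, map_smul, ht, hw]) (by
        rw [map_sub, LinearMap.sub_apply, map_smul, LinearMap.smul_apply, smul_eq_mul,
          div_mul_cancel₀ _ hw0', sub_self])
      rw [map_sub, LinearMap.sub_apply, map_smul, LinearMap.smul_apply, smul_eq_mul] at h2
      rw [map_sub, map_smul, smul_eq_mul]
      have h3 : ω t x - ω w x / ω w y * ω t y = ω t x - ω t y / ω w y * ω w x := by
        field_simp
      rw [h3, h2, neg_zero]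
  have h2 : 2 ≤ finrank K (LinearMap.range (P i)) ∨ ∀ x, P i x = x → ∃ c : K, x = c • a := by
    by_cases h : ∀ x, P i x = x → ∃ c : K, x = c • a
    · exact Or.inr h
    · left
      push Not at h
      obtain ⟨x, hx, hxa⟩ := h
      by_contra hlt
      have h4 : finrank K (LinearMap.range (P i)) ≤ 1 := by omega
      obtain ⟨w, hw⟩ := finrank_le_one_iff.1 h4
      obtain ⟨c1, hc1⟩ := hw ⟨a, ⟨a, ha⟩⟩
      obtain ⟨c2, hc2⟩ := hw ⟨x, ⟨x, hx⟩⟩
      have h5 : c1 • (w : Y) = a := congrArg Subtype.val hc1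
      have h6 : c2 • (w : Y) = x := congrArg Subtype.val hc2
      have h7 : c1 ≠ 0 := by
        rintro rfl
        apply ha0
        rw [← h5, zero_smul]
      apply hxa (c2 * c1⁻¹)
      rw [← h6, ← h5, smul_smul, mul_assoc, inv_mul_cancel₀ h7, mul_one]
  rcases h2 with h2 | h2
  swap
  · -- dimension one
    exfalso
    obtain ⟨w, hw, hw0⟩ := G.exists_pair hb hb0
    rw [G.invol] at hw
    obtain ⟨c, hc⟩ := h2 w hw
    apply hw0
    rw [hc, map_smul, hba, smul_zero]
  obtain ⟨Z, hZ, hZc⟩ := h0 h2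
  -- a first elementary operator
  obtain ⟨u, v, hu, hv, hvu, huv, hu0, hv0⟩ : ∃ u v, P i u = u ∧ P (st i) v = v ∧ ω v u = 0 ∧
      SS ω u v ∈ M ∧ u ≠ 0 ∧ v ≠ 0 := by
    obtain ⟨u, hu, hZu⟩ : ∃ u, P i u = u ∧ ∀ c : K, Z u ≠ c • u := by
      by_contra hcon
      push Not at hcon
      -- every vector is an eigenvector
      obtain ⟨c0, hc0⟩ := hcon a ha
      obtain ⟨x, hx, hxc⟩ := hZc c0
      obtain ⟨c1, hc1⟩ := hcon x hx
      obtain ⟨c2, hc2⟩ := hcon (a + x) (by rw [map_add, ha, hx])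
      rw [map_add, hc0, hc1, smul_add] at hc2
      have h5 : (c0 - c2) • a + (c1 - c2) • x = 0 := by
        have h6 : (c0 - c2) • a + (c1 - c2) • x = (c0 • a + c1 • x) - (c2 • a + c2 • x) := by module
        rw [h6, hc2, sub_self]
      by_cases h7 : c1 = c2
      · rw [h7, sub_self, zero_smul, add_zero] at h5
        have h8 : c0 = c2 := by
          by_contra h9
          exact ha0 ((smul_eq_zero.1 h5).resolve_left (sub_ne_zero.2 h9))
        exact hxc (by rw [hc1, h7, ← h8])
      · have h8 : x = (-(c0 - c2) * (c1 - c2)⁻¹) • a := by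
          have h9 : (c1 - c2) • x = (-(c0 - c2)) • a := by
            rw [neg_smul, eq_neg_iff_add_eq_zero, add_comm]
            exact h5
          have h10 := congrArg (fun y => (c1 - c2)⁻¹ • y) h9
          simp only [smul_smul] at h10
          rw [inv_mul_cancel₀ (sub_ne_zero.2 h7), one_smul] at h10
          rw [h10, mul_comm]
        apply hxc
        rw [h8, map_smul, hc0, smul_comm]
    obtain ⟨v, hv, hvu, hvZ⟩ := hnotspan (Z u) u (mem_block G M hM hbr (hM hZ) hu) hu hZu
    have hu0 : u ≠ 0 := fun h => hZu 0 (by rw [h, map_zero, smul_zero])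
    have hv0 : v ≠ 0 := fun h => hvZ (by rw [h, map_zero, LinearMap.zero_apply])
    refine ⟨u, v, hu, hv, hvu, ?_, hu0, hv0⟩
    have hT : SS ω u v ∈ SkBl P ω := SS_mem_SkBl G hu hv
    have hZu' := mem_block G M hM hbr (hM hZ) hu
    have hZv' := mem_block G M hM hbr (hM hZ) hv
    have z1 : ω u (Z u) = 0 := G.zero_of_mem hu hZu' (Ne.symm hi)
    have z2 : ω v (Z v) = 0 := G.zero_of_mem hv hZv' (by rw [G.invol]; exact hi)
    have e1 : SS ω u v u = 0 := by rw [SS_apply, G.alt, hvu]; module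
    have e2 : SS ω u v v = 0 := by rw [SS_apply, G.alt, G.skew u v, hvu]; module
    have e3 : SS ω u v (Z u) = ω v (Z u) • u := by rw [SS_apply, z1]; module
    have e4 : SS ω u v (Z v) = ω v (Z u) • v := by
      rw [SS_apply, z2]
      have h5 : ω u (Z v) = ω v (Z u) := by
        have h6 := (hM hZ).2 u v
        have h7 := G.skew (Z u) v
        linear_combination h6 - h7
      rw [h5]
      module
    have h5 := star G M hM hbr hZ hu hv
    have h6 := hbr _ hT _ h5
    have h7 : SS ω u v * (SS ω (Z u) v + SS ω u (Z v)) - (SS ω (Z u) v + SS ω u (Z v)) * SS ω u v =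
        (2 * ω v (Z u)) • SS ω u v := by
      have h8 := SS_bracket hT.2 G.skew (Z u) v
      have h9 := SS_bracket hT.2 G.skew u (Z v)
      rw [e3, e2, SS_zero_right, add_zero, SS_smul_left] at h8
      rw [e1, e4, SS_zero_left, zero_add, SS_smul_right] at h9
      rw [mul_add, add_mul]
      have h10 : SS ω u v * SS ω (Z u) v + SS ω u v * SS ω u (Z v) -
          (SS ω (Z u) v * SS ω u v + SS ω u (Z v) * SS ω u v) =
          (SS ω u v * SS ω (Z u) v - SS ω (Z u) v * SS ω u v) +
          (SS ω u v * SS ω u (Z v) - SS ω u (Z v) * SS ω u v) := by abel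
      rw [h10, h8, h9]
      module
    rw [h7] at h6
    have h8 := M.smul_mem (2 * ω v (Z u))⁻¹ h6
    rwa [smul_smul, inv_mul_cancel₀ (mul_ne_zero two_ne_zero hvZ), one_smul] at h8
  -- general position
  let E := LinearMap.range (P i)
  have hEm : ∀ x : E, P i (x : Y) = x := by
    rintro ⟨_, y, rfl⟩
    exact G.idem _ _
  let S : Fin 4 → Submodule K E := ![LinearMap.ker ((ω v).comp E.subtype),
    LinearMap.ker ((ω b).comp E.subtype), Submodule.span K {(⟨u, ⟨u, hu⟩⟩ : E)},
    Submodule.span K {(⟨a, ⟨a, ha⟩⟩ : E)}]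
  have hspan : ∀ x : E, Submodule.span K {x} ≠ ⊤ := by
    intro x hx
    have h3 : finrank K (Submodule.span K {x}) ≤ 1 :=
      (finrank_span_le_card ({x} : Set E)).trans (by simp)
    rw [hx, finrank_top] at h3
    change finrank K (LinearMap.range (P i)) ≤ 1 at h3
    omega
  have hker : ∀ w : Y, P (st i) w = w → w ≠ 0 → LinearMap.ker ((ω w).comp E.subtype) ≠ ⊤ := by
    intro w hw hw0 h
    obtain ⟨t, ht, ht0⟩ := G.exists_pair hw hw0
    rw [G.invol] at ht
    have h3 : (⟨t, ⟨t, ht⟩⟩ : E) ∈ LinearMap.ker ((ω w).comp E.subtype) := by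
      rw [h]
      trivial
    exact ht0 h3
  obtain ⟨a', ha'⟩ := exists_avoid S (by
    intro k
    fin_cases k
    · exact hker v hv hv0
    · exact hker b hb hb0
    · exact hspan _
    · exact hspan _)
  have g1 : ω v (a' : Y) ≠ 0 := ha' 0
  have g2 : ω b (a' : Y) ≠ 0 := ha' 1
  have g3 : ∀ c : K, u ≠ c • (a' : Y) := by
    intro c hc
    have hc0 : c ≠ 0 := by
      rintro rfl
      exact hu0 (by rw [hc, zero_smul])
    apply ha' 2
    refine Submodule.mem_span_singleton.2 ⟨c⁻¹, Subtype.ext ?_⟩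
    change c⁻¹ • u = (a' : Y)
    rw [hc, smul_smul, inv_mul_cancel₀ hc0, one_smul]
  have g4 : ∀ c : K, a ≠ c • (a' : Y) := by
    intro c hc
    have hc0 : c ≠ 0 := by
      rintro rfl
      exact ha0 (by rw [hc, zero_smul])
    apply ha' 3
    refine Submodule.mem_span_singleton.2 ⟨c⁻¹, Subtype.ext ?_⟩
    change c⁻¹ • a = (a' : Y)
    rw [hc, smul_smul, inv_mul_cancel₀ hc0, one_smul]
  obtain ⟨w1, hw1, hw1a, hw1u⟩ := hnotspan u a' hu (hEm a') g3
  obtain ⟨w2, hw2, hw2a, hw2a'⟩ := hnotspan a a' ha (hEm a') g4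
  -- a combination of the two
  obtain ⟨b', hb', g5, g6, g7⟩ : ∃ b', P (st i) b' = b' ∧ ω b' (a' : Y) = 0 ∧ ω b' u ≠ 0 ∧
      ω b' a ≠ 0 := by
    by_cases h3 : ω w1 a = 0
    · by_cases h4 : ω w2 u = 0
      · refine ⟨w1 + w2, by rw [map_add, hw1, hw2], ?_, ?_, ?_⟩
        · rw [map_add, LinearMap.add_apply, hw1a, hw2a, add_zero]
        · rw [map_add, LinearMap.add_apply, h4, add_zero]
          exact hw1u
        · rw [map_add, LinearMap.add_apply, h3, zero_add]
          exact hw2a'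
      · exact ⟨w2, hw2, hw2a, h4, hw2a'⟩
    · exact ⟨w1, hw1, hw1a, hw1u, h3⟩
  have h3 := pair_step G M hM hbr hi hu hv (hEm a') hb' huv g5 g6 g1
  exact pair_step G M hM hbr hi (hEm a') hb' ha hb h3 hba g2 g7

/-- Stable subspaces which are large on each block are everything. -/
theorem ideal_top [FiniteDimensional K Y]
    (h0 : ∀ i, 2 ≤ finrank K (LinearMap.range (P i)) →
      ∃ Z ∈ M, ∀ c : K, ∃ u, P i u = u ∧ Z u ≠ c • u)
    (htr : ∀ c : I → K, (∀ i, c (st i) = -c i) → (∃ i, c i ≠ 0 ∧ P i ≠ 0) →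
      ∃ Z ∈ M, ∑ i, c i * LinearMap.trace K Y (Z * P i) ≠ 0) : SkBl P ω ≤ M := by
  classical
  by_contra hcon
  obtain ⟨Z0, hZ0, hZ0M⟩ := SetLike.not_le_iff_exists.1 hcon
  -- a functional
  obtain ⟨Λ, hΛ0, hΛM⟩ : ∃ Λ : Module.Dual K (Module.End K Y), Λ Z0 ≠ 0 ∧ ∀ Z ∈ M, Λ Z = 0 := by
    obtain ⟨Λ, h1, h2⟩ := Submodule.exists_dual_map_eq_bot_of_notMem hZ0M inferInstance
    refine ⟨Λ, h1, fun Z hZ => ?_⟩
    have h3 : Λ Z ∈ M.map Λ := ⟨Z, hZ, rfl⟩
    rw [h2] at h3
    exact (Submodule.mem_bot K).1 h3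
  obtain ⟨n, e, lab, e', he1, he2, he3, he4⟩ := G.exists_basis
  -- the values on the elementary operators
  have hself : ∀ i, st i = i → ∀ a b, P i a = a → P (st i) b = b → Λ (SS ω a b) = 0 := by
    intro i hi a b ha hb
    rw [hi] at hb
    apply hΛM
    by_cases ha0 : a = 0
    · rw [ha0, SS_zero_left]
      exact M.zero_mem
    -- the block is not zero, hence has dimension at least two
    have hdim : 2 ≤ finrank K (LinearMap.range (P i)) := by
      by_contra hlt
      obtain ⟨w, hw⟩ := finrank_le_one_iff.1 (show finrank K (LinearMap.range (P i)) ≤ 1 by omega)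
      obtain ⟨v, hv, hv0⟩ := G.exists_pair ha ha0
      rw [hi] at hv
      obtain ⟨c1, hc1⟩ := hw ⟨a, ⟨a, ha⟩⟩
      obtain ⟨c2, hc2⟩ := hw ⟨v, ⟨v, hv⟩⟩
      have h5 : c1 • (w : Y) = a := congrArg Subtype.val hc1
      have h6 : c2 • (w : Y) = v := congrArg Subtype.val hc2
      apply hv0
      rw [← h5, ← h6, map_smul, map_smul, LinearMap.smul_apply, G.alt, smul_zero, smul_zero]
    obtain ⟨Z, hZ, hZc⟩ := h0 i hdim
    obtain ⟨u, hu, hu0⟩ := hZc 0
    rw [zero_smul] at hu0
    exact self_block G M hM hbr hi hZ ⟨u, hu, hu0⟩ ha hb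
  have hpair : ∀ i, ∃ c : K, (P i = 0 → c = 0) ∧
      ∀ a b, P i a = a → P (st i) b = b → Λ (SS ω a b) = c * ω b a := by
    intro i
    by_cases hi : st i = i
    · exact ⟨0, fun _ => rfl, fun a b ha hb => by rw [hself i hi a b ha hb, zero_mul]⟩
    have hz : ∀ a b, P i a = a → P (st i) b = b → ω b a = 0 → Λ (SS ω a b) = 0 :=
      fun a b ha hb hba => hΛM _ (pair_block G M hM hbr hi (h0 i) ha hb hba)
    by_cases hP : P i = 0
    · refine ⟨0, fun _ => rfl, fun a b ha hb => ?_⟩
      rw [← ha, hP, LinearMap.zero_apply, SS_zero_left, map_zero, zero_mul]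
    obtain ⟨a0, ha0, ha00⟩ : ∃ a0, P i a0 = a0 ∧ a0 ≠ 0 := by
      by_contra hcon
      push Not at hcon
      apply hP
      ext y
      exact hcon _ (G.idem i y)
    obtain ⟨b0, hb0, hb00⟩ := G.exists_pair ha0 ha00
    have hba0 : ω b0 a0 ≠ 0 := by rw [G.skew]; exact neg_ne_zero.2 hb00
    refine ⟨Λ (SS ω a0 b0) / ω b0 a0, fun h => absurd h hP, fun a b ha hb => ?_⟩
    -- reduction to one vector
    have key : ∀ a a' b b', P i a = a → P i a' = a' → P (st i) b = b → P (st i) b' = b' →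
        ω b a ≠ 0 → ω b a' ≠ 0 → ω b' a' ≠ 0 →
        Λ (SS ω a b) / ω b a = Λ (SS ω a' b') / ω b' a' := by
      intro a a' b b' ha ha' hb hb' h1 h2 h3
      have h4 := hz (a - (ω b a / ω b a') • a') b (by rw [map_sub, map_smul, ha, ha']) hb (by
        rw [map_sub, map_smul, smul_eq_mul, div_mul_cancel₀ _ h2, sub_self])
      have h5 := hz a' (b - (ω b a' / ω b' a') • b') ha' (by rw [map_sub, map_smul, hb, hb']) (by
        rw [map_sub, map_smul, LinearMap.sub_apply, LinearMap.smul_apply, smul_eq_mul,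
          div_mul_cancel₀ _ h3, sub_self])
      rw [sub_eq_add_neg, SS_add_left, ← neg_smul, SS_smul_left, map_add, map_smul, smul_eq_mul] at h4
      rw [sub_eq_add_neg, SS_add_right, ← neg_smul, SS_smul_right, map_add, map_smul, smul_eq_mul] at h5
      have h6 : Λ (SS ω a b) = ω b a / ω b a' * Λ (SS ω a' b) := by linear_combination h4
      have h7 : Λ (SS ω a' b) = ω b a' / ω b' a' * Λ (SS ω a' b') := by linear_combination h5
      rw [h6, h7]
      field_simp
    by_cases hba : ω b a = 0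
    · rw [hz a b ha hb hba, hba, mul_zero]
    · have h1 : Λ (SS ω a b) / ω b a = Λ (SS ω a0 b0) / ω b0 a0 := by
        by_cases g1 : ω b a0 = 0
        · by_cases g2 : ω b0 a = 0
          · have g3 : ω b (a + a0) ≠ 0 := by rw [map_add, g1, add_zero]; exact hba
            have g4 : ω b0 (a + a0) ≠ 0 := by rw [map_add, g2, zero_add]; exact hba0
            have g5 : P i (a + a0) = a + a0 := by rw [map_add, ha, ha0]
            rw [key a (a + a0) b b ha g5 hb hb hba g3 g3, key a0 (a + a0) b0 b ha0 g5 hb0 hb hba0 g4 g3]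
          · exact (key a0 a b0 b ha0 ha hb0 hb hba0 g2 hba).symm
        · exact key a a0 b b0 ha ha0 hb hb0 hba g1 hba0
      rw [← h1, div_mul_cancel₀ _ hba]
  choose c hc0 hc using hpair
  -- the signs
  have hP0 : ∀ i, P i = 0 → P (st i) = 0 := by
    intro i hi
    ext u
    refine G.nondeg _ fun v => ?_
    rw [G.pair, G.invol, hi, LinearMap.zero_apply, map_zero]
  have hcs : ∀ i, c (st i) = -c i := by
    intro i
    by_cases hP : P i = 0
    · rw [hc0 i hP, hc0 (st i) (hP0 i hP), neg_zero]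
    obtain ⟨a0, ha0, ha00⟩ : ∃ a0, P i a0 = a0 ∧ a0 ≠ 0 := by
      by_contra hcon
      push Not at hcon
      apply hP
      ext y
      exact hcon _ (G.idem i y)
    obtain ⟨b0, hb0, hb00⟩ := G.exists_pair ha0 ha00
    have h1 := hc i a0 b0 ha0 hb0
    have h2 := hc (st i) b0 a0 hb0 (by rw [G.invol]; exact ha0)
    rw [SS_comm, h1, G.skew b0 a0] at h2
    have h3 : (c (st i) + c i) * ω a0 b0 = 0 := by linear_combination -h2
    exact eq_neg_of_add_eq_zero_left ((mul_eq_zero.1 h3).resolve_right hb00)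
  -- the trace formula
  have htrace : ∀ Z ∈ SkBl P ω, 2 * Λ Z = ∑ i, c i * LinearMap.trace K Y (Z * P i) := by
    intro Z hZ
    have h1 := congrArg Λ (two_smul_eq e e' G.skew he3 he4 hZ.2)
    rw [map_smul, smul_eq_mul, map_sum] at h1
    rw [h1]
    have h2 : ∀ i, LinearMap.trace K Y (Z * P i) =
        ∑ x, if lab x = i then e.repr (Z (e x)) x else 0 := by
      intro i
      rw [LinearMap.trace_eq_matrix_trace K e, Matrix.trace]
      refine Finset.sum_congr rfl fun x _ => ?_
      rw [Matrix.diag_apply, LinearMap.toMatrix_apply, Module.End.mul_apply, G.apply_of_mem (he1 x)]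
      by_cases h : i = lab x
      · rw [if_pos h, if_pos h.symm]
      · rw [if_neg h, if_neg (fun h' => h h'.symm), map_zero, map_zero, Finsupp.zero_apply]
    simp only [h2, Finset.mul_sum]
    rw [Finset.sum_comm]
    refine Finset.sum_congr rfl fun x _ => ?_
    rw [Finset.sum_eq_single (lab x), if_pos rfl, he3,
      hc (lab x) _ _ (mem_block G M hM hbr hZ (he1 x)) (he2 x)]
    · intro i _ hi
      rw [if_neg (fun h => hi h.symm), mul_zero]
    · intro h
      exact absurd (Finset.mem_univ _) h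
  obtain ⟨Z, hZ, hZ0'⟩ := htr c hcs (by
    by_contra hcon
    push Not at hcon
    apply hΛ0
    have h1 := htrace Z0 hZ0
    have h2 : ∑ i, c i * LinearMap.trace K Y (Z0 * P i) = 0 := by
      refine Finset.sum_eq_zero fun i _ => ?_
      by_cases h : c i = 0
      · rw [h, zero_mul]
      · rw [hcon i h, mul_zero, map_zero, mul_zero]
    rw [h2] at h1
    exact (mul_eq_zero.1 h1).resolve_left two_ne_zero)
  apply hZ0'
  rw [← htrace Z (hM hZ), hΛM Z hZ, mul_zero]

end

end Pool.Agent.X300.KT
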