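import Mathlib
import Pool.Agent.H204R3.GP.Classes

/-!
# The trace form on the Lie algebra of a set of forms is nondegenerate
-/

set_option linter.unusedSectionVars false

namespace Pool.Agent.X300.KT

open Module Pool.Agent.H204R3.SP Pool.Agent.H204R3.GP

noncomputable section

variable {K : Type*} [Field K] {X : Type*} [AddCommGroup X] [Module K X]

/-- The weights of an operator that kills a form add up to zero. -/
theorem weight_zero {κ : Type*} [Fintype κ] [DecidableEq κ]
    (φ : MultilinearMap K (fun _ : κ => X) K) {e n s : Module.End K X} (hes : e = n + s)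
    (hns : ∀ x, n (s x) = s (n x)) (hk : Kills e φ) (N : ℕ) :
    ∀ (v : κ → X) (c : κ → K) (m : κ → ℕ), (∀ k, s (v k) = c k • v k) →
      (∀ k, (n ^ m k) (v k) = 0) → ∑ k, m k = N → ∑ k, c k ≠ 0 → φ v = 0 := by
  induction N using Nat.strong_induction_on with
  | _ N ih =>
    intro v c m hs hn hN hc
    have h1 := hk v
    have h2 : ∀ k, φ (Function.update v k (e (v k))) = c k * φ v := by
      intro k
      rw [hes, LinearMap.add_apply, MultilinearMap.map_update_add, hs,
        MultilinearMap.map_update_smul, Function.update_eq_self, smul_eq_mul]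
      suffices h : φ (Function.update v k (n (v k))) = 0 by rw [h, zero_add]
      by_cases hm : m k = 0
      · have h3 := hn k
        rw [hm, pow_zero, Module.End.one_apply] at h3
        rw [h3, map_zero]
        exact φ.map_coord_zero k (Function.update_self _ _ _)
      · have hlt : N - 1 < N := by
          have h4 : m k ≤ N := by
            rw [← hN]
            exact Finset.single_le_sum (f := m) (fun _ _ => Nat.zero_le _) (Finset.mem_univ k)
          omega
        refine ih (N - 1) hlt (Function.update v k (n (v k))) c (Function.update m k (m k - 1))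
          (fun l => ?_) (fun l => ?_) ?_ hc
        · by_cases hl : l = k
          · subst hl
            rw [Function.update_self, ← hns, hs, map_smul]
          · rw [Function.update_of_ne hl]
            exact hs l
        · by_cases hl : l = k
          · subst hl
            rw [Function.update_self, Function.update_self]
            have h3 := hn l
            obtain ⟨q, hq⟩ := Nat.exists_eq_succ_of_ne_zero hm
            rw [hq, pow_succ] at h3
            rw [hq]
            exact h3
          · rw [Function.update_of_ne hl, Function.update_of_ne hl]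
            exact hn l
        · rw [← hN, ← Finset.add_sum_erase _ _ (Finset.mem_univ k),
            ← Finset.add_sum_erase _ m (Finset.mem_univ k), Function.update_self]
          have h5 : ∑ x ∈ Finset.univ.erase k, Function.update m k (m k - 1) x =
              ∑ x ∈ Finset.univ.erase k, m x :=
            Finset.sum_congr rfl fun x hx => Function.update_of_ne (Finset.ne_of_mem_erase hx) _ _
          rw [h5]
          omega
    rw [Finset.sum_congr rfl fun k _ => h2 k, ← Finset.sum_mul] at h1
    exact (mul_eq_zero.1 h1).resolve_left hc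

/-- The replicas of an operator that kills a form kill it. -/
theorem kills_replica {κ : Type*} [Fintype κ] [DecidableEq κ]
    (φ : MultilinearMap K (fun _ : κ => X) K) {e n s : Module.End K X} (hes : e = n + s)
    (hns : ∀ x, n (s x) = s (n x)) (hn : IsNilpotent n) (hk : Kills e φ) {I : Type*} [Finite I]
    (b : Basis I K X) (μ : I → K) (hs : ∀ i, s (b i) = μ i • b i) (g : K →+ K)
    {D : Module.End K X} (hD : ∀ i, D (b i) = g (μ i) • b i) : Kills D φ := by
  obtain ⟨q, hq⟩ := hn
  let ψ : MultilinearMap K (fun _ : κ => X) K :=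
    ∑ k, φ.compLinearMap (fun l => if l = k then D else LinearMap.id)
  have hψ : ∀ v, ψ v = ∑ k, φ (Function.update v k (D (v k))) := by
    intro v
    change (∑ k, φ.compLinearMap (fun l => if l = k then D else LinearMap.id)) v = _
    rw [MultilinearMap.sum_apply]
    refine Finset.sum_congr rfl fun k _ => ?_
    rw [MultilinearMap.compLinearMap_apply]
    congr 1
    funext l
    by_cases hl : l = k
    · subst hl
      rw [if_pos rfl, Function.update_self]
    · rw [if_neg hl, Function.update_of_ne hl]
      rfl
  have h0 : ψ = 0 := by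
    refine Basis.ext_multilinear (fun _ => b) fun J => ?_
    rw [hψ, MultilinearMap.zero_apply]
    have h1 : ∀ k, φ (Function.update (fun l => b (J l)) k (D (b (J k)))) =
        g (μ (J k)) * φ (fun l => b (J l)) := by
      intro k
      rw [hD, MultilinearMap.map_update_smul, Function.update_eq_self, smul_eq_mul]
    rw [Finset.sum_congr rfl fun k _ => h1 k, ← Finset.sum_mul, ← map_sum]
    by_cases hc : ∑ k, μ (J k) = 0
    · rw [hc, map_zero, zero_mul]
    · rw [weight_zero φ hes hns hk _ (fun l => b (J l)) (fun l => μ (J l)) (fun _ => q)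
        (fun k => hs _) (fun k => by rw [hq]; rfl) rfl hc, mul_zero]
  intro v
  rw [← hψ, h0, MultilinearMap.zero_apply]

theorem kills_bil2 {e : Module.End K X} {B : X →ₗ[K] X →ₗ[K] K} :
    Kills e (bil2 B) ↔ ∀ u v, B (e u) v + B u (e v) = 0 := by
  have h1 : ∀ v : Fin 2 → X, ∑ k, bil2 B (Function.update v k (e (v k))) =
      B (e (v 0)) (v 1) + B (v 0) (e (v 1)) := by
    intro v
    rw [Fin.sum_univ_two, bil2_apply, bil2_apply, Function.update_self, Function.update_self,
      Function.update_of_ne (by decide), Function.update_of_ne (by decide)]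
  constructor
  · intro h u v
    have h2 := h ![u, v]
    rw [h1] at h2
    exact h2
  · intro h v
    rw [h1]
    exact h _ _

/-- The Lie algebra of a set of bilinear forms and a set of multilinear forms. -/
def LL {κ : Type*} [Fintype κ] [DecidableEq κ] (𝓑 : Set (X →ₗ[K] X →ₗ[K] K))
    (S : Set (MultilinearMap K (fun _ : κ => X) K)) : Submodule K (Module.End K X) where
  carrier := {e | (∀ B ∈ 𝓑, ∀ u v, B (e u) v + B u (e v) = 0) ∧ ∀ φ ∈ S, Kills e φ}
  zero_mem' := ⟨fun B _ u v => by simp, fun φ _ v => by
    refine Finset.sum_eq_zero fun k _ => ?_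
    rw [LinearMap.zero_apply]
    exact φ.map_coord_zero k (Function.update_self _ _ _)⟩
  add_mem' := fun {x y} hx hy => ⟨fun B hB u v => by
    rw [LinearMap.add_apply, LinearMap.add_apply, map_add, map_add, LinearMap.add_apply]
    linear_combination hx.1 B hB u v + hy.1 B hB u v, fun φ hφ v => by
    have h1 := hx.2 φ hφ v
    have h2 := hy.2 φ hφ v
    have h3 := congrArg₂ (fun x y : K => x + y) h1 h2
    simp only [add_zero] at h3
    rw [← h3, ← Finset.sum_add_distrib]
    refine Finset.sum_congr rfl fun k _ => ?_
    rw [LinearMap.add_apply, MultilinearMap.map_update_add]⟩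
  smul_mem' := fun c x hx => ⟨fun B hB u v => by
    rw [LinearMap.smul_apply, LinearMap.smul_apply, map_smul, map_smul, LinearMap.smul_apply,
      smul_eq_mul, smul_eq_mul]
    linear_combination c * hx.1 B hB u v, fun φ hφ v => by
    have h1 := hx.2 φ hφ v
    rw [← mul_zero c, ← h1, Finset.mul_sum]
    refine Finset.sum_congr rfl fun k _ => ?_
    rw [LinearMap.smul_apply, MultilinearMap.map_update_smul, smul_eq_mul]⟩

theorem LL_bracket {κ : Type*} [Fintype κ] [DecidableEq κ] {𝓑 : Set (X →ₗ[K] X →ₗ[K] K)}
    {S : Set (MultilinearMap K (fun _ : κ => X) K)} {x y : Module.End K X} (hx : x ∈ LL 𝓑 S)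
    (hy : y ∈ LL 𝓑 S) : x * y - y * x ∈ LL 𝓑 S :=
  ⟨fun B hB u v => by
    have h1 := kills_bracket (kills_bil2.2 (hx.1 B hB)) (kills_bil2.2 (hy.1 B hB))
    exact kills_bil2.1 h1 u v, fun φ hφ => kills_bracket (hx.2 φ hφ) (hy.2 φ hφ)⟩

theorem LL_replica {κ : Type*} [Fintype κ] [DecidableEq κ] {𝓑 : Set (X →ₗ[K] X →ₗ[K] K)}
    {S : Set (MultilinearMap K (fun _ : κ => X) K)} {e n s : Module.End K X} (hes : e = n + s)
    (hns : ∀ x, n (s x) = s (n x)) (hn : IsNilpotent n) (he : e ∈ LL 𝓑 S) {I : Type*} [Finite I]
    (b : Basis I K X) (μ : I → K) (hs : ∀ i, s (b i) = μ i • b i) (g : K →+ K)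
    {D : Module.End K X} (hD : ∀ i, D (b i) = g (μ i) • b i) : D ∈ LL 𝓑 S :=
  ⟨fun B hB u v => kills_bil2.1
    (kills_replica _ hes hns hn (kills_bil2.2 (he.1 B hB)) b μ hs g hD) u v,
    fun φ hφ => kills_replica _ hes hns hn (he.2 φ hφ) b μ hs g hD⟩

/-- An element of a Lie algebra of forms which is orthogonal to it is nilpotent. -/
theorem nilpotent_of_orth [CharZero K] [IsAlgClosed K] [FiniteDimensional K X] {κ : Type*}
    [Fintype κ] [DecidableEq κ] {𝓑 : Set (X →ₗ[K] X →ₗ[K] K)}
    {S : Set (MultilinearMap K (fun _ : κ => X) K)} {e : Module.End K X} (he : e ∈ LL 𝓑 S)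
    (horth : ∀ e' ∈ LL 𝓑 S, LinearMap.trace K X (e * e') = 0) : IsNilpotent e := by
  classical
  obtain ⟨n, hn_adj, s, hns, hn, hss, hes⟩ := e.exists_isNilpotent_isSemisimple
  have hcomm : Commute n s :=
    (Algebra.commute_of_mem_adjoin_singleton_of_commute hns
      (Algebra.commute_of_mem_adjoin_self hn_adj).symm)
  have hns' : ∀ x, n (s x) = s (n x) := fun x => congrArg (fun f : Module.End K X => f x) hcomm.eq
  have hint := DirectSum.isInternal_submodule_of_iSupIndep_of_iSup_eq_top
    s.eigenspaces_iSupIndep hss.iSup_eigenspace_eq_top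
  let I := (ν : K) × Fin (finrank K (s.eigenspace ν))
  let v : Basis I K X := hint.collectedBasis fun μ ↦ finBasis K (s.eigenspace μ)
  have _ : Fintype I := FiniteDimensional.fintypeBasisIndex v
  let μ : I → K := Sigma.fst
  have hsv (i : I) : s (v i) = μ i • v i :=
    Module.End.mem_eigenspace_iff.mp (hint.collectedBasis_mem _ i)
  suffices hs0 : s = 0 by rw [hes, hs0, add_zero]; exact hn
  suffices hμ : ∀ i, μ i = 0 by
    refine v.ext fun i => ?_
    rw [hsv, hμ, zero_smul, LinearMap.zero_apply]
  suffices hall : ∀ (f : Dual ℚ K) (i : I), f (μ i) = 0 by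
    intro i
    exact (Module.forall_dual_apply_eq_zero_iff ℚ _).1 fun f => hall f i
  intro f
  let g : K →+ K := (algebraMap ℚ K : ℚ →+* K).toAddMonoidHom.comp f.toAddMonoidHom
  have hg : ∀ x, g x = algebraMap ℚ K (f x) := fun x => rfl
  let D : Module.End K X := v.constr K (fun i => g (μ i) • v i)
  have hD : ∀ i, D (v i) = g (μ i) • v i := fun i => v.constr_basis K _ i
  have hDL := LL_replica hes hns' hn he v μ hsv g hD
  have h1 := horth D hDL
  -- the trace
  have hnD : Commute n D := by
    refine v.ext fun i => ?_
    rw [Module.End.mul_apply, Module.End.mul_apply, hD, map_smul]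
    have h2 : ∀ x, s x = μ i • x → D x = g (μ i) • x := by
      intro x hx
      have h3 : ∀ j, v.repr x j * (μ j - μ i) = 0 := by
        intro j
        have h4 := congrArg (fun y => v.repr y j) hx
        simp only [map_smul, Finsupp.smul_apply, smul_eq_mul] at h4
        have h5 : v.repr (s x) j = v.repr x j * μ j := by
          conv_lhs => rw [← v.sum_repr x, map_sum, map_sum]
          rw [Finsupp.finset_sum_apply, Finset.sum_eq_single j]
          · rw [map_smul, hsv, map_smul, map_smul, Basis.repr_self, Finsupp.smul_apply,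
              Finsupp.smul_apply, Finsupp.single_eq_same, smul_eq_mul, smul_eq_mul, mul_one]
          · intro l _ hl
            rw [map_smul, hsv, map_smul, map_smul, Basis.repr_self, Finsupp.smul_apply,
              Finsupp.smul_apply, Finsupp.single_eq_of_ne (fun h => hl h.symm), smul_zero, smul_zero]
          · intro h
            exact absurd (Finset.mem_univ _) h
        rw [h5] at h4
        linear_combination h4
      conv_lhs => rw [← v.sum_repr x, map_sum]
      conv_rhs => rw [← v.sum_repr x, Finset.smul_sum]
      refine Finset.sum_congr rfl fun j _ => ?_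
      rw [map_smul, hD]
      rcases mul_eq_zero.1 (h3 j) with h6 | h6
      · rw [h6, zero_smul, zero_smul, smul_zero]
      · rw [sub_eq_zero.1 h6, smul_comm]
    symm
    exact h2 _ (by rw [← hns', hsv, map_smul])
  have htn : LinearMap.trace K X (n * D) = 0 :=
    (LinearMap.isNilpotent_trace_of_isNilpotent (hnD.isNilpotent_mul_right hn)).eq_zero
  have hts : LinearMap.trace K X (s * D) = ∑ i, μ i * g (μ i) := by
    rw [LinearMap.trace_eq_matrix_trace K v, Matrix.trace]
    refine Finset.sum_congr rfl fun i _ => ?_
    rw [Matrix.diag_apply, LinearMap.toMatrix_apply, Module.End.mul_apply, hD, map_smul, hsv,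
      map_smul, map_smul, Basis.repr_self, Finsupp.smul_apply, Finsupp.smul_apply,
      Finsupp.single_eq_same, smul_eq_mul, smul_eq_mul, mul_one, mul_comm]
  rw [hes, add_mul, map_add, htn, hts, zero_add] at h1
  have h2 : ∑ i, f (μ i) * f (μ i) = 0 := by
    have h3 := congrArg f h1
    rw [map_sum, map_zero] at h3
    rw [← h3]
    refine Finset.sum_congr rfl fun i _ => ?_
    rw [hg, mul_comm (μ i), ← Algebra.smul_def, map_smul, smul_eq_mul]
  intro i
  have h3 := (Finset.sum_eq_zero_iff_of_nonneg (fun i _ => mul_self_nonneg (f (μ i)))).1 h2 i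
    (Finset.mem_univ _)
  exact mul_self_eq_zero.1 h3

end

end Pool.Agent.X300.KT
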