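import Mathlib
import Pool.Agent.X300.KT.Rep

/-!
# The trace form on the Lie algebra of a set of forms is nondegenerate: Engel's theorem
-/

set_option linter.unusedSectionVars false

namespace Pool.Agent.X300.KT

open Module Pool.Agent.H204R3.SP Pool.Agent.H204R3.GP

noncomputable section

attribute [local instance 100] LieRing.ofAssociativeRing

variable {K : Type*} [Field K] {X : Type*} [AddCommGroup X] [Module K X]
  {Γ : Type*} [Group Γ]

/-- A stable Lie algebra of nilpotent operators on a semisimple representation is zero. -/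
theorem engel_zero [FiniteDimensional K X] (R : Representation K Γ X) (hss : HasProj R)
    (𝔯 : Submodule K (Module.End K X))
    (hbr : ∀ x ∈ 𝔯, ∀ y ∈ 𝔯, x * y - y * x ∈ 𝔯) (hnil : ∀ x ∈ 𝔯, IsNilpotent x)
    (Δ : Subgroup Γ) (hΔ : Δ.FiniteIndex) (hconj : ∀ g ∈ Δ, ∀ x ∈ 𝔯, R g * x * R g⁻¹ ∈ 𝔯)
    (hcomm : ∀ Δ' : Subgroup Γ, Δ'.FiniteIndex → ∀ P : Module.End K X,
      (∀ g ∈ Δ', ∀ v, P (R g v) = R g (P v)) → ∀ x ∈ 𝔯, ∀ v, x (P v) = P (x v)) :
    ∀ x ∈ 𝔯, x = 0 := by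
  let 𝔏 : LieSubalgebra K (Module.End K X) :=
    { 𝔯 with lie_mem' := fun {x y} hx hy => hbr x hx y hy }
  have hnil' : LieModule.IsNilpotent 𝔏 X :=
    (LieModule.isNilpotent_iff_forall' (R := K)).2 fun x => hnil x.1 x.2
  obtain ⟨q, hq⟩ := (LieModule.isNilpotent_iff K 𝔏 X).1 hnil'
  let X1 : Submodule K X := Submodule.span K {y | ∃ x ∈ 𝔯, ∃ v, y = x v}
  have hX1 : ∀ x ∈ 𝔯, ∀ v, x v ∈ X1 := fun x hx v => Submodule.subset_span ⟨x, hx, v, rfl⟩
  obtain ⟨P, hP1, hP2, hP3⟩ := hss Δ hΔ X1 (by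
    intro g hg u hu
    induction hu using Submodule.span_induction with
    | mem u hu =>
      obtain ⟨x, hx, v, rfl⟩ := hu
      refine Submodule.subset_span ⟨R g * x * R g⁻¹, hconj g hg x hx, R g v, ?_⟩
      rw [Module.End.mul_apply, Module.End.mul_apply, rho_inv]
    | zero => rw [map_zero]; exact Submodule.zero_mem _
    | add a b _ _ ha hb => rw [map_add]; exact Submodule.add_mem _ ha hb
    | smul c a _ ha => rw [map_smul]; exact Submodule.smul_mem _ _ ha)
  have key : ∀ k, ∀ y ∈ X1, y ∈ LieModule.lowerCentralSeries K 𝔏 X k := by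
    intro k
    induction k with
    | zero =>
      intro y _
      rw [LieModule.lowerCentralSeries_zero]
      exact LieSubmodule.mem_top _
    | succ k ih =>
      intro y hy
      induction hy using Submodule.span_induction with
      | mem y hy =>
        obtain ⟨x, hx, v, rfl⟩ := hy
        have h1 : x v = x (P v) := by rw [hcomm Δ hΔ P hP3 x hx, hP2 _ (hX1 x hx v)]
        rw [h1, LieModule.lowerCentralSeries_succ]
        exact LieSubmodule.lie_mem_lie (LieSubmodule.mem_top (⟨x, hx⟩ : 𝔏)) (ih _ (hP1 v))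
      | zero => exact Submodule.zero_mem _
      | add a b _ _ ha hb => exact Submodule.add_mem _ ha hb
      | smul c a _ ha => exact Submodule.smul_mem _ _ ha
  intro x hx
  ext v
  have h1 := key q _ (hX1 x hx v)
  rw [hq] at h1
  exact (LieSubmodule.mem_bot _).1 h1

/-- The trace form is nondegenerate. -/
theorem LL_nondeg [CharZero K] [IsAlgClosed K] [FiniteDimensional K X]
    (R : Representation K Γ X) (hss : HasProj R) {κ : Type*} [Fintype κ] [DecidableEq κ]
    {𝓑 : Set (X →ₗ[K] X →ₗ[K] K)} {S : Set (MultilinearMap K (fun _ : κ => X) K)}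
    (Δ : Subgroup Γ) (hΔ : Δ.FiniteIndex)
    (hconj : ∀ g ∈ Δ, ∀ x ∈ LL 𝓑 S, R g * x * R g⁻¹ ∈ LL 𝓑 S)
    (hcomm : ∀ Δ' : Subgroup Γ, Δ'.FiniteIndex → ∀ P : Module.End K X,
      (∀ g ∈ Δ', ∀ v, P (R g v) = R g (P v)) → ∀ x ∈ LL 𝓑 S, ∀ v, x (P v) = P (x v))
    {e : Module.End K X} (he : e ∈ LL 𝓑 S)
    (horth : ∀ e' ∈ LL 𝓑 S, LinearMap.trace K X (e * e') = 0) : e = 0 := by
  let 𝔯 : Submodule K (Module.End K X) :=
    { carrier := {e | e ∈ LL 𝓑 S ∧ ∀ e' ∈ LL 𝓑 S, LinearMap.trace K X (e * e') = 0}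
      add_mem' := fun {x y} hx hy => ⟨(LL 𝓑 S).add_mem hx.1 hy.1, fun e' he' => by
        rw [add_mul, map_add, hx.2 e' he', hy.2 e' he', add_zero]⟩
      zero_mem' := ⟨(LL 𝓑 S).zero_mem, fun e' _ => by rw [zero_mul, map_zero]⟩
      smul_mem' := fun c x hx => ⟨(LL 𝓑 S).smul_mem c hx.1, fun e' he' => by
        rw [smul_mul_assoc, map_smul, hx.2 e' he', smul_zero]⟩ }
  have htr : ∀ a b c : Module.End K X, LinearMap.trace K X ((a * b - b * a) * c) =
      LinearMap.trace K X (a * (b * c - c * b)) := by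
    intro a b c
    rw [sub_mul, mul_sub, map_sub, map_sub, mul_assoc, mul_assoc, LinearMap.trace_mul_comm K b,
      mul_assoc]
  refine engel_zero R hss 𝔯 (fun x hx y hy => ⟨LL_bracket hx.1 hy.1, fun e' he' => ?_⟩)
    (fun x hx => nilpotent_of_orth hx.1 hx.2) Δ hΔ (fun g hg x hx => ⟨hconj g hg x hx.1,
      fun e' he' => ?_⟩) (fun Δ' hΔ' P hP x hx => hcomm Δ' hΔ' P hP x hx.1) e ⟨he, horth⟩
  · rw [htr]
    exact hx.2 _ (LL_bracket hy.1 he')
  · have h1 := hx.2 _ (hconj g⁻¹ (Δ.inv_mem hg) e' he')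
    rw [inv_inv] at h1
    rw [← h1, mul_assoc, mul_assoc, LinearMap.trace_mul_comm K (R g)]
    simp only [mul_assoc]

end

end Pool.Agent.X300.KT
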