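import Mathlib
import Pool.Agent.X300.KT.Nondeg
import Pool.Agent.H204R3.GP.TateG
import Pool.Agent.W522.U.C1

/-!
# Stable Lie subalgebras are ideals if the Tate forms in four variables are products
-/

set_option linter.unusedSectionVars false

namespace Pool.Agent.X300.KT

open Module Pool.Agent.H204R3.SP Pool.Agent.H204R3.GP Pool.Agent.H204R3.CM Pool.Agent.W522.U

noncomputable section

variable {K : Type*} [Field K] [CharZero K] {X : Type*} [AddCommGroup X] [Module K X]
  {Γ : Type*} [Group Γ]

/-- The equivariant projector. -/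
theorem exists_projector [FiniteDimensional K X] (L : Submodule K (Module.End K X))
    (hnd : ∀ e ∈ L, (∀ e' ∈ L, LinearMap.trace K X (e * e') = 0) → e = 0)
    (R : Representation K Γ X) (Δ : Subgroup Γ) (hconj : ∀ g ∈ Δ, ∀ x ∈ L, R g * x * R g⁻¹ ∈ L) :
    ∃ π : Module.End K X →ₗ[K] Module.End K X, (∀ x, π x ∈ L) ∧ (∀ x ∈ L, π x = x) ∧
      ∀ g ∈ Δ, ∀ x, π (R g * x * R g⁻¹) = R g * π x * R g⁻¹ := by
  let B : LinearMap.BilinForm K (Module.End K X) :=
    LinearMap.mk₂ K (fun x y => LinearMap.trace K X (x * y))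
      (fun x x' y => by rw [add_mul, map_add]) (fun c x y => by rw [smul_mul_assoc, map_smul])
      (fun x y y' => by rw [mul_add, map_add]) (fun c x y => by rw [mul_smul_comm, map_smul])
  have hB : ∀ x y, B x y = LinearMap.trace K X (x * y) := fun x y => rfl
  have hsymm : ∀ x y, B x y = B y x := fun x y => LinearMap.trace_mul_comm K x y
  have hrefl : B.IsRefl := fun x y h => by rw [hsymm]; exact h
  have hres : (B.restrict L).Nondegenerate := by
    constructor
    · intro x hx
      exact Subtype.ext (hnd x.1 x.2 fun e' he' => hx ⟨e', he'⟩)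
    · intro x hx
      refine Subtype.ext (hnd x.1 x.2 fun e' he' => ?_)
      rw [LinearMap.trace_mul_comm]
      exact hx ⟨e', he'⟩
  have hc := LinearMap.BilinForm.isCompl_orthogonal_of_restrict_nondegenerate hrefl hres
  refine ⟨L.projection (B.orthogonal L) hc, fun x => ?_, fun x hx => ?_, fun g hg x => ?_⟩
  · rw [Submodule.projection_apply]
    exact SetLike.coe_mem _
  · exact Submodule.projection_apply_of_mem_left hc hx
  · have h1 : x ∈ L ⊔ B.orthogonal L := by
      rw [hc.sup_eq_top]
      trivial
    obtain ⟨a, ha, b, hb, rfl⟩ := Submodule.mem_sup.1 h1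
    have h2 : R g * b * R g⁻¹ ∈ B.orthogonal L := by
      intro n hn
      change LinearMap.trace K X (n * (R g * b * R g⁻¹)) = 0
      have h3 := hb _ (hconj g⁻¹ (Δ.inv_mem hg) n hn)
      change LinearMap.trace K X ((R g⁻¹ * n * R g⁻¹⁻¹) * b) = 0 at h3
      rw [inv_inv] at h3
      rw [← h3, mul_assoc (R g⁻¹), mul_assoc (R g⁻¹), LinearMap.trace_mul_comm K (R g⁻¹)]
      simp only [mul_assoc]
    rw [mul_add, add_mul, map_add, map_add, Submodule.projection_apply_of_mem_left hc (hconj g hg a ha),
      Submodule.projection_apply_of_mem_right hc h2,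
      Submodule.projection_apply_of_mem_left hc ha,
      Submodule.projection_apply_of_mem_right hc hb, add_zero, add_zero]

/-- An operator which is skew for the factors kills the product. -/
theorem kills_mmG {m : ℕ} {e : Module.End K X} (σ : Equiv.Perm (Fin m × Fin 2))
    (B : Fin m → (X →ₗ[K] X →ₗ[K] K)) (hB : ∀ l u v, B l (e u) v + B l u (e v) = 0) :
    Kills e (mmG σ B) := by
  classical
  intro v
  rw [← Equiv.sum_comp σ, Fintype.sum_prod_type]
  refine Finset.sum_eq_zero fun s _ => ?_
  have h1 : ∀ (ε : Fin 2), mmG σ B (Function.update v (σ (s, ε)) (e (v (σ (s, ε))))) =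
      B s (Function.update v (σ (s, ε)) (e (v (σ (s, ε)))) (σ (s, 0)))
        (Function.update v (σ (s, ε)) (e (v (σ (s, ε)))) (σ (s, 1))) *
        ∏ t ∈ Finset.univ.erase s, B t (v (σ (t, 0))) (v (σ (t, 1))) := by
    intro ε
    rw [mmG_apply, ← Finset.mul_prod_erase _ _ (Finset.mem_univ s)]
    congr 1
    refine Finset.prod_congr rfl fun t ht => ?_
    have hts := Finset.ne_of_mem_erase ht
    have h2 : ∀ δ : Fin 2, Function.update v (σ (s, ε)) (e (v (σ (s, ε)))) (σ (t, δ)) =
        v (σ (t, δ)) := by
      intro δ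
      refine Function.update_of_ne (fun h => hts ?_) _ _
      exact congrArg Prod.fst (σ.injective h)
    rw [h2, h2]
  rw [Fin.sum_univ_two, h1, h1, ← add_mul]
  have h01 : σ (s, 1) ≠ σ (s, 0) := fun h => by
    have h2 := congrArg Prod.snd (σ.injective h)
    exact absurd (show (1 : Fin 2) = 0 from h2) (by decide)
  rw [Function.update_self, Function.update_self, Function.update_of_ne h01,
    Function.update_of_ne h01.symm, hB, zero_mul]

/-- The operators which are skew for all Tate forms of degree two. -/
def T2 (R : Representation K Γ X) (χ : Γ →* K) : Set (X →ₗ[K] X →ₗ[K] K) := {B | IsTate2 R χ B}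

theorem kills_span {κ : Type*} [Fintype κ] [DecidableEq κ] {e : Module.End K X}
    {S : Set (MultilinearMap K (fun _ : κ => X) K)} (hS : ∀ φ ∈ S, Kills e φ)
    {φ : MultilinearMap K (fun _ : κ => X) K} (hφ : φ ∈ Submodule.span K S) : Kills e φ := by
  induction hφ using Submodule.span_induction with
  | mem φ hφ => exact hS φ hφ
  | zero =>
    intro v
    exact Finset.sum_eq_zero fun k _ => rfl
  | add a b _ _ ha hb =>
    intro v
    have h1 := congrArg₂ (fun x y : K => x + y) (ha v) (hb v)
    simp only [add_zero] at h1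
    rw [← h1, ← Finset.sum_add_distrib]
    rfl
  | smul c a _ ha =>
    intro v
    rw [← mul_zero c, ← ha v, Finset.mul_sum]
    rfl

/-- The operators of rank one. -/
def outer (ω : X →ₗ[K] X →ₗ[K] K) : X →ₗ[K] X →ₗ[K] Module.End K X :=
  LinearMap.mk₂ K (fun a b => (ω a).smulRight b)
    (fun a a' b => by ext x; simp [add_smul]) (fun c a b => by ext x; simp [mul_smul])
    (fun a b b' => by ext x; simp) (fun c a b => by
      ext x
      rw [LinearMap.smul_apply, LinearMap.smulRight_apply, LinearMap.smulRight_apply, smul_comm])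

theorem outer_apply (ω : X →ₗ[K] X →ₗ[K] K) (a b x : X) : outer ω a b x = ω a x • b := rfl

/-- The form in four variables. -/
def Phi (ω : X →ₗ[K] X →ₗ[K] K) (π : Module.End K X →ₗ[K] Module.End K X) :
    MultilinearMap K (fun _ : Fin 2 × Fin 2 => X) K where
  toFun v := ω (π (outer ω (v (0, 0)) (v (0, 1))) (v (1, 0))) (v (1, 1))
  map_update_add' := by
    intro inst v i x y
    obtain ⟨i, j⟩ := i
    have hd : inst = instDecidableEqProd := Subsingleton.elim _ _
    subst hd
    fin_cases i <;> fin_cases j <;> simp [map_add, LinearMap.add_apply]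
  map_update_smul' := by
    intro inst v i c x
    obtain ⟨i, j⟩ := i
    have hd : inst = instDecidableEqProd := Subsingleton.elim _ _
    subst hd
    fin_cases i <;> fin_cases j <;> simp [map_smul, LinearMap.smul_apply]

theorem Phi_apply (ω : X →ₗ[K] X →ₗ[K] K) (π : Module.End K X →ₗ[K] Module.End K X)
    (v : Fin 2 × Fin 2 → X) :
    Phi ω π v = ω (π (outer ω (v (0, 0)) (v (0, 1))) (v (1, 0))) (v (1, 1)) := rfl

theorem outer_conj (R : Representation K Γ X) (χ : Γ →* K) (ω : X →ₗ[K] X →ₗ[K] K)
    (hωR : ∀ g u v, ω (R g u) (R g v) = χ g * ω u v) (g : Γ) (a b : X) :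
    outer ω (R g a) (R g b) = χ g • (R g * outer ω a b * R g⁻¹) := by
  ext x
  rw [LinearMap.smul_apply, Module.End.mul_apply, Module.End.mul_apply, outer_apply, outer_apply,
    map_smul, smul_smul, ← hωR, Rinv']

theorem Phi_tate (R : Representation K Γ X) (χ : Γ →* K) (ω : X →ₗ[K] X →ₗ[K] K)
    (hωR : ∀ g u v, ω (R g u) (R g v) = χ g * ω u v) (Δ : Subgroup Γ) (hΔ : Δ.FiniteIndex)
    (π : Module.End K X →ₗ[K] Module.End K X)
    (hπ : ∀ g ∈ Δ, ∀ x, π (R g * x * R g⁻¹) = R g * π x * R g⁻¹) : IsTate R χ 2 (Phi ω π) := by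
  refine ⟨Δ, hΔ, fun g hg v => ?_⟩
  rw [Phi_apply, Phi_apply, outer_conj R χ ω hωR, map_smul, hπ g hg, LinearMap.smul_apply,
    Module.End.mul_apply, Module.End.mul_apply, Rinv, map_smul, LinearMap.smul_apply, hωR,
    smul_eq_mul]
  ring

/-- Operators of rank one span everything. -/
theorem ext_outer [FiniteDimensional K X] (ω : X →ₗ[K] X →ₗ[K] K)
    (hnd : ∀ u, (∀ v, ω u v = 0) → u = 0) {M : Type*} [AddCommGroup M] [Module K M]
    {f f' : Module.End K X →ₗ[K] M} (h : ∀ a b, f (outer ω a b) = f' (outer ω a b)) : f = f' := by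
  classical
  let b := Module.finBasis K X
  have hinj : Function.Injective ω := by
    rw [injective_iff_map_eq_zero]
    intro u hu
    exact hnd u fun v => by rw [hu, LinearMap.zero_apply]
  have hsurj : Function.Surjective ω := by
    refine (LinearMap.injective_iff_surjective_of_finrank_eq_finrank ?_).1 hinj
    rw [Subspace.dual_finrank_eq]
  choose d hd using fun i => hsurj (b.coord i)
  refine LinearMap.ext fun y => ?_
  have hy : y = ∑ i, outer ω (d i) (y (b i)) := by
    refine b.ext fun j => ?_
    rw [LinearMap.sum_apply, Finset.sum_eq_single j]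
    · rw [outer_apply, hd, Basis.coord_apply, Basis.repr_self, Finsupp.single_eq_same, one_smul]
    · intro i _ hi
      rw [outer_apply, hd, Basis.coord_apply, Basis.repr_self,
        Finsupp.single_eq_of_ne (by first | exact hi | exact hi.symm), zero_smul]
    · intro h
      exact absurd (Finset.mem_univ _) h
  rw [hy, map_sum, map_sum]
  exact Finset.sum_congr rfl fun i _ => h _ _

/-- **Stable subalgebras are ideals**: if the Tate forms in four variables are combinations of
products of Tate forms of degree two, a nondegenerate subspace of the Lie algebra `𝔠` of the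
operators which are skew for all Tate forms of degree two, which is stable under a subgroup of finite
index, is stable under the commutators with the elements of `𝔠`. -/
theorem ideal_of_four [FiniteDimensional K X] (R : Representation K Γ X) (χ : Γ →* K)
    (ω : X →ₗ[K] X →ₗ[K] K) (hnd : ∀ u, (∀ v, ω u v = 0) → u = 0)
    (hωR : ∀ g u v, ω (R g u) (R g v) = χ g * ω u v)
    (h4 : ∀ φ : MultilinearMap K (fun _ : Fin 2 × Fin 2 => X) K, IsTate R χ 2 φ →
      φ ∈ Submodule.span K (PT R χ 2))
    (L : Submodule K (Module.End K X))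
    (hL : ∀ e ∈ L, (∀ e' ∈ L, LinearMap.trace K X (e * e') = 0) → e = 0)
    (Δ : Subgroup Γ) (hΔ : Δ.FiniteIndex) (hconj : ∀ g ∈ Δ, ∀ x ∈ L, R g * x * R g⁻¹ ∈ L)
    {e : Module.End K X} (he : ∀ B, IsTate2 R χ B → ∀ u v, B (e u) v + B u (e v) = 0)
    {y : Module.End K X} (hy : y ∈ L) : e * y - y * e ∈ L := by
  obtain ⟨π, hπ1, hπ2, hπ3⟩ := exists_projector L hL R Δ hconj
  have h1 := h4 _ (Phi_tate R χ ω hωR Δ hΔ π hπ3)
  have h2 : Kills e (Phi ω π) := by
    refine kills_span (S := PT R χ 2) ?_ h1
    rintro _ ⟨σ, B, hB, rfl⟩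
    exact kills_mmG σ B fun l => he _ (hB l)
  have hω2 : IsTate2 R χ ω := ⟨⊤, inferInstance, fun g _ => hωR g⟩
  have heω := he ω hω2
  have h3 : ∀ a b, outer ω (e a) b + outer ω a (e b) = e * outer ω a b - outer ω a b * e := by
    intro a b
    ext x
    rw [LinearMap.add_apply, LinearMap.sub_apply, Module.End.mul_apply, Module.End.mul_apply,
      outer_apply, outer_apply, outer_apply, outer_apply, map_smul]
    have h4 : ω (e a) x = -ω a (e x) := by linear_combination heω a x
    rw [h4]
    module
  let brl : Module.End K X →ₗ[K] Module.End K X := LinearMap.mulLeft K e - LinearMap.mulRight K e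
  have hbrl : ∀ x, brl x = e * x - x * e := fun x => rfl
  have h5 : π.comp brl = brl.comp π := by
    refine ext_outer ω hnd fun a b => ?_
    rw [LinearMap.comp_apply, LinearMap.comp_apply, hbrl, hbrl]
    ext c
    rw [← sub_eq_zero]
    refine hnd _ fun d => ?_
    have h6 := h2 (fun i => if i = (0, 0) then a else if i = (0, 1) then b else
      if i = (1, 0) then c else d)
    rw [Fintype.sum_prod_type, Fin.sum_univ_two, Fin.sum_univ_two, Fin.sum_univ_two] at h6
    simp only [Phi_apply] at h6
    have h7 : ω (π (outer ω (e a) b) c) d + ω (π (outer ω a (e b)) c) d +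
        (ω (π (outer ω a b) (e c)) d + ω (π (outer ω a b) c) (e d)) = 0 := by
      simpa using h6
    rw [← h3, map_add, LinearMap.sub_apply, LinearMap.add_apply, Module.End.mul_apply,
      Module.End.mul_apply, map_sub, LinearMap.sub_apply, map_add, LinearMap.add_apply, map_sub,
      LinearMap.sub_apply]
    have h8 := heω (π (outer ω a b) c) d
    linear_combination h7 - h8
  have h6 := congrArg (fun f : Module.End K X →ₗ[K] Module.End K X => f y) h5
  simp only [LinearMap.comp_apply] at h6
  rw [hπ2 y hy, hbrl] at h6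
  rw [← h6]
  exact hπ1 _

end

end Pool.Agent.X300.KT
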