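import Mathlib
import Pool.Agent.X300.KT.Ideal
import Pool.Agent.X300.KT.Proj

/-!
# From the sum of the representatives to the whole space
-/

set_option linter.unusedSectionVars false

namespace Pool.Agent.X300.KT

open Module Pool.Agent.H204R3.SP Pool.Agent.H204R3.GP Pool.Agent.W522.U

noncomputable section

variable {K : Type*} [Field K] [CharZero K] {X Y : Type*} [AddCommGroup X] [Module K X]
  [AddCommGroup Y] [Module K Y] {I Λ : Type*} [Fintype I] [DecidableEq I] [Fintype Λ]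

/-- The space `X` is built from copies of the blocks of the graded space `Y`. -/
structure Model (P : I → Module.End K Y) (ω : Y →ₗ[K] Y →ₗ[K] K)
    (𝓑 : Set (X →ₗ[K] X →ₗ[K] K)) (f : Λ → K) (J : Λ → Y →ₗ[K] X) (Q : Λ → X →ₗ[K] Y)
    (lab : Λ → I) (inc : I → Y →ₗ[K] X) : Prop where
  dec : ∀ x, ∑ l, f l • J l (Q l x) = x
  schur : ∀ l k, ∃ c : K, ∀ y, Q l (J k y) = c • P (lab l) y
  form : ∀ B ∈ 𝓑, ∀ l k, ∃ c : K, ∀ y y', B (J l y) (J k y') = c * ω (P (lab l) y) (P (lab k) y')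
  tate : ∀ i l k, ω.compl₁₂ ((P i).comp (Q l)) (Q k) ∈ 𝓑
  lift : ∀ e : Module.End K X, (∀ B ∈ 𝓑, ∀ u v, B (e u) v + B u (e v) = 0) → ∃ Z ∈ SkBl P ω,
    (∀ l y, e (J l y) = J l (Z y)) ∧ ∀ i y, e (inc i y) = inc i (Z y)

/-- The operator on `X` attached to a block diagonal operator on `Y`. -/
def hat (f : Λ → K) (J : Λ → Y →ₗ[K] X) (Q : Λ → X →ₗ[K] Y) :
    Module.End K Y →ₗ[K] Module.End K X where
  toFun Z := ∑ l, f l • (J l).comp (Z.comp (Q l))
  map_add' Z Z' := by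
    rw [← Finset.sum_add_distrib]
    refine Finset.sum_congr rfl fun l _ => ?_
    rw [LinearMap.add_comp, LinearMap.comp_add, smul_add]
  map_smul' c Z := by
    rw [RingHom.id_apply, Finset.smul_sum]
    refine Finset.sum_congr rfl fun l _ => ?_
    rw [LinearMap.smul_comp, LinearMap.comp_smul, smul_comm]

variable {P : I → Module.End K Y} {st : I → I} {ω : Y →ₗ[K] Y →ₗ[K] K}
  {𝓑 : Set (X →ₗ[K] X →ₗ[K] K)} {f : Λ → K} {J : Λ → Y →ₗ[K] X} {Q : Λ → X →ₗ[K] Y}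
  {lab : Λ → I} {inc : I → Y →ₗ[K] X}

theorem hat_apply (Z : Module.End K Y) (x : X) : hat f J Q Z x = ∑ l, f l • J l (Z (Q l x)) := by
  change (∑ l, f l • (J l).comp (Z.comp (Q l))) x = _
  rw [LinearMap.sum_apply]
  rfl

theorem hat_J (M : Model P ω 𝓑 f J Q lab inc) {Z : Module.End K Y} (hZ : Z ∈ SkBl P ω) (k : Λ)
    (y : Y) : hat f J Q Z (J k y) = J k (Z y) := by
  rw [hat_apply]
  conv_rhs => rw [← M.dec (J k (Z y))]
  refine Finset.sum_congr rfl fun l _ => ?_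
  obtain ⟨c, hc⟩ := M.schur l k
  rw [hc, hc, map_smul, hZ.1]

theorem bil_sum (B : X →ₗ[K] X →ₗ[K] K) (f : Λ → K) (a b : Λ → X) :
    B (∑ l, f l • a l) (∑ k, f k • b k) = ∑ l, ∑ k, f l * (f k * B (a l) (b k)) := by
  have h1 : B (∑ l, f l • a l) = ∑ l, f l • B (a l) := by
    rw [map_sum]
    exact Finset.sum_congr rfl fun l _ => map_smul _ _ _
  rw [h1, LinearMap.sum_apply]
  refine Finset.sum_congr rfl fun l _ => ?_
  rw [LinearMap.smul_apply, map_sum, smul_eq_mul, Finset.mul_sum]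
  refine Finset.sum_congr rfl fun k _ => ?_
  rw [map_smul, smul_eq_mul]

theorem hat_skew (M : Model P ω 𝓑 f J Q lab inc) {Z : Module.End K Y} (hZ : Z ∈ SkBl P ω)
    {B : X →ₗ[K] X →ₗ[K] K} (hB : B ∈ 𝓑) (u v : X) :
    B (hat f J Q Z u) v + B u (hat f J Q Z v) = 0 := by
  have h1 : B (hat f J Q Z u) v = ∑ l, ∑ k, f l * (f k * B (J l (Z (Q l u))) (J k (Q k v))) := by
    conv_lhs => rw [← M.dec v, hat_apply]
    exact bil_sum B f _ _
  have h2 : B u (hat f J Q Z v) = ∑ l, ∑ k, f l * (f k * B (J l (Q l u)) (J k (Z (Q k v)))) := by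
    conv_lhs => rw [← M.dec u, hat_apply]
    exact bil_sum B f _ _
  rw [h1, h2, ← Finset.sum_add_distrib]
  refine Finset.sum_eq_zero fun l _ => ?_
  rw [← Finset.sum_add_distrib]
  refine Finset.sum_eq_zero fun k _ => ?_
  obtain ⟨c, hc⟩ := M.form B hB l k
  rw [hc, hc, ← hZ.1, ← hZ.1]
  linear_combination f l * f k * c * hZ.2 (P (lab l) (Q l u)) (P (lab k) (Q k v))

theorem hat_surj (M : Model P ω 𝓑 f J Q lab inc) {e : Module.End K X}
    (he : ∀ B ∈ 𝓑, ∀ u v, B (e u) v + B u (e v) = 0) : ∃ Z ∈ SkBl P ω, e = hat f J Q Z ∧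
      ∀ i y, e (inc i y) = inc i (Z y) := by
  obtain ⟨Z, hZ, h1, h2⟩ := M.lift e he
  refine ⟨Z, hZ, ?_, h2⟩
  ext x
  rw [hat_apply]
  conv_lhs => rw [← M.dec x, map_sum]
  refine Finset.sum_congr rfl fun l _ => ?_
  rw [map_smul, h1]

theorem hat_mul (M : Model P ω 𝓑 f J Q lab inc) {Z Z' : Module.End K Y} (hZ : Z ∈ SkBl P ω) :
    hat f J Q (Z * Z') = hat f J Q Z * hat f J Q Z' := by
  ext x
  rw [Module.End.mul_apply, hat_apply, hat_apply (J := J) Z' x, map_sum]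
  refine Finset.sum_congr rfl fun l _ => ?_
  rw [map_smul, hat_J M hZ]
  rfl

/-- The products of forms in `𝓑` over a matching. -/
def ProdT (𝓑 : Set (X →ₗ[K] X →ₗ[K] K)) (κ : Type) (m : ℕ) :
    Set (MultilinearMap K (fun _ : κ => X) K) :=
  {ψ | ∃ (e : Fin m × Fin 2 ≃ κ) (B : Fin m → (X →ₗ[K] X →ₗ[K] K)), (∀ s, B s ∈ 𝓑) ∧
    ∀ v, ψ v = ∏ s, B s (v (e (s, 0))) (v (e (s, 1)))}

/-- The first fundamental theorem for `X`. -/
theorem fft_X [FiniteDimensional K Y] (G : Graded P st ω) (M : Model P ω 𝓑 f J Q lab inc)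
    {κ : Type} [Fintype κ] [DecidableEq κ] (φ : MultilinearMap K (fun _ : κ => X) K)
    (hφ : ∀ Z ∈ SkBl P ω, Kills (hat f J Q Z) φ) :
    (∀ m, Fintype.card κ = 2 * m → φ ∈ Submodule.span K (ProdT 𝓑 κ m)) ∧
    (Odd (Fintype.card κ) → φ = 0) := by
  classical
  have hexp : ∀ v, φ v = ∑ L : κ → Λ, (∏ k, f (L k)) •
      φ (fun k => J (L k) (Q (L k) (v k))) := by
    intro v
    have h1 : v = fun k => ∑ l, f l • J l (Q l (v k)) := funext fun k => (M.dec (v k)).symm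
    conv_lhs => rw [h1]
    rw [MultilinearMap.map_sum]
    refine Finset.sum_congr rfl fun L _ => ?_
    rw [MultilinearMap.map_smul_univ]
  let φL : (κ → Λ) → MultilinearMap K (fun _ : κ => Y) K := fun L =>
    φ.compLinearMap (fun k => J (L k))
  have hφL : ∀ L, ∀ Z ∈ SkBl P ω, Kills Z (φL L) := by
    intro L Z hZ y
    rw [← hφ Z hZ (fun k => J (L k) (y k))]
    refine Finset.sum_congr rfl fun k _ => ?_
    change φ (fun l => J (L l) (Function.update y k (Z (y k)) l)) = _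
    congr 1
    funext l
    by_cases hl : l = k
    · subst hl
      rw [Function.update_self, Function.update_self, hat_J M hZ]
    · rw [Function.update_of_ne hl, Function.update_of_ne hl]
  have hfft := fun L => fft_graded G (φL L) (hφL L)
  have hexp' : φ = ∑ L : κ → Λ, (∏ k, f (L k)) • (φL L).compLinearMap (fun k => Q (L k)) := by
    ext v
    rw [sum_apply, hexp]
    rfl
  constructor
  · intro m hm
    rw [hexp']
    refine Submodule.sum_mem _ fun L _ => Submodule.smul_mem _ _ ?_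
    have h1 := (hfft L).1 m hm
    have h2 : (Submodule.span K (Prods P ω κ m)).map
        (MultilinearMap.compLinearMapₗ (fun k => Q (L k))) ≤
        Submodule.span K (ProdT 𝓑 κ m) := by
      rw [Submodule.map_span, Submodule.span_le]
      rintro _ ⟨ψ, ⟨e, c, hψ⟩, rfl⟩
      refine Submodule.subset_span ⟨e, fun s => ω.compl₁₂ ((P (c s)).comp (Q (L (e (s, 0)))))
        (Q (L (e (s, 1)))), fun s => M.tate _ _ _, fun v => ?_⟩
      change ψ (fun k => Q (L k) (v k)) = _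
      rw [hψ]
      rfl
    exact h2 (Submodule.mem_map_of_mem h1)
  · intro hodd
    rw [hexp']
    refine Finset.sum_eq_zero fun L _ => ?_
    rw [(hfft L).2 hodd]
    ext v
    simp

/-- **The theorem for a model.** -/
theorem model_main [FiniteDimensional K Y] (G : Graded P st ω) (M : Model P ω 𝓑 f J Q lab inc)
    {κ : Type} [Fintype κ] [DecidableEq κ] (S : Set (MultilinearMap K (fun _ : κ => X) K))
    (hideal : ∀ e : Module.End K X, (∀ B ∈ 𝓑, ∀ u v, B (e u) v + B u (e v) = 0) → ∀ y ∈ LL 𝓑 S,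
      e * y - y * e ∈ LL 𝓑 S)
    (h0 : ∀ i, 2 ≤ finrank K (LinearMap.range (P i)) →
      ∃ x ∈ LL 𝓑 S, ∀ c : K, ∃ y, P i y = y ∧ x (inc i y) ≠ c • inc i y)
    (htr : ∀ c : I → K, (∀ i, c (st i) = -c i) → (∃ i, c i ≠ 0 ∧ P i ≠ 0) →
      ∃ x ∈ LL 𝓑 S, ∀ Z ∈ SkBl P ω, (∀ i y, x (inc i y) = inc i (Z y)) →
        ∑ i, c i * LinearMap.trace K Y (Z * P i) ≠ 0)
    {φ : MultilinearMap K (fun _ : κ => X) K} (hφ : φ ∈ S) :
    (∀ m, Fintype.card κ = 2 * m → φ ∈ Submodule.span K (ProdT 𝓑 κ m)) ∧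
    (Odd (Fintype.card κ) → φ = 0) := by
  classical
  refine fft_X G M φ fun Z hZ => ?_
  let 𝔐 : Submodule K (Module.End K Y) := SkBl P ω ⊓ (LL 𝓑 S).comap (hat f J Q)
  have h1 : SkBl P ω ≤ 𝔐 := by
    refine ideal_top G 𝔐 inf_le_left (fun Z hZ A hA => ⟨?_, ?_⟩) (fun i hi => ?_)
      (fun c hc hc0 => ?_)
    · refine ⟨fun i u => ?_, fun u v => ?_⟩
      · rw [LinearMap.sub_apply, LinearMap.sub_apply, Module.End.mul_apply, Module.End.mul_apply,
          Module.End.mul_apply, Module.End.mul_apply, hA.1.1, hZ.1, hZ.1, hA.1.1, map_sub]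
      · rw [LinearMap.sub_apply, LinearMap.sub_apply, Module.End.mul_apply, Module.End.mul_apply,
          Module.End.mul_apply, Module.End.mul_apply, map_sub, map_sub, LinearMap.sub_apply]
        linear_combination hZ.2 (A u) v - hA.1.2 (Z u) v + hZ.2 u (A v) - hA.1.2 u (Z v)
    · change hat f J Q (Z * A - A * Z) ∈ LL 𝓑 S
      rw [map_sub, hat_mul M hZ, hat_mul M hA.1]
      exact hideal _ (fun B hB => hat_skew M hZ hB) _ hA.2
    · obtain ⟨x, hx, hxc⟩ := h0 i hi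
      obtain ⟨Z, hZ, hxZ, hinc⟩ := hat_surj M hx.1
      refine ⟨Z, ⟨hZ, ?_⟩, fun c => ?_⟩
      · change hat f J Q Z ∈ LL 𝓑 S
        rw [← hxZ]
        exact hx
      · obtain ⟨y, hy, hyc⟩ := hxc c
        refine ⟨y, hy, fun h => hyc ?_⟩
        rw [hinc, h, map_smul]
    · obtain ⟨x, hx, hxc⟩ := htr c hc hc0
      obtain ⟨Z, hZ, hxZ, hinc⟩ := hat_surj M hx.1
      refine ⟨Z, ⟨hZ, ?_⟩, hxc Z hZ hinc⟩
      change hat f J Q Z ∈ LL 𝓑 S
      rw [← hxZ]
      exact hx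
  exact (h1 hZ).2.2 φ hφ

end

end Pool.Agent.X300.KT
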