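import Mathlib
import Pool.Agent.W522.U.C7
import Pool.Agent.X300.KT.Model

/-!
# Schur's lemma for strongly irreducible subspaces
-/

set_option linter.unusedSectionVars false

namespace Pool.Agent.X300.KT

open Module Pool.Agent.H204R3.SP Pool.Agent.H204R3.GP Pool.Agent.W522.U

noncomputable section

variable {K : Type*} [Field K] [CharZero K] [IsAlgClosed K] {X : Type*} [AddCommGroup X]
  [Module K X] [FiniteDimensional K X] {Γ : Type*} [Group Γ] {R : Representation K Γ X}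
  {χ : Γ →* K} {U U' : Submodule K X}

/-- Schur's lemma. -/
theorem schur_end (hU : SI R U) {Δ : Subgroup Γ} (hΔ : Δ.FiniteIndex) (T : Module.End K X)
    (hTU : ∀ u ∈ U, T u ∈ U) (hT : ∀ g ∈ Δ, ∀ u ∈ U, T (R g u) = R g (T u)) :
    ∃ c : K, ∀ u ∈ U, T u = c • u := by
  obtain ⟨Δ', hΔ', h1⟩ := hU.2.1
  have hnt : Nontrivial U := Submodule.nontrivial_iff_ne_bot.2 hU.1
  obtain ⟨c, hc⟩ := Module.End.exists_eigenvalue (T.restrict hTU)
  obtain ⟨⟨v, hv⟩, hv1, hv0⟩ := hc.exists_hasEigenvector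
  have hv2 : T v = c • v := congrArg Subtype.val (Module.End.mem_eigenspace_iff.1 hv1)
  have h2 : Pot R (U ⊓ LinearMap.ker (T - c • (1 : Module.End K X))) := by
    refine ⟨Δ ⊓ Δ', inferInstance, fun g hg u hu => ⟨h1 g hg.2 u hu.1, ?_⟩⟩
    have h3 : T u = c • u := by
      have h4 := LinearMap.mem_ker.1 hu.2
      rw [LinearMap.sub_apply, LinearMap.smul_apply, Module.End.one_apply, sub_eq_zero] at h4
      exact h4
    change (T - c • (1 : Module.End K X)) (R g u) = 0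
    rw [LinearMap.sub_apply, LinearMap.smul_apply, Module.End.one_apply, hT g hg.1 u hu.1, h3,
      map_smul, sub_self]
  refine ⟨c, fun u hu => ?_⟩
  rcases hU.2.2 _ inf_le_left h2 with h3 | h3
  · exfalso
    apply hv0
    have h4 : v ∈ U ⊓ LinearMap.ker (T - c • (1 : Module.End K X)) := by
      refine ⟨hv, ?_⟩
      change (T - c • (1 : Module.End K X)) v = 0
      rw [LinearMap.sub_apply, LinearMap.smul_apply, Module.End.one_apply, hv2, sub_self]
    rw [h3, Submodule.mem_bot] at h4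
    exact Subtype.ext h4
  · rw [← h3] at hu
    have h4 := LinearMap.mem_ker.1 hu.2
    rwa [LinearMap.sub_apply, LinearMap.smul_apply, Module.End.one_apply, sub_eq_zero] at h4

/-- Pairings of strongly irreducible subspaces are unique up to scalars. -/
theorem pair_unique (hU : SI R U) (hU' : SI R U') {Δ : Subgroup Γ} (hΔ : Δ.FiniteIndex)
    (B : X →ₗ[K] X →ₗ[K] K) (h0 : ∃ u ∈ U, ∃ v ∈ U', B u v ≠ 0)
    (hB : ∀ g ∈ Δ, ∀ u ∈ U, ∀ v ∈ U', B (R g u) (R g v) = χ g * B u v)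
    {Δ' : Subgroup Γ} (hΔ' : Δ'.FiniteIndex) (B' : X →ₗ[K] X →ₗ[K] K)
    (hB' : ∀ g ∈ Δ', ∀ u ∈ U, ∀ v ∈ U', B' (R g u) (R g v) = χ g * B' u v) :
    ∃ c : K, ∀ u ∈ U, ∀ v ∈ U', B' u v = c * B u v := by
  obtain ⟨Δ1, hΔ1, h1⟩ := hU.2.1
  obtain ⟨Δ2, hΔ2, h2⟩ := hU'.2.1
  let e := LinearEquiv.ofBijective _ (du_bij hU hU' hΔ B h0 hB).2
  obtain ⟨p, hp⟩ := exists_pr U
  let T : Module.End K X := U.subtype.comp (e.symm.toLinearMap.comp
    ((B'.compl₁₂ U.subtype U'.subtype).comp p))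
  have hTU : ∀ u, T u ∈ U := fun u => SetLike.coe_mem _
  have hTB : ∀ u ∈ U, ∀ v ∈ U', B (T u) v = B' u v := by
    intro u hu v hv
    have h4 : e (e.symm ((B'.compl₁₂ U.subtype U'.subtype) (p u))) =
        (B'.compl₁₂ U.subtype U'.subtype) (p u) := e.apply_symm_apply _
    have h5 := congrArg (fun f : Dual K U' => f ⟨v, hv⟩) h4
    have h6 : p u = ⟨u, hu⟩ := hp ⟨u, hu⟩
    rw [h6] at h5
    have h7 : T u = ((e.symm ((B'.compl₁₂ U.subtype U'.subtype) ⟨u, hu⟩) : U) : X) := by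
      change ((e.symm ((B'.compl₁₂ U.subtype U'.subtype) (p u)) : U) : X) = _
      rw [h6]
    rw [h7]
    exact h5
  have hl := du_left hU hU'.2.1 hΔ h0 hB
  obtain ⟨c, hc⟩ := schur_end hU (Δ := (Δ ⊓ Δ') ⊓ (Δ1 ⊓ Δ2)) inferInstance T (fun u _ => hTU u)
    (fun g hg u hu => by
      rw [← sub_eq_zero]
      refine hl _ (U.sub_mem (hTU _) (h1 g hg.2.1 _ (hTU _))) fun v hv => ?_
      have hgv := h2 _ (Δ2.inv_mem hg.2.2) v hv
      have h5 := hB g hg.1.1 (T u) (hTU u) _ hgv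
      have h6 := hB' g hg.1.2 u hu _ hgv
      rw [Rinv'] at h5 h6
      rw [map_sub, LinearMap.sub_apply, hTB _ (h1 g hg.2.1 u hu) v hv, h6, h5, hTB u hu _ hgv,
        sub_self])
  refine ⟨c, fun u hu v hv => ?_⟩
  rw [← hTB u hu v hv, hc u hu, map_smul, LinearMap.smul_apply, smul_eq_mul]

end

end Pool.Agent.X300.KT
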