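import Mathlib
import Pool.Agent.W522.U.C7
import Pool.Agent.X300.KT.Schur

/-!
# The model attached to the representatives
-/

set_option linter.unusedSectionVars false

namespace Pool.Agent.X300.KT

open Module Pool.Agent.H204R3.SP Pool.Agent.H204R3.GP Pool.Agent.W522.U

noncomputable section

section graded

variable {K : Type*} [Field K] [CharZero K] {X : Type*} [AddCommGroup X] [Module K X]
  {s : ℕ} (W : Fin s → Submodule K X) (st : Fin s → Fin s)
  (B : Fin s → (X →ₗ[K] X →ₗ[K] K))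

/-- The projections of the sum of the representatives. -/
def PW (i : Fin s) : Module.End K (∀ i, W i) :=
  (LinearMap.single K (fun i => W i) i).comp (LinearMap.proj i)

theorem PW_apply (i : Fin s) (y : ∀ i, W i) : PW W i y = Pi.single i (y i) := rfl

theorem PW_same (i : Fin s) (y : ∀ i, W i) : PW W i y i = y i := by
  rw [PW_apply, Pi.single_eq_same]

theorem PW_ne {i j : Fin s} (h : j ≠ i) (y : ∀ i, W i) : PW W i y j = 0 := by
  rw [PW_apply, Pi.single_eq_of_ne h]

theorem cf_ne {i j : Fin s} (h : j ≠ st i) : cf st B i j = 0 := by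
  unfold cf
  rw [if_neg h]

theorem graded_W (hst : ∀ i, st (st i) = i)
    (hBalt : ∀ i, st i = i → ∀ u ∈ W i, B i u u = 0)
    (hBl : ∀ i j, j = st i → ∀ u ∈ W i, (∀ v ∈ W j, B i u v = 0) → u = 0)
    (hBr : ∀ i j, j = st i → ∀ v ∈ W j, (∀ u ∈ W i, B i u v = 0) → v = 0) :
    Graded (PW W) st (pf W st B) where
  idem i u := by rw [PW_apply, PW_apply, Pi.single_eq_same]
  orth i j hij u := by rw [PW_apply, PW_apply, Pi.single_eq_of_ne hij, Pi.single_zero]
  sum u := Finset.univ_sum_single u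
  alt := pf_alt W st B hst hBalt
  nondeg := pf_nondeg W st B hst hBl hBr
  invol := hst
  pair i u v := by
    have h1 : pf W st B (PW W i u) v = cf st B i (st i) (u i : X) (v (st i) : X) := by
      rw [pf_apply, Finset.sum_eq_single i, Finset.sum_eq_single (st i), PW_same]
      · intro j _ hj
        rw [cf_ne st B hj, LinearMap.zero_apply, LinearMap.zero_apply]
      · intro h
        exact absurd (Finset.mem_univ _) h
      · intro j _ hj
        refine Finset.sum_eq_zero fun k _ => ?_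
        rw [PW_ne W hj, ZeroMemClass.coe_zero, map_zero, LinearMap.zero_apply]
      · intro h
        exact absurd (Finset.mem_univ _) h
    have h2 : pf W st B u (PW W (st i) v) = cf st B i (st i) (u i : X) (v (st i) : X) := by
      rw [PW_apply, pf_right, Finset.sum_eq_single i]
      · intro j _ hj
        rw [cf_ne st B (fun h => hj (by rw [← hst i, h, hst])), LinearMap.zero_apply,
          LinearMap.zero_apply]
      · intro h
        exact absurd (Finset.mem_univ _) h
    rw [h1, h2]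

/-- The equivariance of the components. -/
theorem cf_smul {Γ : Type*} [Group Γ] {R : Representation K Γ X} {χ : Γ →* K}
    (hst : ∀ i, st (st i) = i) {g : Γ} (hg : ∀ i, ∀ u ∈ W i, ∀ v ∈ W (st i),
      B i (R g u) (R g v) = χ g * B i u v) (i j : Fin s) (u : W i) (v : W j) :
    cf st B i j (R g u) (R g v) = χ g * cf st B i j u v := by
  unfold cf
  by_cases h : j = st i
  · subst h
    rw [if_pos rfl]
    rcases lt_trichotomy i (st i) with h1 | h1 | h1
    · rw [if_pos h1]
      exact hg i _ u.2 _ v.2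
    · rw [if_neg (not_lt.2 h1.ge), if_neg (not_lt.2 h1.le)]
      exact hg i _ u.2 _ v.2
    · rw [if_neg (not_lt.2 h1.le), if_pos h1, LinearMap.neg_apply, LinearMap.neg_apply,
        LinearMap.neg_apply, LinearMap.neg_apply, LinearMap.flip_apply, LinearMap.flip_apply,
        hg (st i) _ v.2 _ (by rw [hst]; exact u.2)]
      ring
  · rw [if_neg h, LinearMap.zero_apply, LinearMap.zero_apply, LinearMap.zero_apply,
      LinearMap.zero_apply, mul_zero]

/-- The component is a multiple of the form. -/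
theorem cf_eq (i : Fin s) :
    (∀ u v, cf st B i (st i) u v = B i u v) ∨
    (∀ u v, cf st B i (st i) u v = -B (st i) v u) := by
  unfold cf
  rw [if_pos rfl]
  rcases lt_trichotomy i (st i) with h1 | h1 | h1
  · rw [if_pos h1]
    exact Or.inl fun _ _ => rfl
  · rw [if_neg (not_lt.2 h1.ge), if_neg (not_lt.2 h1.le)]
    exact Or.inl fun _ _ => rfl
  · rw [if_neg (not_lt.2 h1.le), if_pos h1]
    exact Or.inr fun _ _ => rfl

end graded

section model

variable {K : Type*} [Field K] [CharZero K] [IsAlgClosed K] {X : Type*} [AddCommGroup X]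
  [Module K X] [FiniteDimensional K X] {Γ : Type*} [Group Γ] {R : Representation K Γ X}
  {χ : Γ →* K} {s : ℕ} {W : Fin s → Submodule K X} {st : Fin s → Fin s}
  {B : Fin s → (X →ₗ[K] X →ₗ[K] K)}

/-- Operators which are skew for all Tate forms commute with potentially equivariant operators. -/
theorem comm_of_skew (ω : X →ₗ[K] X →ₗ[K] K) (hnd : ∀ u, (∀ v, ω u v = 0) → u = 0)
    (hωR : ∀ g u v, ω (R g u) (R g v) = χ g * ω u v) {e : Module.End K X}
    (he : ∀ B ∈ T2 R χ, ∀ u v, B (e u) v + B u (e v) = 0) {Δ : Subgroup Γ} (hΔ : Δ.FiniteIndex)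
    {T : Module.End K X} (hT : ∀ g ∈ Δ, ∀ v, T (R g v) = R g (T v)) (x : X) : e (T x) = T (e x) := by
  have h1 : ω ∈ T2 R χ := ⟨⊤, inferInstance, fun g _ => hωR g⟩
  have h2 : ω.comp T ∈ T2 R χ := by
    refine ⟨Δ, hΔ, fun g hg u v => ?_⟩
    rw [LinearMap.comp_apply, LinearMap.comp_apply, hT g hg, hωR]
  rw [← sub_eq_zero]
  refine hnd _ fun v => ?_
  have h3 := he ω h1 (T x) v
  have h4 := he _ h2 x v
  rw [LinearMap.comp_apply, LinearMap.comp_apply] at h4
  rw [map_sub, LinearMap.sub_apply]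
  linear_combination h3 - h4

theorem model_W (hss : HasProj R) (ω : X →ₗ[K] X →ₗ[K] K)
    (hnd : ∀ u, (∀ v, ω u v = 0) → u = 0)
    (hωR : ∀ g u v, ω (R g u) (R g v) = χ g * ω u v) (hW : ∀ i, SI R (W i))
    (hWW : ∀ i j, Tw R (fun _ => 1) (W i) (W j) → i = j) (hst : ∀ i, st (st i) = i)
    (hDu' : ∀ i j, Du R χ (W i) (W j) → j = st i)
    {D' : Fin s → Subgroup Γ} (hD' : ∀ i, (D' i).FiniteIndex)
    (hB0 : ∀ i, ∃ u ∈ W i, ∃ v ∈ W (st i), B i u v ≠ 0)
    (hB : ∀ i, ∀ g ∈ D' i, ∀ u ∈ W i, ∀ v ∈ W (st i), B i (R g u) (R g v) = χ g * B i u v)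
    {n : ℕ} {f : Fin n → K} {t : Fin n → Fin s} {p : ∀ l, X →ₗ[K] W (t l)}
    {ι : ∀ l, W (t l) →ₗ[K] X} {D : Fin n → Subgroup Γ} (hD : ∀ l, (D l).FiniteIndex)
    (hp : ∀ l, ∀ g ∈ D l, ∀ x, (p l (R g x) : X) = R g (p l x))
    (hι : ∀ l, ∀ g ∈ D l, ∀ (u u' : W (t l)), (u' : X) = R g u → ι l u' = R g (ι l u))
    (hdec : ∀ x, ∑ l, f l • ι l (p l x) = x) :
    Model (PW W) (pf W st B) (T2 R χ) f (fun l => (ι l).comp (LinearMap.proj (t l)))
      (fun l => (LinearMap.single K (fun i => W i) (t l)).comp (p l)) t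
      (fun i => (W i).subtype.comp (LinearMap.proj i)) where
  dec x := by
    conv_rhs => rw [← hdec x]
    refine Finset.sum_congr rfl fun l _ => ?_
    change f l • ι l ((Pi.single (t l) (p l x) : ∀ i, W i) (t l)) = _
    rw [Pi.single_eq_same]
  schur l k := by
    obtain ⟨pr, hpr⟩ := exists_pr (W (t k))
    let T : Module.End K X := (W (t l)).subtype.comp ((p l).comp ((ι k).comp pr))
    have hTW : ∀ u, T u ∈ W (t l) := fun u => SetLike.coe_mem _
    obtain ⟨Δ1, hΔ1, h1⟩ := (hW (t k)).2.1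
    have hT : ∀ g ∈ D l ⊓ (D k ⊓ Δ1), ∀ u ∈ W (t k), T (R g u) = R g (T u) := by
      intro g hg u hu
      change (p l (ι k (pr (R g u))) : X) = R g (p l (ι k (pr u)))
      have h2 : pr (R g u) = ⟨R g u, h1 g hg.2.2 u hu⟩ := hpr ⟨R g u, h1 g hg.2.2 u hu⟩
      have h3 : pr u = ⟨u, hu⟩ := hpr ⟨u, hu⟩
      rw [h2, h3, hι k g hg.2.1 ⟨u, hu⟩ ⟨R g u, h1 g hg.2.2 u hu⟩ rfl, hp l g hg.1]
    have hval : ∀ w : W (t k), (p l (ι k w) : X) = T w := by
      intro w
      change _ = (p l (ι k (pr (w : X))) : X)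
      rw [hpr w]
    by_cases hlk : t l = t k
    · have hTW' : ∀ u ∈ W (t k), T u ∈ W (t k) := by
        intro u _
        have h2 := hTW u
        rwa [hlk] at h2
      obtain ⟨c, hc⟩ := schur_end (hW (t k)) (Δ := D l ⊓ (D k ⊓ Δ1)) inferInstance T hTW' hT
      refine ⟨c, fun y => ?_⟩
      change (Pi.single (t l) (p l (ι k (y (t k)))) : ∀ i, W i) = c • Pi.single (t l) (y (t l))
      rw [← Pi.single_smul]
      congr 1
      apply Subtype.ext
      rw [hval, hc _ (y (t k)).2]
      have h2 : ∀ i j, i = j → (y i : X) = y j := by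
        rintro i _ rfl
        rfl
      rw [h2 _ _ hlk.symm]
      rfl
    · refine ⟨0, fun y => ?_⟩
      have h2 : ∀ u ∈ W (t k), T u = 0 := by
        by_contra hcon
        push Not at hcon
        exact hlk (hWW _ _ ⟨D l ⊓ (D k ⊓ Δ1), inferInstance, T, fun u _ => hTW u, hcon,
          fun g hg u hu => by rw [one_smul, hT g hg u hu]⟩).symm
      change (Pi.single (t l) (p l (ι k (y (t k)))) : ∀ i, W i) = _
      have h3 : p l (ι k (y (t k))) = 0 := Subtype.ext (by rw [hval, h2 _ (y (t k)).2]; rfl)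
      rw [h3, Pi.single_zero, zero_smul]
  form B1 hB1 l k := by
    obtain ⟨Δ, hΔ, hB1⟩ := hB1
    obtain ⟨pr, hpr⟩ := exists_pr (W (t l))
    obtain ⟨pr', hpr'⟩ := exists_pr (W (t k))
    obtain ⟨Δ1, hΔ1, h1⟩ := (hW (t l)).2.1
    obtain ⟨Δ2, hΔ2, h2⟩ := (hW (t k)).2.1
    let B2 : X →ₗ[K] X →ₗ[K] K := B1.compl₁₂ ((ι l).comp pr) ((ι k).comp pr')
    have hB2v : ∀ (u : W (t l)) (v : W (t k)), B2 u v = B1 (ι l u) (ι k v) := by
      intro u v
      change B1 (ι l (pr (u : X))) (ι k (pr' (v : X))) = _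
      rw [hpr, hpr']
    have hB2 : ∀ g ∈ (Δ ⊓ (D l ⊓ D k)) ⊓ (Δ1 ⊓ Δ2), ∀ u ∈ W (t l), ∀ v ∈ W (t k),
        B2 (R g u) (R g v) = χ g * B2 u v := by
      intro g hg u hu v hv
      have e1 := hB2v ⟨R g u, h1 g hg.2.1 u hu⟩ ⟨R g v, h2 g hg.2.2 v hv⟩
      have e2 := hB2v ⟨u, hu⟩ ⟨v, hv⟩
      change B2 (R g u) (R g v) = _ at e1
      change B2 u v = _ at e2
      rw [e1, e2, hι l g hg.1.2.1 ⟨u, hu⟩ ⟨R g u, h1 g hg.2.1 u hu⟩ rfl,
        hι k g hg.1.2.2 ⟨v, hv⟩ ⟨R g v, h2 g hg.2.2 v hv⟩ rfl, hB1 g hg.1.1]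
    have hval : ∀ y y' : ∀ i, W i, pf W st B (PW W (t l) y) (PW W (t k) y') =
        cf st B (t l) (t k) (y (t l) : X) (y' (t k) : X) := by
      intro y y'
      rw [PW_apply, PW_apply, pf_single]
    by_cases hlk : t k = st (t l)
    · -- the given form and the component
      have h3 : ∀ i j (hij : j = st i) (B2 : X →ₗ[K] X →ₗ[K] K) (Δ : Subgroup Γ),
          Δ.FiniteIndex → (∀ g ∈ Δ, ∀ u ∈ W i, ∀ v ∈ W j, B2 (R g u) (R g v) = χ g * B2 u v) →
          ∃ c : K, ∀ u ∈ W i, ∀ v ∈ W j, B2 u v = c * cf st B i j u v := by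
        rintro i _ rfl B2 Δ hΔ hB2
        rcases cf_eq st B i with h4 | h4
        · obtain ⟨c, hc⟩ := pair_unique (hW i) (hW (st i)) (hD' i) (B i) (hB0 i) (hB i) hΔ B2 hB2
          exact ⟨c, fun u hu v hv => by rw [hc u hu v hv, h4]⟩
        · have h0' : ∃ u ∈ W i, ∃ v ∈ W (st i), (-(B (st i)).flip) u v ≠ 0 := by
            obtain ⟨u, hu, v, hv, huv⟩ := hB0 (st i)
            rw [hst] at hv
            exact ⟨v, hv, u, hu, neg_ne_zero.2 huv⟩
          obtain ⟨c, hc⟩ := pair_unique (hW i) (hW (st i)) (hD' (st i)) (-(B (st i)).flip) h0'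
            (fun g hg u hu v hv => by
              rw [LinearMap.neg_apply, LinearMap.neg_apply, LinearMap.neg_apply,
                LinearMap.neg_apply, LinearMap.flip_apply, LinearMap.flip_apply,
                hB (st i) g hg v hv u (by rw [hst]; exact hu)]
              ring) hΔ B2 hB2
          exact ⟨c, fun u hu v hv => by
            rw [hc u hu v hv, h4, LinearMap.neg_apply, LinearMap.neg_apply, LinearMap.flip_apply]⟩
      obtain ⟨c, hc⟩ := h3 _ _ hlk B2 _ inferInstance hB2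
      refine ⟨c, fun y y' => ?_⟩
      rw [hval, ← hc _ (y (t l)).2 _ (y' (t k)).2, hB2v]
      rfl
    · refine ⟨0, fun y y' => ?_⟩
      rw [zero_mul]
      by_contra hcon
      apply hlk
      refine hDu' _ _ ⟨_, inferInstance, B2, ⟨y (t l), (y (t l)).2, y' (t k), (y' (t k)).2, ?_⟩, hB2⟩
      rw [hB2v]
      exact hcon
  tate i l k := by
    have hfi : ((D l ⊓ D k) ⊓ ⨅ i, D' i).FiniteIndex := by
      have := Subgroup.finiteIndex_iInf hD'
      infer_instance
    refine ⟨(D l ⊓ D k) ⊓ ⨅ i, D' i, hfi, fun g hg u v => ?_⟩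
    change pf W st B (PW W i (Pi.single (t l) (p l (R g u)))) (Pi.single (t k) (p k (R g v))) =
      χ g * pf W st B (PW W i (Pi.single (t l) (p l u))) (Pi.single (t k) (p k v))
    by_cases hi : i = t l
    · subst hi
      have h1 : ∀ w : W (t l), PW W (t l) (Pi.single (t l) w) = Pi.single (t l) w := by
        intro w
        rw [PW_apply, Pi.single_eq_same]
      rw [h1, h1, pf_single, pf_single, hp l g hg.1.1, hp k g hg.1.2]
      exact cf_smul W st B hst (fun i u hu v hv => hB i g (Subgroup.mem_iInf.1 hg.2 i) u hu v hv)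
        _ _ _ _
    · have h1 : ∀ w : W (t l), PW W i (Pi.single (t l) w) = 0 := by
        intro w
        rw [PW_apply, Pi.single_eq_of_ne hi, Pi.single_zero]
      rw [h1, h1, map_zero, LinearMap.zero_apply, LinearMap.zero_apply, mul_zero]
  lift e he := by
    -- stability
    have hproj : ∀ i, ∃ (Δ : Subgroup Γ) (P : Module.End K X), Δ.FiniteIndex ∧ (∀ v, P v ∈ W i) ∧
        (∀ u ∈ W i, P u = u) ∧ ∀ g ∈ Δ, ∀ v, P (R g v) = R g (P v) := by
      intro i
      obtain ⟨Δ1, hΔ1, h1⟩ := (hW i).2.1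
      obtain ⟨P, hP1, hP2, hP3⟩ := hss Δ1 hΔ1 (W i) h1
      exact ⟨Δ1, P, hΔ1, hP1, hP2, hP3⟩
    choose Δp P hΔp hP1 hP2 hP3 using hproj
    have heP : ∀ i x, e (P i x) = P i (e x) := fun i x =>
      comm_of_skew ω hnd hωR he (hΔp i) (hP3 i) x
    have heW : ∀ i, ∀ u ∈ W i, e u ∈ W i := by
      intro i u hu
      rw [← hP2 i u hu, heP]
      exact hP1 i _
    let Z : Module.End K (∀ i, W i) :=
      LinearMap.pi fun i => (e.restrict (heW i)).comp (LinearMap.proj i)
    have hZ : ∀ y i, (Z y i : X) = e (y i) := fun y i => rfl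
    have hBskew : ∀ i, ∀ u ∈ W i, ∀ v ∈ W (st i), B i (e u) v + B i u (e v) = 0 := by
      intro i u hu v hv
      have h1 : (B i).compl₁₂ (P i) (P (st i)) ∈ T2 R χ := by
        refine ⟨D' i ⊓ (Δp i ⊓ Δp (st i)), inferInstance, fun g hg u v => ?_⟩
        change B i (P i (R g u)) (P (st i) (R g v)) = χ g * B i (P i u) (P (st i) v)
        rw [hP3 i g hg.2.1, hP3 (st i) g hg.2.2]
        exact hB i g hg.1 _ (hP1 _ _) _ (hP1 _ _)
      have h2 := he _ h1 u v
      change B i (P i (e u)) (P (st i) v) + B i (P i u) (P (st i) (e v)) = 0 at h2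
      rwa [hP2 i _ (heW i u hu), hP2 (st i) v hv, hP2 i u hu, hP2 (st i) _ (heW _ v hv)] at h2
    refine ⟨Z, ⟨fun i u => ?_, fun u v => ?_⟩, fun l y => ?_, fun i y => rfl⟩
    · funext j
      apply Subtype.ext
      rw [hZ]
      by_cases hj : j = i
      · subst hj
        rw [PW_same, PW_same, hZ]
      · rw [PW_ne W hj, PW_ne W hj, ZeroMemClass.coe_zero, map_zero]
    · rw [pf_apply, pf_apply, ← Finset.sum_add_distrib]
      refine Finset.sum_eq_zero fun i _ => ?_
      rw [← Finset.sum_add_distrib]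
      refine Finset.sum_eq_zero fun j _ => ?_
      rw [hZ, hZ]
      by_cases hij : j = st i
      · subst hij
        rcases cf_eq st B i with h4 | h4
        · rw [h4, h4]
          exact hBskew i _ (u i).2 _ (v (st i)).2
        · rw [h4, h4]
          have h5 := hBskew (st i) _ (v (st i)).2 (u i) (by rw [hst]; exact (u i).2)
          linear_combination -h5
      · rw [cf_ne st B hij, LinearMap.zero_apply, LinearMap.zero_apply, LinearMap.zero_apply,
          LinearMap.zero_apply, add_zero]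
    · change e (ι l (y (t l))) = ι l (Z y (t l))
      let T : Module.End K X := (ι l).comp ((P (t l)).codRestrict (W (t l)) (hP1 (t l)))
      have hTw : ∀ w : W (t l), T w = ι l w := by
        intro w
        change ι l ⟨P (t l) w, _⟩ = _
        congr 1
        exact Subtype.ext (hP2 _ _ w.2)
      have hT : ∀ g ∈ D l ⊓ Δp (t l), ∀ v, T (R g v) = R g (T v) := by
        intro g hg v
        exact hι l g hg.1 ⟨P (t l) v, hP1 _ _⟩ ⟨P (t l) (R g v), hP1 _ _⟩ (hP3 _ g hg.2 v)
      have h1 := comm_of_skew ω hnd hωR he (Δ := D l ⊓ Δp (t l)) inferInstance hT (y (t l))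
      rw [hTw] at h1
      rw [h1]
      exact hTw (Z y (t l))

end model

end

end Pool.Agent.X300.KT
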