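import Mathlib
import Pool.Agent.X300.KT.Inst

/-!
# The theorem over an algebraically closed field
-/

set_option linter.unusedSectionVars false

namespace Pool.Agent.X300.KT

open Module Pool.Agent.H204R3.SP Pool.Agent.H204R3.GP Pool.Agent.W522.U

noncomputable section

section trace

variable {K : Type*} [Field K] [CharZero K] {Y : Type*} [AddCommGroup Y] [Module K Y]
  [FiniteDimensional K Y] {I : Type*} [Fintype I] [DecidableEq I]
  {P : I → Module.End K Y} {st : I → I} {ω : Y →ₗ[K] Y →ₗ[K] K}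

/-- Adjoint operators have the same trace. -/
theorem trace_adjoint (hnd : ∀ u, (∀ v, ω u v = 0) → u = 0) {T S : Module.End K Y}
    (h : ∀ u v, ω (T u) v = ω u (S v)) : LinearMap.trace K Y T = LinearMap.trace K Y S := by
  have hinj : Function.Injective ω := by
    rw [injective_iff_map_eq_zero]
    intro u hu
    exact hnd u fun v => by rw [hu, LinearMap.zero_apply]
  have hsurj : Function.Surjective ω := by
    refine (LinearMap.injective_iff_surjective_of_finrank_eq_finrank ?_).1 hinj
    rw [Subspace.dual_finrank_eq]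
  let e := LinearEquiv.ofBijective ω ⟨hinj, hsurj⟩
  have h1 : e.conj T = Module.Dual.transpose S := by
    refine LinearMap.ext fun φ => ?_
    obtain ⟨u, rfl⟩ := e.surjective φ
    rw [LinearEquiv.conj_apply_apply, LinearEquiv.symm_apply_apply]
    ext v
    exact h u v
  rw [← LinearMap.trace_conj' T e, h1, LinearMap.trace_transpose']

theorem Graded.trace_st (G : Graded P st ω) {Z : Module.End K Y} (hZ : Z ∈ SkBl P ω) (i : I) :
    LinearMap.trace K Y (Z * P (st i)) = -LinearMap.trace K Y (Z * P i) := by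
  have h1 : LinearMap.trace K Y (Z * P i) = LinearMap.trace K Y (-(Z * P (st i))) := by
    refine trace_adjoint (ω := ω) G.nondeg fun u v => ?_
    rw [Module.End.mul_apply, LinearMap.neg_apply, Module.End.mul_apply, map_neg, hZ.1, G.pair, hZ.1]
    have h2 := hZ.2 u (P (st i) v)
    rw [hZ.1] at h2
    linear_combination h2
  rw [h1, map_neg, neg_neg]

theorem sum_split {s : ℕ} (st : Fin s → Fin s) (hst : ∀ i, st (st i) = i) (f : Fin s → K)
    (hf : ∀ i, st i = i → f i = 0) :
    ∑ i, f i = ∑ i : {i // i < st i}, (f i.1 + f (st i.1)) := by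
  classical
  have h1 : ∑ i, f i = (∑ i ∈ Finset.univ.filter (fun i => i < st i), f i) +
      ((∑ i ∈ Finset.univ.filter (fun i => st i < i), f i) +
        ∑ i ∈ Finset.univ.filter (fun i => st i = i), f i) := by
    rw [← Finset.sum_filter_add_sum_filter_not Finset.univ (fun i => i < st i)]
    congr 1
    rw [← Finset.sum_filter_add_sum_filter_not _ (fun i => st i < i), Finset.filter_filter,
      Finset.filter_filter]
    congr 1
    · refine Finset.sum_congr ?_ fun _ _ => rfl
      ext i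
      simp only [Finset.mem_filter, Finset.mem_univ, true_and]
      constructor
      · exact fun h => h.2
      · exact fun h => ⟨not_lt.2 h.le, h⟩
    · refine Finset.sum_congr ?_ fun _ _ => rfl
      ext i
      simp only [Finset.mem_filter, Finset.mem_univ, true_and]
      constructor
      · exact fun h => le_antisymm (not_lt.1 h.1) (not_lt.1 h.2)
      · exact fun h => ⟨by rw [h]; exact lt_irrefl _, by rw [h]; exact lt_irrefl _⟩
  have h2 : ∑ i ∈ Finset.univ.filter (fun i => st i = i), f i = 0 :=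
    Finset.sum_eq_zero fun i hi => hf i (Finset.mem_filter.1 hi).2
  have h3 : ∑ i ∈ Finset.univ.filter (fun i => st i < i), f i =
      ∑ i ∈ Finset.univ.filter (fun i => i < st i), f (st i) := by
    refine Finset.sum_bij' (fun i _ => st i) (fun i _ => st i) ?_ ?_ ?_ ?_ ?_
    · intro i hi
      rw [Finset.mem_filter] at hi ⊢
      exact ⟨Finset.mem_univ _, by rw [hst]; exact hi.2⟩
    · intro i hi
      rw [Finset.mem_filter] at hi ⊢
      exact ⟨Finset.mem_univ _, by rw [hst]; exact hi.2⟩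
    · intro i _
      exact hst i
    · intro i _
      exact hst i
    · intro i _
      rw [hst]
  rw [h1, h2, h3, add_zero, ← Finset.sum_add_distrib]
  exact Finset.sum_subtype _ (fun i => by simp) (fun i => f i + f (st i))

end trace

variable {K : Type*} [Field K] [CharZero K] [IsAlgClosed K] {X : Type*} [AddCommGroup X]
  [Module K X] [FiniteDimensional K X] {Γ : Type*} [Group Γ] {R : Representation K Γ X}
  {χ : Γ →* K}

/-- The Lie algebra of a stable set of forms is stable. -/
theorem LL_conj {κ : Type*} [Fintype κ] [DecidableEq κ]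
    {S : Set (MultilinearMap K (fun _ : κ => X) K)} {g : Γ}
    (hS : ∀ φ ∈ S, ∃ c : K, ∃ φ' ∈ S, ∀ v, φ (fun k => R g (v k)) = c * φ' v)
    {x : Module.End K X} (hx : x ∈ LL (T2 R χ) S) : R g * x * R g⁻¹ ∈ LL (T2 R χ) S := by
  constructor
  · rintro B ⟨Δ, hΔ, hB⟩ u v
    have h1 : B.compl₁₂ (R g) (R g) ∈ T2 R χ := by
      refine ⟨Δ.comap (MulAut.conj g).toMonoidHom, ⟨by
        rw [Subgroup.index_comap_of_surjective _ (MulAut.conj g).surjective]
        exact hΔ.index_ne_zero⟩, fun t ht u v => ?_⟩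
      have h1 : g * t * g⁻¹ ∈ Δ := by
        rw [Subgroup.mem_comap] at ht
        exact ht
      have h2 := hB _ h1 (R g u) (R g v)
      have h3 : ∀ w, R (g * t * g⁻¹) (R g w) = R g (R t w) := by
        intro w
        rw [map_mul, map_mul, Module.End.mul_apply, Module.End.mul_apply, Rinv]
      have h4 : χ (g * t * g⁻¹) = χ t := by
        rw [map_mul, map_mul, mul_right_comm, ← map_mul, mul_inv_cancel, map_one, one_mul]
      rw [h3, h3, h4] at h2
      exact h2
    have h2 := hx.1 _ h1 (R g⁻¹ u) (R g⁻¹ v)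
    change B (R g (x (R g⁻¹ u))) (R g (R g⁻¹ v)) + B (R g (R g⁻¹ u)) (R g (x (R g⁻¹ v))) = 0 at h2
    rw [Rinv', Rinv'] at h2
    exact h2
  · intro φ hφ v
    obtain ⟨c, φ', hφ', h1⟩ := hS φ hφ
    have h2 := hx.2 φ' hφ' (fun k => R g⁻¹ (v k))
    rw [← mul_zero c, ← h2, Finset.mul_sum]
    refine Finset.sum_congr rfl fun k _ => ?_
    rw [← h1]
    congr 1
    funext l
    by_cases hl : l = k
    · subst hl
      rw [Function.update_self, Function.update_self]
      rfl
    · rw [Function.update_of_ne hl, Function.update_of_ne hl, Rinv']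

/-- **The main theorem over an algebraically closed field.** -/
theorem K_main (hss : HasProj R) (ω : X →ₗ[K] X →ₗ[K] K)
    (hnd : ∀ u, (∀ v, ω u v = 0) → u = 0)
    (hωR : ∀ g u v, ω (R g u) (R g v) = χ g * ω u v)
    (hsp : ∀ U, SI R U → Du R χ U U → ∃ Δ : Subgroup Γ, Δ.FiniteIndex ∧
      ∃ B : X →ₗ[K] X →ₗ[K] K, (∃ u ∈ U, ∃ v ∈ U, B u v ≠ 0) ∧ (∀ u ∈ U, B u u = 0) ∧
        ∀ g ∈ Δ, ∀ u ∈ U, ∀ v ∈ U, B (R g u) (R g v) = χ g * B u v)
    (h4 : ∀ φ : MultilinearMap K (fun _ : Fin 2 × Fin 2 => X) K, IsTate R χ 2 φ →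
      φ ∈ Submodule.span K (PT R χ 2))
    {κ : Type} [Fintype κ] [DecidableEq κ] (S : Set (MultilinearMap K (fun _ : κ => X) K))
    {Δ : Subgroup Γ} (hΔ : Δ.FiniteIndex)
    (hS : ∀ g ∈ Δ, ∀ φ ∈ S, ∃ c : K, ∃ φ' ∈ S, ∀ v, φ (fun k => R g (v k)) = c * φ' v)
    (h0 : ∀ U, SI R U → 2 ≤ finrank K U →
      ∃ x ∈ LL (T2 R χ) S, ∀ c : K, ∃ u ∈ U, x u ≠ c • u)
    (htr : ∀ (q : ℕ) (U : Fin q → Submodule K X), (∀ i, SI R (U i)) →
      (∀ i j, ¬Du R χ (U i) (U j)) → (∀ i j, Tw R (fun _ => 1) (U i) (U j) → i = j) →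
      ∀ d : Fin q → K, d ≠ 0 → ∃ x ∈ LL (T2 R χ) S, ∃ h : ∀ i, ∀ u ∈ U i, x u ∈ U i,
        ∑ i, d i * LinearMap.trace K (U i) (x.restrict (h i)) ≠ 0)
    {φ : MultilinearMap K (fun _ : κ => X) K} (hφ : φ ∈ S) :
    (∀ m, Fintype.card κ = 2 * m → φ ∈ Submodule.span K (ProdT (T2 R χ) κ m)) ∧
    (Odd (Fintype.card κ) → φ = 0) := by
  classical
  obtain ⟨s, W, hW, hWW, hall⟩ := exists_reps hss
  obtain ⟨st, hst, hDu, hDu'⟩ := exists_st hss ω hnd hωR W hW hWW hall
  choose D' hD' B hB0 hB using hDu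
  obtain ⟨n, f, T, hfT⟩ := Submodule.mem_span_set'.1 (decomp hss W hW hall)
  choose t p ι D hD hp hι hT using fun l => (T l).2
  have hdec : ∀ x, ∑ l, f l • ι l (p l x) = x := by
    intro x
    have h2 := congrArg (fun F : Module.End K X => F x) hfT
    simp only [LinearMap.sum_apply, LinearMap.smul_apply, Module.End.one_apply] at h2
    conv_rhs => rw [← h2]
    refine Finset.sum_congr rfl fun l _ => ?_
    rw [hT l]
    rfl
  have hBl : ∀ i j, j = st i → ∀ u ∈ W i, (∀ v ∈ W j, B i u v = 0) → u = 0 := by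
    rintro i _ rfl
    exact du_left (hW i) (hW _).2.1 (hD' i) (hB0 i) (hB i)
  have hBr : ∀ i j, j = st i → ∀ v ∈ W j, (∀ u ∈ W i, B i u v = 0) → v = 0 := by
    rintro i _ rfl
    exact du_right (hW i).2.1 (hW _) (hD' i) (hB0 i) (hB i)
  have hBalt : ∀ i, st i = i → ∀ u ∈ W i, B i u u = 0 := by
    intro i hi u hu
    have hB' := hB i
    have hB0' := hB0 i
    rw [hi] at hB' hB0'
    obtain ⟨Δ1, hΔ1, B1, hB10, hB1a, hB1⟩ := hsp (W i) (hW i) ⟨D' i, hD' i, B i, hB0', hB'⟩
    obtain ⟨c, hc⟩ := pair_unique (hW i) (hW i) hΔ1 B1 hB10 hB1 (hD' i) (B i) hB'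
    rw [hc u hu u hu, hB1a u hu, mul_zero]
  have G := graded_W W st B hst hBalt hBl hBr
  have M := model_W hss ω hnd hωR hW hWW hst hDu' hD' hB0 hB hD hp hι hdec
  have hfr : ∀ i, finrank K (LinearMap.range (PW W i)) = finrank K (W i) := by
    intro i
    have h1 : LinearMap.range (PW W i) = LinearMap.range (LinearMap.single K (fun i => W i) i) := by
      apply le_antisymm
      · rintro _ ⟨y, rfl⟩
        exact ⟨y i, rfl⟩
      · rintro _ ⟨w, rfl⟩
        refine ⟨Pi.single i w, ?_⟩
        rw [PW_apply, Pi.single_eq_same]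
        rfl
    rw [h1]
    refine LinearMap.finrank_range_of_inj fun a b hab => ?_
    have h2 := congrFun (show (Pi.single i a : ∀ i, W i) = Pi.single i b from hab) i
    rwa [Pi.single_eq_same, Pi.single_eq_same] at h2
  have hcomm : ∀ Δ' : Subgroup Γ, Δ'.FiniteIndex → ∀ P : Module.End K X,
      (∀ g ∈ Δ', ∀ v, P (R g v) = R g (P v)) → ∀ x ∈ LL (T2 R χ) S, ∀ v, x (P v) = P (x v) :=
    fun Δ' hΔ' P hP x hx v => comm_of_skew ω hnd hωR hx.1 hΔ' hP v
  have hconj : ∀ g ∈ Δ, ∀ x ∈ LL (T2 R χ) S, R g * x * R g⁻¹ ∈ LL (T2 R χ) S :=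
    fun g hg x hx => LL_conj (hS g hg) hx
  refine model_main G M S (fun e he y hy => ?_) (fun i hi => ?_) (fun c hc hc0 => ?_) hφ
  · exact ideal_of_four R χ ω hnd hωR h4 (LL (T2 R χ) S)
      (fun e he h => LL_nondeg R hss Δ hΔ hconj hcomm he h) Δ hΔ hconj he hy
  · rw [hfr] at hi
    obtain ⟨x, hx, hxc⟩ := h0 (W i) (hW i) hi
    refine ⟨x, hx, fun c => ?_⟩
    obtain ⟨u, hu, huc⟩ := hxc c
    refine ⟨Pi.single i ⟨u, hu⟩, ?_, ?_⟩
    · rw [PW_apply, Pi.single_eq_same]
    · have h1 : ((W i).subtype.comp (LinearMap.proj i)) (Pi.single i ⟨u, hu⟩ : ∀ i, W i) = u := by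
        change ((Pi.single i ⟨u, hu⟩ : ∀ i, W i) i : X) = u
        rw [Pi.single_eq_same]
      rw [h1]
      exact huc
  · let eqv := (Fintype.equivFin {i // i < st i}).symm
    obtain ⟨x, hx, hxW, hx0⟩ := htr (Fintype.card {i // i < st i}) (fun l => W (eqv l).1)
      (fun l => hW _)
      (fun l l' h => by
        have h2 := hDu' _ _ h
        have h3 := (eqv l).2
        have h4 := (eqv l').2
        rw [h2, hst] at h4
        exact lt_asymm h3 h4)
      (fun l l' h => eqv.injective (Subtype.ext (hWW _ _ h)))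
      (fun l => c (eqv l).1) (by
        intro h
        obtain ⟨i, hi, -⟩ := hc0
        have h1 : ∀ j, j < st j → c j = 0 := by
          intro j hj
          have h2 := congrFun h (eqv.symm ⟨j, hj⟩)
          rw [Equiv.apply_symm_apply] at h2
          exact h2
        rcases lt_trichotomy i (st i) with h3 | h3 | h3
        · exact hi (h1 i h3)
        · have h5 := hc i
          rw [← h3] at h5
          apply hi
          linear_combination (1 / 2 : K) * h5
        · have h5 := h1 (st i) (by rw [hst]; exact h3)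
          rw [hc] at h5
          exact hi (neg_eq_zero.1 h5))
    refine ⟨x, hx, fun Z hZ hinc hsum => hx0 ?_⟩
    -- the trace on a block
    have htrace : ∀ (i : Fin s) (h : ∀ u ∈ W i, x u ∈ W i),
        LinearMap.trace K _ (Z * PW W i) = LinearMap.trace K (W i) (x.restrict h) := by
      intro i h
      have h1 : Z * PW W i = (Z.comp (LinearMap.single K (fun i => W i) i)).comp
          (LinearMap.proj i) := rfl
      rw [h1, LinearMap.trace_comp_comm']
      congr 1
      ext w
      have h2 := hinc i (Pi.single i w)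
      have h3 : ((W i).subtype.comp (LinearMap.proj i)) (Pi.single i w : ∀ i, W i) = w := by
        change ((Pi.single i w : ∀ i, W i) i : X) = w
        rw [Pi.single_eq_same]
      rw [h3] at h2
      exact h2.symm
    have h1 : ∀ i, c (st i) * LinearMap.trace K _ (Z * PW W (st i)) =
        c i * LinearMap.trace K _ (Z * PW W i) := by
      intro i
      rw [hc, G.trace_st hZ]
      ring
    rw [sum_split st hst _ (fun i hi => by
      have h2 := hc i
      rw [hi] at h2
      have h3 : c i = 0 := by linear_combination (1 / 2 : K) * h2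
      rw [h3, zero_mul])] at hsum
    rw [← eqv.sum_comp] at hsum
    have h2 : ∑ l, (c (eqv l).1 * LinearMap.trace K _ (Z * PW W (eqv l).1) +
        c (st (eqv l).1) * LinearMap.trace K _ (Z * PW W (st (eqv l).1))) =
        2 * ∑ l, c (eqv l).1 * LinearMap.trace K _ (x.restrict (hxW l)) := by
      rw [Finset.mul_sum]
      refine Finset.sum_congr rfl fun l _ => ?_
      rw [h1, htrace _ (hxW l)]
      ring
    rw [h2] at hsum
    exact (mul_eq_zero.1 hsum).resolve_left two_ne_zero

end

end Pool.Agent.X300.KT
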