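import Mathlib
import Pool.Agent.X300.KT.KMain
import Pool.Agent.W522.U.C4

/-!
# Operators which kill the joint forms
-/

set_option linter.unusedSectionVars false

namespace Pool.Agent.X300.KT

open Module Pool.Agent.H204R3.SP Pool.Agent.H204R3.GP Pool.Agent.W522.U

noncomputable section

variable {K : Type*} [Field K] [CharZero K] {X : Type*} [AddCommGroup X] [Module K X]
  {Γ : Type*} [Group Γ]

/-- Quadratic unipotent elements. -/
theorem kills_unip (R : Representation K Γ X) (γ : Γ) (h2 : (R γ - 1) * (R γ - 1) = 0) {M : ℕ}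
    (hM0 : M ≠ 0) {κ : Type*} [Fintype κ] [DecidableEq κ]
    (φ : MultilinearMap K (fun _ : κ => X) K)
    (hφ : ∀ (j : ℕ) v, φ (fun l => R (γ ^ (j * M)) (v l)) = φ v) : Kills (R γ - 1) φ := by
  intro v
  set N := R γ - 1 with hN
  let P : Polynomial K := ∑ s : Finset κ,
    Polynomial.C (φ (s.piecewise (fun l => N (v l)) v)) * Polynomial.X ^ s.card
  have hP : ∀ k : ℕ, P.eval ((k * M : ℕ) : K) = φ v := by
    intro k
    have h4 := hφ k v
    rw [unip_pow R γ h2] at h4
    rw [← h4]
    have h5 : (fun l => (1 + ((k * M : ℕ) : K) • (R γ - 1)) (v l)) =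
        (fun l => ((k * M : ℕ) : K) • N (v l)) + v := by
      funext l
      rw [LinearMap.add_apply, LinearMap.smul_apply, Module.End.one_apply, Pi.add_apply, add_comm]
    rw [h5, MultilinearMap.map_add_univ]
    simp only [P]
    rw [Polynomial.eval_finsetSum]
    refine Finset.sum_congr rfl fun s _ => ?_
    rw [Polynomial.eval_mul, Polynomial.eval_C, Polynomial.eval_pow, Polynomial.eval_X]
    have h6 : s.piecewise (fun l => ((k * M : ℕ) : K) • N (v l)) v =
        s.piecewise (fun l => ((k * M : ℕ) : K) • (s.piecewise (fun l => N (v l)) v) l)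
          (s.piecewise (fun l => N (v l)) v) := by
      funext l
      by_cases hl : l ∈ s
      · rw [Finset.piecewise_eq_of_mem _ _ _ hl, Finset.piecewise_eq_of_mem _ _ _ hl,
          Finset.piecewise_eq_of_mem _ _ _ hl]
      · rw [Finset.piecewise_eq_of_notMem _ _ _ hl, Finset.piecewise_eq_of_notMem _ _ _ hl,
          Finset.piecewise_eq_of_notMem _ _ _ hl]
    rw [h6, MultilinearMap.map_piecewise_smul, Finset.prod_const, smul_eq_mul, mul_comm]
  have hP0 : P - Polynomial.C (φ v) = 0 := by
    refine Polynomial.eq_zero_of_infinite_isRoot _ ?_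
    refine Set.infinite_of_injective_forall_mem (f := fun k : ℕ => ((k * M : ℕ) : K)) ?_ ?_
    · intro a b hab
      have h3 : a * M = b * M := Nat.cast_injective (R := K) hab
      exact Nat.eq_of_mul_eq_mul_right (Nat.pos_of_ne_zero hM0) h3
    · intro k
      change (P - Polynomial.C (φ v)).IsRoot _
      rw [Polynomial.IsRoot, Polynomial.eval_sub, hP, Polynomial.eval_C, sub_self]
  have h3 := congrArg (fun p : Polynomial K => p.coeff 1) hP0
  simp only [Polynomial.coeff_sub, Polynomial.coeff_zero, Polynomial.coeff_C_succ, sub_zero,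
    P, Polynomial.finsetSum_coeff, Polynomial.coeff_C_mul, Polynomial.coeff_X_pow, mul_ite,
    mul_one, mul_zero] at h3
  rw [← h3, ← Finset.sum_filter]
  refine Finset.sum_bij (fun k _ => {k}) ?_ ?_ ?_ ?_
  · intro k _
    simp
  · intro a _ b _ hab
    exact Finset.singleton_injective hab
  · intro s hs
    rw [Finset.mem_filter] at hs
    obtain ⟨a, rfl⟩ := Finset.card_eq_one.1 hs.2.symm
    exact ⟨a, Finset.mem_univ _, rfl⟩
  · intro k _
    rw [Finset.piecewise_singleton]

/-- A diagonal operator kills a form if the weights add up to zero. -/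
theorem kills_diag {κ : Type*} [Fintype κ] [DecidableEq κ]
    (φ : MultilinearMap K (fun _ : κ => X) K) {I : Type*} [Finite I] (b : Basis I K X)
    (μ : I → K) {D : Module.End K X} (hD : ∀ i, D (b i) = μ i • b i)
    (h : ∀ J : κ → I, φ (fun l => b (J l)) ≠ 0 → ∑ k, μ (J k) = 0) : Kills D φ := by
  let ψ : MultilinearMap K (fun _ : κ => X) K :=
    ∑ k, φ.compLinearMap (fun l => if l = k then D else LinearMap.id)
  have hψ : ∀ v, ψ v = ∑ k, φ (Function.update v k (D (v k))) := by
    intro v
    change (∑ k, φ.compLinearMap (fun l => if l = k then D else LinearMap.id)) v = _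
    rw [sum_apply]
    refine Finset.sum_congr rfl fun k _ => ?_
    rw [MultilinearMap.compLinearMap_apply]
    congr 1
    funext l
    by_cases hl : l = k
    · subst hl
      rw [if_pos rfl, Function.update_self]
    · rw [if_neg hl, Function.update_of_ne hl]
      rfl
  have h0 : ψ = 0 := by
    refine Basis.ext_multilinear (fun _ => b) fun J => ?_
    rw [hψ, zero_apply]
    have h1 : ∀ k, φ (Function.update (fun l => b (J l)) k (D (b (J k)))) =
        μ (J k) * φ (fun l => b (J l)) := by
      intro k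
      rw [hD, MultilinearMap.map_update_smul, Function.update_eq_self, smul_eq_mul]
    rw [Finset.sum_congr rfl fun k _ => h1 k, ← Finset.sum_mul]
    by_cases hc : φ (fun l => b (J l)) = 0
    · rw [hc, mul_zero]
    · rw [h J hc, zero_mul]
  intro v
  rw [← hψ, h0, zero_apply]

/-- Eigenvalues of powers. -/
theorem exists_root [IsAlgClosed K] {H : Type*} [AddCommGroup H] [Module K H]
    [FiniteDimensional K H] (T : Module.End K H) (M : ℕ) (t : K) {y : H} (hy : y ≠ 0)
    (h : (T ^ M) y = t • y) : ∃ s : K, T.HasEigenvalue s ∧ s ^ M = t := by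
  let W := Module.End.eigenspace (T ^ M) t
  have hyW : y ∈ W := Module.End.mem_eigenspace_iff.2 h
  have hnt : Nontrivial W := by
    rw [Submodule.nontrivial_iff_ne_bot]
    intro h1
    rw [h1, Submodule.mem_bot] at hyW
    exact hy hyW
  have hTW : ∀ z ∈ W, T z ∈ W := by
    intro z hz
    have h1 := Module.End.mem_eigenspace_iff.1 hz
    refine Module.End.mem_eigenspace_iff.2 ?_
    have h2 : (T ^ M) (T z) = T ((T ^ M) z) := by
      rw [← Module.End.mul_apply, ← Module.End.mul_apply, ← pow_succ, ← pow_succ']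
    rw [h2, h1, map_smul]
  obtain ⟨s, hs⟩ := Module.End.exists_eigenvalue (T.restrict hTW)
  obtain ⟨⟨z, hz⟩, hz1, hz0⟩ := hs.exists_hasEigenvector
  have hz2 : T z = s • z := congrArg Subtype.val (Module.End.mem_eigenspace_iff.1 hz1)
  have hz0' : z ≠ 0 := fun h => hz0 (Subtype.ext h)
  refine ⟨s, Module.End.hasEigenvalue_of_hasEigenvector ⟨Module.End.mem_eigenspace_iff.2 hz2, hz0'⟩,
    ?_⟩
  have h3 : ∀ m : ℕ, (T ^ m) z = s ^ m • z := by
    intro m
    induction m with
    | zero => rw [pow_zero, pow_zero, Module.End.one_apply, one_smul]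
    | succ m ih => rw [pow_succ', Module.End.mul_apply, ih, map_smul, hz2, smul_smul, pow_succ]
  have h4 := Module.End.mem_eigenspace_iff.1 hz
  rw [h3] at h4
  exact smul_left_injective K hz0' h4

/-- Joint forms on generalised eigenspaces. -/
theorem gen_joint {H : Type*} [AddCommGroup H] [Module K H] (T : Module.End K X)
    (τ : Module.End K H) (M : ℕ) {κ : Type*} [Fintype κ] [DecidableEq κ]
    (f : MultilinearMap K (fun _ : κ => X) H) (a : κ → K)
    (hf : ∀ v, f (fun l => (T ^ M) (v l)) = τ (f v))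
    (hτ : ∀ y, τ y = (∏ l, a l ^ M) • y → y = 0) (N : ℕ) :
    ∀ (v : κ → X) (m : κ → ℕ), (∀ l, ((T - a l • (1 : Module.End K X)) ^ m l) (v l) = 0) →
      ∑ l, m l = N → f v = 0 := by
  induction N using Nat.strong_induction_on with
  | _ N ih =>
    intro v m hm hN
    apply hτ
    rw [← hf]
    -- the nilpotent part
    let n : κ → X := fun l => (T ^ M) (v l) - a l ^ M • v l
    have hn : ∀ l, ((T - a l • (1 : Module.End K X)) ^ (m l - 1)) (n l) = 0 := by
      intro l
      obtain ⟨Q, hQ⟩ : (Polynomial.X - Polynomial.C (a l) : Polynomial K) ∣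
          Polynomial.X ^ M - Polynomial.C (a l) ^ M := sub_dvd_pow_sub_pow _ _ M
      have h1 : n l = Polynomial.aeval T (Q * (Polynomial.X - Polynomial.C (a l))) (v l) := by
        rw [mul_comm, ← hQ, map_sub, map_pow, map_pow, Polynomial.aeval_X, Polynomial.aeval_C,
          ← map_pow, LinearMap.sub_apply, Module.algebraMap_end_apply]
      have h2 : ∀ q : ℕ, (T - a l • (1 : Module.End K X)) ^ q =
          Polynomial.aeval T ((Polynomial.X - Polynomial.C (a l)) ^ q) := by
        intro q
        rw [map_pow, map_sub, Polynomial.aeval_X, Polynomial.aeval_C, Algebra.algebraMap_eq_smul_one]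
      rw [h1, h2, ← Module.End.mul_apply, ← map_mul]
      by_cases h0 : m l = 0
      · have h3 := hm l
        rw [h0, pow_zero, Module.End.one_apply] at h3
        rw [h3, map_zero]
      · have h3 : (Polynomial.X - Polynomial.C (a l)) ^ (m l - 1) *
            (Q * (Polynomial.X - Polynomial.C (a l))) =
            Q * (Polynomial.X - Polynomial.C (a l)) ^ (m l) := by
          obtain ⟨q, hq⟩ := Nat.exists_eq_succ_of_ne_zero h0
          rw [hq, Nat.succ_sub_one, pow_succ]
          ring
        rw [h3, map_mul, Module.End.mul_apply, ← h2, hm, map_zero]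
    have h1 : (fun l => (T ^ M) (v l)) = n + fun l => a l ^ M • v l := by
      funext l
      rw [Pi.add_apply]
      exact (sub_add_cancel _ _).symm
    rw [h1, MultilinearMap.map_add_univ, Finset.sum_eq_single ∅]
    · rw [Finset.piecewise_empty, MultilinearMap.map_smul_univ]
    · intro S _ hS
      obtain ⟨l0, hl0⟩ := Finset.nonempty_iff_ne_empty.2 hS
      by_cases h0 : m l0 = 0
      · have h3 := hm l0
        rw [h0, pow_zero, Module.End.one_apply] at h3
        refine f.map_coord_zero l0 ?_
        rw [Finset.piecewise_eq_of_mem _ _ _ hl0]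
        change (T ^ M) (v l0) - a l0 ^ M • v l0 = 0
        rw [h3, map_zero, smul_zero, sub_zero]
      · refine ih (∑ l, if l ∈ S then m l - 1 else m l) ?_ _ (fun l => if l ∈ S then m l - 1 else m l)
          (fun l => ?_) rfl
        · rw [← hN]
          refine Finset.sum_lt_sum (fun l _ => ?_) ⟨l0, Finset.mem_univ _, ?_⟩
          · split_ifs
            · exact Nat.sub_le _ _
            · exact le_rfl
          · rw [if_pos hl0]
            omega
        · by_cases hl : l ∈ S
          · rw [if_pos hl, Finset.piecewise_eq_of_mem _ _ _ hl]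
            exact hn l
          · rw [if_neg hl, Finset.piecewise_eq_of_notMem _ _ _ hl, map_smul, hm, smul_zero]
    · intro h
      exact absurd (Finset.mem_univ _) h

section weights

variable {R : Representation K Γ X} {χ : Γ →* K} {F : Γ} {cF : Kˣ} (hcF : (cF : K) = χ F)
  (w : Additive Kˣ →+ K)

theorem w_pow (x : Kˣ) (M : ℕ) : w (Additive.ofMul (x ^ M)) = M * w (Additive.ofMul x) := by
  rw [ofMul_pow, map_nsmul, nsmul_eq_mul]

include hcF in
/-- The weights of a joint form. -/
theorem weight_sum [IsAlgClosed K] {H : Type*} [AddCommGroup H] [Module K H]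
    [FiniteDimensional K H] (σ : Representation K Γ H) {κ : Type*} [Fintype κ] [DecidableEq κ]
    (f : MultilinearMap K (fun _ : κ => X) H) (c : ℕ)
    {Δ : Subgroup Γ} (hΔ : Δ.FiniteIndex)
    (hf : ∀ g ∈ Δ, ∀ v, f (fun l => R g (v l)) = χ g ^ c • σ g (f v)) (a : κ → Kˣ)
    {v : κ → X} (hv : ∀ l, v l ∈ Module.End.maxGenEigenspace (R F) (a l : K)) (h0 : f v ≠ 0) :
    ∃ s : Kˣ, Module.End.HasEigenvalue (σ F) (s : K) ∧
      w (Additive.ofMul s) + c * w (Additive.ofMul cF) = ∑ l, w (Additive.ofMul (a l)) := by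
  obtain ⟨M, hM0, hM⟩ := exists_pow_mem Δ hΔ F
  have hf' : ∀ v, f (fun l => (R F ^ M) (v l)) = (χ (F ^ M) ^ c • σ F ^ M) (f v) := by
    intro v
    have e1 : σ F ^ M = σ (F ^ M) := (map_pow σ F M).symm
    have e2 : R F ^ M = R (F ^ M) := (map_pow R F M).symm
    rw [LinearMap.smul_apply, e1, e2, hf _ hM]
  obtain ⟨y, hy, hy0⟩ : ∃ y, (χ (F ^ M) ^ c • σ F ^ M) y = (∏ l, (a l : K) ^ M) • y ∧ y ≠ 0 := by
    by_contra hcon
    push Not at hcon
    choose m hm using fun l => (Module.End.mem_maxGenEigenspace _ _ _).1 (hv l)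
    exact h0 (gen_joint (R F) (χ (F ^ M) ^ c • σ F ^ M) M f (fun l => (a l : K)) hf' hcon _ v m hm
      rfl)
  have hχM : χ (F ^ M) ^ c = ((cF ^ (M * c) : Kˣ) : K) := by
    rw [map_pow, ← hcF, ← pow_mul, Units.val_pow_eq_pow_val]
  have hprod : ∏ l, (a l : K) ^ M = ((∏ l, a l ^ M : Kˣ) : K) := by
    rw [Units.coe_prod]
    rfl
  rw [LinearMap.smul_apply, hχM, hprod] at hy
  have h2 : (σ F ^ M) y = (((cF ^ (M * c))⁻¹ * ∏ l, a l ^ M : Kˣ) : K) • y := by
    rw [Units.val_mul, mul_smul, ← hy, smul_smul, ← Units.val_mul, inv_mul_cancel,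
      Units.val_one, one_smul]
  obtain ⟨s, hs, hsM⟩ := exists_root (σ F) M _ hy0 h2
  have hs0 : s ≠ 0 := by
    rintro rfl
    obtain ⟨z, hz1, hz0⟩ := hs.exists_hasEigenvector
    have h3 := Module.End.mem_eigenspace_iff.1 hz1
    rw [zero_smul] at h3
    exact Rne (R := σ) F hz0 h3
  refine ⟨Units.mk0 s hs0, hs, ?_⟩
  have h4 : Units.mk0 s hs0 ^ M * cF ^ (M * c) = ∏ l, a l ^ M := by
    apply Units.ext
    rw [Units.val_mul, Units.val_pow_eq_pow_val, Units.val_mk0, hsM, ← Units.val_mul,
      mul_right_comm, inv_mul_cancel, one_mul]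
  have h5 := congrArg (fun x : Kˣ => w (Additive.ofMul x)) h4
  simp only [ofMul_mul, map_add] at h5
  rw [w_pow, w_pow, ofMul_prod, map_sum] at h5
  simp only [w_pow] at h5
  rw [← Finset.mul_sum, Nat.cast_mul] at h5
  have hMK : (M : K) ≠ 0 := Nat.cast_ne_zero.2 hM0
  apply mul_left_cancel₀ hMK
  linear_combination h5

/-- A basis of generalised eigenvectors. -/
theorem exists_gen_basis [IsAlgClosed K] [FiniteDimensional K X] (R : Representation K Γ X)
    (F : Γ) : ∃ (n : ℕ) (b : Basis (Fin n) K X) (a : Fin n → Kˣ),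
      ∀ i, b i ∈ Module.End.maxGenEigenspace (R F) (a i : K) := by
  classical
  have hint := DirectSum.isInternal_submodule_of_iSupIndep_of_iSup_eq_top
    (Module.End.independent_maxGenEigenspace (R F))
    (Module.End.iSup_maxGenEigenspace_eq_top (R F))
  let I := (ν : K) × Fin (finrank K (Module.End.maxGenEigenspace (R F) ν))
  let v : Basis I K X := hint.collectedBasis fun μ ↦ finBasis K (Module.End.maxGenEigenspace (R F) μ)
  have hv : ∀ i : I, v i ∈ Module.End.maxGenEigenspace (R F) i.1 := fun i =>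
    hint.collectedBasis_mem _ i
  have hne : ∀ i : I, i.1 ≠ 0 := by
    intro i hi
    obtain ⟨q, hq⟩ := (Module.End.mem_maxGenEigenspace _ _ _).1 (hv i)
    rw [hi, zero_smul, sub_zero, ← map_pow] at hq
    exact Rne (R := R) (F ^ q) (v.ne_zero i) hq
  have _ : Finite I := Module.Finite.finite_basis v
  have _ : Fintype I := Fintype.ofFinite I
  refine ⟨Fintype.card I, v.reindex (Fintype.equivFin I),
    fun i => Units.mk0 ((Fintype.equivFin I).symm i).1 (hne _), fun i => ?_⟩
  rw [Basis.reindex_apply]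
  exact hv _

include hcF in
theorem weight_joint [IsAlgClosed K] [FiniteDimensional K X] {H : Type*} [AddCommGroup H]
    [Module K H] [FiniteDimensional K H] (σ : Representation K Γ H) {κ : Type*} [Fintype κ]
    [DecidableEq κ]
    (f : MultilinearMap K (fun _ : κ => X) H) (c j : ℕ) (hcj : Fintype.card κ + j = 2 * c)
    {Δ : Subgroup Γ} (hΔ : Δ.FiniteIndex)
    (hf : ∀ g ∈ Δ, ∀ v, f (fun l => R g (v l)) = χ g ^ c • σ g (f v))
    (hw : ∀ s : Kˣ, Module.End.HasEigenvalue (σ F) (s : K) →
      2 * w (Additive.ofMul s) + j * w (Additive.ofMul cF) = 0)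
    {D : Module.End K X} (hD : ∀ (a : Kˣ), ∀ x ∈ Module.End.maxGenEigenspace (R F) (a : K), D x =
      (w (Additive.ofMul a) - w (Additive.ofMul cF) / 2) • x) (Λ : Dual K H) :
    Kills D (Λ.compMultilinearMap f) := by
  obtain ⟨nb, b, a, hb⟩ := exists_gen_basis R F
  refine kills_diag _ b _ (fun i => hD (a i) _ (hb i)) fun J hJ => ?_
  have hy : f (fun l => b (J l)) ≠ 0 := by
    intro h
    apply hJ
    rw [LinearMap.compMultilinearMap_apply, h, map_zero]
  obtain ⟨s, hs, h6⟩ := weight_sum hcF w σ f c hΔ hf (fun l => a (J l)) (fun l => hb _) hy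
  have h3 := hw s hs
  rw [Finset.sum_sub_distrib, Finset.sum_const, Finset.card_univ, nsmul_eq_mul, ← h6]
  have h7 : (Fintype.card κ : K) + j = 2 * c := by exact_mod_cast hcj
  linear_combination (1 / 2 : K) * h3 - (1 / 2 : K) * w (Additive.ofMul cF) * h7

include hcF in
theorem weight_skew [IsAlgClosed K] [FiniteDimensional K X] {B : X →ₗ[K] X →ₗ[K] K}
    (hB : B ∈ T2 R χ) {D : Module.End K X}
    (hD : ∀ (a : Kˣ), ∀ x ∈ Module.End.maxGenEigenspace (R F) (a : K), D x =
      (w (Additive.ofMul a) - w (Additive.ofMul cF) / 2) • x) (u v : X) :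
    B (D u) v + B u (D v) = 0 := by
  obtain ⟨Δ, hΔ, hB⟩ := hB
  refine kills_bil2.1 ?_ u v
  have h1 := weight_joint hcF w (1 : Representation K Γ K) (bil2 B) 1 0 (by simp) hΔ
    (fun g hg v => by
      rw [bil2_apply, bil2_apply, hB g hg, pow_one]
      rfl) (fun s hs => ?_) hD (LinearMap.id : K →ₗ[K] K)
  · exact h1
  · have h2 : (s : K) = 1 := by
      obtain ⟨z, hz1, hz0⟩ := hs.exists_hasEigenvector
      have h3 : z = (s : K) • z := Module.End.mem_eigenspace_iff.1 hz1
      have h4 : ((s : K) - 1) • z = 0 := by rw [sub_smul, one_smul, ← h3, sub_self]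
      exact sub_eq_zero.1 ((smul_eq_zero.1 h4).resolve_right hz0)
    have h3 : s = 1 := Units.ext h2
    rw [h3, ofMul_one, map_zero, Nat.cast_zero, zero_mul, mul_zero, add_zero]

end weights

end

end Pool.Agent.X300.KT
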