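import Mathlib
import Pool.Agent.H204R3.GP.DescentG
import Pool.Agent.H204R3.GP.Defs
import Pool.Agent.W522.U.C8

/-!
# Tate forms in four variables: from codimension two classes on the fourth power to multilinear
forms, and from the given field to an extension
-/

set_option linter.unusedSectionVars false

namespace Pool.Agent.X300.KT

open Module TensorProduct Pool.Agent.H204R3.SP Pool.Agent.H204R3.GP Pool.Agent.H204R3.CM
  Pool.Agent.W522.U

noncomputable section

variable {k : Type*} [Field k] [CharZero k] {V : Type*} [AddCommGroup V] [Module k V]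
  {Γ : Type*} [Group Γ] (ρ : Representation k Γ V) (χ : Γ →* k)

section alt2

variable {W : Type*} [AddCommGroup W] [Module k W] (B : W [⋀^Fin 2]→ₗ[k] k)

theorem alt2_add_left (x x' y : W) : B ![x + x', y] = B ![x, y] + B ![x', y] := by
  have h : ∀ z, Function.update ![x, y] 0 z = ![z, y] := by
    intro z
    funext i
    fin_cases i <;> rfl
  have h1 := B.map_update_add ![x, y] 0 x x'
  rwa [h, h, h] at h1

theorem alt2_smul_left (c : k) (x y : W) : B ![c • x, y] = c * B ![x, y] := by
  have h : ∀ z, Function.update ![x, y] 0 z = ![z, y] := by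
    intro z
    funext i
    fin_cases i <;> rfl
  have h1 := B.map_update_smul ![x, y] 0 c x
  rwa [h, h, smul_eq_mul] at h1

theorem alt2_add_right (x y y' : W) : B ![x, y + y'] = B ![x, y] + B ![x, y'] := by
  have h : ∀ z, Function.update ![x, y] 1 z = ![x, z] := by
    intro z
    funext i
    fin_cases i <;> rfl
  have h1 := B.map_update_add ![x, y] 1 y y'
  rwa [h, h, h] at h1

theorem alt2_smul_right (c : k) (x y : W) : B ![x, c • y] = c * B ![x, y] := by
  have h : ∀ z, Function.update ![x, y] 1 z = ![x, z] := by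
    intro z
    funext i
    fin_cases i <;> rfl
  have h1 := B.map_update_smul ![x, y] 1 c y
  rwa [h, h, smul_eq_mul] at h1

end alt2

/-- From alternating forms on a power to multilinear forms. -/
theorem multilinear_of_alternating {m n : ℕ} (e4 : Fin m × Fin 2 ≃ Fin n)
    (h : ∀ f : (Fin n → V) [⋀^Fin m × Fin 2]→ₗ[k] k, IsTateClass ρ χ m f →
      f ∈ Submodule.span k {g : (Fin n → V) [⋀^Fin m × Fin 2]→ₗ[k] k |
        ∃ B : Fin m → (Fin n → V) [⋀^Fin 2]→ₗ[k] k, (∀ l, IsTateClass ρ χ 1 (B l)) ∧ IsWedge B g})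
    (φ : MultilinearMap k (fun _ : Fin m × Fin 2 => V) k) (hφ : IsTate ρ χ m φ) :
    φ ∈ Submodule.span k (PT ρ χ m) := by
  classical
  let ψ : MultilinearMap k (fun _ : Fin m × Fin 2 => Fin n → V) k :=
    φ.compLinearMap (fun l => LinearMap.proj (e4 l))
  have hψ : ∀ v, ψ v = φ (fun l => v l (e4 l)) := fun v => rfl
  let F := MultilinearMap.alternatization ψ
  have hF : ∀ v, F v = ∑ σ : Equiv.Perm (Fin m × Fin 2), Equiv.Perm.sign σ •
      φ (fun l => v (σ l) (e4 l)) := by
    intro v
    rw [MultilinearMap.alternatization_apply]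
    rfl
  have hFT : IsTateClass ρ χ m F := by
    obtain ⟨Δ, hΔ, h1⟩ := hφ
    refine ⟨Δ, hΔ, fun s hs v => ?_⟩
    rw [hF, hF, Finset.mul_sum]
    refine Finset.sum_congr rfl fun σ _ => ?_
    rw [h1 s hs (fun l => v (σ l) (e4 l)), mul_smul_comm]
  -- the values on the vectors of the coordinate axes
  let ev : ((Fin n → V) [⋀^Fin m × Fin 2]→ₗ[k] k) →ₗ[k]
      MultilinearMap k (fun _ : Fin m × Fin 2 => V) k :=
    { toFun := fun f => f.toMultilinearMap.compLinearMap
        (fun l => LinearMap.single k (fun _ : Fin n => V) (e4 l))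
      map_add' := fun _ _ => rfl
      map_smul' := fun _ _ => rfl }
  have hev : ∀ f v, ev f v = f (fun l => Pi.single (e4 l) (v l)) := fun f v => rfl
  have h1 : ev F = φ := by
    ext v
    rw [hev, hF, Finset.sum_eq_single 1]
    · rw [Equiv.Perm.sign_one, one_smul]
      congr 1
      funext l
      rw [Equiv.Perm.one_apply, Pi.single_eq_same]
    · intro σ _ hσ
      obtain ⟨l, hl⟩ : ∃ l, σ l ≠ l := by
        by_contra hcon
        push Not at hcon
        exact hσ (Equiv.ext hcon)
      have h2 : φ (fun l => (Pi.single (e4 (σ l)) (v (σ l)) : Fin n → V) (e4 l)) = 0 := by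
        refine φ.map_coord_zero l ?_
        rw [Pi.single_eq_of_ne (fun h => hl (e4.injective h).symm)]
      rw [h2, smul_zero]
    · intro h2
      exact absurd (Finset.mem_univ _) h2
  rw [← h1]
  have h2 : (Submodule.span k {g : (Fin n → V) [⋀^Fin m × Fin 2]→ₗ[k] k |
        ∃ B : Fin m → (Fin n → V) [⋀^Fin 2]→ₗ[k] k, (∀ l, IsTateClass ρ χ 1 (B l)) ∧
          IsWedge B g}).map ev ≤ Submodule.span k (PT ρ χ m) := by
    rw [Submodule.map_span, Submodule.span_le]
    rintro _ ⟨g, ⟨B, hB, hg⟩, rfl⟩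
    let B' : Equiv.Perm (Fin m × Fin 2) → Fin m → (V →ₗ[k] V →ₗ[k] k) := fun τ l =>
      LinearMap.mk₂ k (fun u v => B l ![Pi.single (e4 (τ (l, 0))) u, Pi.single (e4 (τ (l, 1))) v])
        (fun u u' v => by rw [Pi.single_add, alt2_add_left])
        (fun c u v => by rw [Pi.single_smul, alt2_smul_left, smul_eq_mul])
        (fun u v v' => by rw [Pi.single_add, alt2_add_right])
        (fun c u v => by rw [Pi.single_smul, alt2_smul_right, smul_eq_mul])
    have hB' : ∀ τ l u v, B' τ l u v =
        B l ![Pi.single (e4 (τ (l, 0))) u, Pi.single (e4 (τ (l, 1))) v] := fun _ _ _ _ => rfl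
    have hB'T : ∀ τ l, IsTate2 ρ χ (B' τ l) := by
      intro τ l
      obtain ⟨Δ, hΔ, h3⟩ := hB l
      refine ⟨Δ, hΔ, fun s hs u v => ?_⟩
      have h4 := h3 s hs ![Pi.single (e4 (τ (l, 0))) u, Pi.single (e4 (τ (l, 1))) v]
      rw [pow_one] at h4
      rw [hB', hB', ← h4]
      congr 1
      funext ε i
      have h5 : ∀ (j : Fin n) (w : V), (Pi.single j (ρ s w) : Fin n → V) i =
          ρ s ((Pi.single j w : Fin n → V) i) := by
        intro j w
        by_cases hi : i = j
        · subst hi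
          rw [Pi.single_eq_same, Pi.single_eq_same]
        · rw [Pi.single_eq_of_ne hi, Pi.single_eq_of_ne hi, map_zero]
      fin_cases ε
      · exact h5 _ _
      · exact h5 _ _
    have h3 : ev g = ∑ τ : Equiv.Perm (Fin m × Fin 2), ((Equiv.Perm.sign τ : ℤ) : k) •
        mmG τ (B' τ) := by
      ext v
      rw [hev, hg, sum_apply]
      refine Finset.sum_congr rfl fun τ _ => ?_
      rw [smul_apply, smul_eq_mul, mmG_apply]
      rfl
    rw [h3]
    exact Submodule.sum_mem _ fun τ _ => Submodule.smul_mem _ _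
      (Submodule.subset_span ⟨τ, _, hB'T τ, rfl⟩)
  exact h2 (Submodule.mem_map_of_mem (h F hFT))

variable {Ω : Type*} [Field Ω] [Algebra k Ω] [CharZero Ω]
  {ν : Type*} [Fintype ν] [DecidableEq ν] (b : Basis ν k V)

theorem bcb_tate {B : V →ₗ[k] V →ₗ[k] k} (hB : IsTate2 ρ χ B) :
    IsTate2 (bcr ρ Ω) (bcc χ Ω) (bcb Ω B) := by
  obtain ⟨Δ, hΔ, h⟩ := hB
  refine ⟨Δ, hΔ, fun s hs u v => ?_⟩
  induction u with
  | zero => simp only [map_zero, LinearMap.zero_apply, mul_zero]
  | add u u' hu hu' => simp only [map_add, LinearMap.add_apply, hu, hu', mul_add]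
  | tmul a u =>
    induction v with
    | zero => simp only [map_zero, mul_zero]
    | add v v' hv hv' => simp only [map_add, hv, hv', mul_add]
    | tmul c v =>
      rw [bcr_tmul, bcr_tmul, bcb_tmul, bcb_tmul, h s hs, bcc_apply, mul_smul,
        Algebra.smul_def (χ s)]

include b in
/-- The Tate forms over an extension. -/
theorem tate_ext {m : ℕ}
    (hall : ∀ φ : MultilinearMap k (fun _ : Fin m × Fin 2 => V) k, IsTate ρ χ m φ →
      φ ∈ Submodule.span k (PT ρ χ m))
    (φ : MultilinearMap Ω (fun _ : Fin m × Fin 2 => Ω ⊗[k] V) Ω)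
    (hφ : IsTate (bcr ρ Ω) (bcc χ Ω) m φ) : φ ∈ Submodule.span Ω (PT (bcr ρ Ω) (bcc χ Ω) m) := by
  classical
  let w := Basis.ofVectorSpace k Ω
  -- the components
  let inc : V →ₗ[k] Ω ⊗[k] V := TensorProduct.mk k Ω V 1
  let cmp : (Basis.ofVectorSpaceIndex k Ω) → MultilinearMap k (fun _ : Fin m × Fin 2 => V) k :=
    fun i => (w.coord i).compMultilinearMap ((φ.restrictScalars k).compLinearMap (fun _ => inc))
  have hcmp : ∀ i v, cmp i v = w.repr (φ (fun l => (1 : Ω) ⊗ₜ[k] v l)) i := fun i v => rfl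
  have hcT : ∀ i, IsTate ρ χ m (cmp i) := by
    intro i
    obtain ⟨Δ, hΔ, h⟩ := hφ
    refine ⟨Δ, hΔ, fun s hs v => ?_⟩
    rw [hcmp, hcmp]
    have h1 := h s hs (fun l => (1 : Ω) ⊗ₜ[k] v l)
    have h2 : (fun l => bcr ρ Ω s ((1 : Ω) ⊗ₜ[k] v l)) = fun l => (1 : Ω) ⊗ₜ[k] ρ s (v l) := rfl
    rw [h2, bcc_apply, ← map_pow, ← Algebra.smul_def] at h1
    rw [h1, map_smul, Finsupp.smul_apply, smul_eq_mul]
  let F : Finset (Basis.ofVectorSpaceIndex k Ω) :=
    Finset.univ.biUnion (fun I : Fin m × Fin 2 → ν =>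
      (w.repr (φ (fun l => (1 : Ω) ⊗ₜ[k] b (I l)))).support)
  have h1 : φ = ∑ i ∈ F, w i • bcm (Ω := Ω) b (cmp i) := by
    refine Basis.ext_multilinear (fun _ => b.baseChange Ω) fun I => ?_
    rw [sum_apply]
    have h2 : ∀ i, (w i • bcm (Ω := Ω) b (cmp i)) (fun l => b.baseChange Ω (I l)) =
        w.repr (φ (fun l => (1 : Ω) ⊗ₜ[k] b (I l))) i • w i := by
      intro i
      rw [smul_apply, bcm_basis, hcmp, smul_eq_mul, Algebra.smul_def, mul_comm]
    rw [Finset.sum_congr rfl fun i _ => h2 i]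
    have h3 : (fun l => b.baseChange Ω (I l)) = fun l => (1 : Ω) ⊗ₜ[k] b (I l) := by
      funext l
      rw [Basis.baseChange_apply]
    rw [h3]
    conv_lhs => rw [← w.linearCombination_repr (φ (fun l => (1 : Ω) ⊗ₜ[k] b (I l))),
      Finsupp.linearCombination_apply]
    refine Finsupp.sum_of_support_subset _ ?_ (fun i a => a • w i) (fun i _ => zero_smul _ _)
    exact Finset.subset_biUnion_of_mem
      (fun I : Fin m × Fin 2 → ν => (w.repr (φ (fun l => (1 : Ω) ⊗ₜ[k] b (I l)))).support)
      (Finset.mem_univ I)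
  rw [h1]
  refine Submodule.sum_mem _ fun i _ => Submodule.smul_mem _ _ ?_
  -- the base change of a combination of products
  have key : ∀ ψ ∈ Submodule.span k (PT ρ χ m),
      bcm (Ω := Ω) b ψ ∈ Submodule.span Ω (PT (bcr ρ Ω) (bcc χ Ω) m) := by
    intro ψ hψ
    induction hψ using Submodule.span_induction with
    | mem ψ hψ =>
      obtain ⟨σ, B, hB, rfl⟩ := hψ
      refine Submodule.subset_span ⟨σ, fun l => bcb Ω (B l), fun l => bcb_tate ρ χ (hB l), ?_⟩
      refine Basis.ext_multilinear (fun _ => b.baseChange Ω) fun I => ?_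
      rw [bcm_basis, mmG_apply, mmG_apply, map_prod]
      refine Finset.prod_congr rfl fun s _ => ?_
      rw [Basis.baseChange_apply, Basis.baseChange_apply, bcb_one]
    | zero =>
      have h3 : bcm (Ω := Ω) b (0 : MultilinearMap k (fun _ : Fin m × Fin 2 => V) k) = 0 := by
        refine Basis.ext_multilinear (fun _ => b.baseChange Ω) fun I => ?_
        rw [bcm_basis, zero_apply, zero_apply, map_zero]
      rw [h3]
      exact Submodule.zero_mem _
    | add x y _ _ hx hy =>
      have h3 : bcm (Ω := Ω) b (x + y) = bcm (Ω := Ω) b x + bcm (Ω := Ω) b y := by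
        refine Basis.ext_multilinear (fun _ => b.baseChange Ω) fun I => ?_
        rw [add_apply, bcm_basis, bcm_basis, bcm_basis, add_apply, map_add]
      rw [h3]
      exact Submodule.add_mem _ hx hy
    | smul c x _ hx =>
      have h3 : bcm (Ω := Ω) b (c • x) = algebraMap k Ω c • bcm (Ω := Ω) b x := by
        refine Basis.ext_multilinear (fun _ => b.baseChange Ω) fun I => ?_
        rw [smul_apply, bcm_basis, bcm_basis, smul_apply, smul_eq_mul, map_mul, smul_eq_mul]
      rw [h3]
      exact Submodule.smul_mem _ _ hx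
  exact key _ (hall _ (hcT i))

end

end Pool.Agent.X300.KT
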