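import Mathlib
import Pool.Agent.W522.U.C9
import Pool.Agent.X300.KT.Up
import Pool.Agent.X300.KT.Sep

/-!
# Joint Tate forms over the given field
-/

set_option linter.unusedSectionVars false

namespace Pool.Agent.X300.KT

open Module TensorProduct Pool.Agent.H204R3.SP Pool.Agent.H204R3.GP Pool.Agent.H204R3.CM
  Pool.Agent.W522.U

noncomputable section

variable {k : Type*} [Field k] [CharZero k] {V : Type*} [AddCommGroup V] [Module k V]
  {H : Type*} [AddCommGroup H] [Module k H] {Γ : Type*} [Group Γ]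
  (ρ : Representation k Γ V) (χ : Γ →* k) (σ : Representation k Γ H)
  {ν η : Type*} [Fintype ν] [DecidableEq ν] [Fintype η] (b : Basis ν k V) (hb : Basis η k H)
  {Ω : Type*} [Field Ω] [Algebra k Ω] [CharZero Ω] {κ : Type*} [Fintype κ] [DecidableEq κ]

variable (Ω) in
/-- The base change of a multilinear map with values in `H`. -/
def fK (f : MultilinearMap k (fun _ : κ => V) H) :
    MultilinearMap Ω (fun _ : κ => Ω ⊗[k] V) (Ω ⊗[k] H) :=
  ∑ i, (bcm (Ω := Ω) b ((hb.coord i).compMultilinearMap f)).smulRight ((1 : Ω) ⊗ₜ[k] hb i)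

theorem fK_one (f : MultilinearMap k (fun _ : κ => V) H) (v : κ → V) :
    fK b hb Ω f (fun l => (1 : Ω) ⊗ₜ[k] v l) = (1 : Ω) ⊗ₜ[k] f v := by
  unfold fK
  rw [sum_apply]
  conv_rhs => rw [← hb.sum_repr (f v), TensorProduct.tmul_sum]
  refine Finset.sum_congr rfl fun i _ => ?_
  rw [MultilinearMap.smulRight_apply, bcm_one, TensorProduct.tmul_smul, algebraMap_smul]
  rfl

theorem fK_equiv (f : MultilinearMap k (fun _ : κ => V) H) (c : ℕ) {g : Γ}
    (hf : ∀ v, f (fun l => ρ g (v l)) = χ g ^ c • σ g (f v)) (v : κ → Ω ⊗[k] V) :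
    fK b hb Ω f (fun l => bcr ρ Ω g (v l)) =
      bcc χ Ω g ^ c • bcr σ Ω g (fK b hb Ω f v) := by
  have h1 : (fK b hb Ω f).compLinearMap (fun _ => bcr ρ Ω g) =
      ((bcc χ Ω g ^ c) • (bcr σ Ω g)).compMultilinearMap (fK b hb Ω f) := by
    refine Basis.ext_multilinear (fun _ => b.baseChange Ω) fun I => ?_
    have h2 : (fun l => b.baseChange Ω (I l)) = fun l => (1 : Ω) ⊗ₜ[k] b (I l) := by
      funext l
      rw [Basis.baseChange_apply]
    rw [h2]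
    change fK b hb Ω f (fun l => (1 : Ω) ⊗ₜ[k] ρ g (b (I l))) =
      bcc χ Ω g ^ c • bcr σ Ω g (fK b hb Ω f fun l => (1 : Ω) ⊗ₜ[k] b (I l))
    rw [fK_one, fK_one, hf, bcr_tmul, bcc_apply, ← map_pow (algebraMap k Ω),
      algebraMap_smul, TensorProduct.tmul_smul]
  exact congrArg (fun F : MultilinearMap Ω (fun _ : κ => Ω ⊗[k] V) (Ω ⊗[k] H) => F v) h1

variable (Ω) in
/-- Operators on `Ω ⊗ V` which separate `V` from `H`. -/
def Sep1 (j : ℕ) (x : Module.End Ω (Ω ⊗[k] V)) : Prop :=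
  (∃ γ : Γ, (ρ γ - 1) * (ρ γ - 1) = 0 ∧ (∃ q : ℕ, q ≠ 0 ∧ σ γ ^ q = 1) ∧
    x = (ρ γ - 1).baseChange Ω) ∨
  ∃ (F : Γ) (w : Additive Ωˣ →+ Ω) (cF : Ωˣ), (cF : Ω) = algebraMap k Ω (χ F) ∧
    (∀ a : Ωˣ, ∀ v ∈ Module.End.maxGenEigenspace ((ρ F).baseChange Ω) (a : Ω),
      x v = (w (Additive.ofMul a) - w (Additive.ofMul cF) / 2) • v) ∧
    ∀ s : Ωˣ, Module.End.HasEigenvalue ((σ F).baseChange Ω) (s : Ω) →
      2 * w (Additive.ofMul s) + j * w (Additive.ofMul cF) = 0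

/-- The forms `Λ ∘ f`. -/
def SF (f : MultilinearMap k (fun _ : κ => V) H) :
    Set (MultilinearMap Ω (fun _ : κ => Ω ⊗[k] V) Ω) :=
  {φ | ∃ Λ : Dual Ω (Ω ⊗[k] H), φ = Λ.compMultilinearMap (fK b hb Ω f)}

variable [FiniteDimensional k V] [FiniteDimensional k H] [IsAlgClosed Ω]

theorem sep_mem (ω : V →ₗ[k] V →ₗ[k] k) (hl : ∀ u, (∀ v, ω u v = 0) → u = 0)
    (hr : ∀ u, (∀ v, ω v u = 0) → u = 0)
    (hωρ : ∀ s u v, ω (ρ s u) (ρ s v) = χ s * ω u v)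
    (f : MultilinearMap k (fun _ : κ => V) H) (c j : ℕ) (hcj : Fintype.card κ + j = 2 * c)
    {Δ : Subgroup Γ} (hΔ : Δ.FiniteIndex)
    (hf : ∀ g ∈ Δ, ∀ v, f (fun l => ρ g (v l)) = χ g ^ c • σ g (f v))
    {x : Module.End Ω (Ω ⊗[k] V)} (hx : Sep1 ρ χ σ Ω j x) :
    x ∈ LL (T2 (bcr ρ Ω) (bcc χ Ω)) (SF b hb (Ω := Ω) f) := by
  have hf' : ∀ g ∈ Δ, ∀ v : κ → Ω ⊗[k] V, fK b hb Ω f (fun l => bcr ρ Ω g (v l)) =
      bcc χ Ω g ^ c • bcr σ Ω g (fK b hb Ω f v) :=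
    fun g hg => fK_equiv ρ χ σ b hb f c (hf g hg)
  rcases hx with ⟨γ, h2, ⟨q, hq0, hq⟩, rfl⟩ | ⟨F, w, cF, hcF, hD, hw⟩
  · have hxe : (ρ γ - 1).baseChange Ω = bcr ρ Ω γ - 1 := by
      rw [LinearMap.baseChange_sub]
      congr 1
      exact LinearMap.baseChange_id
    have h2' : (bcr ρ Ω γ - 1) * (bcr ρ Ω γ - 1) = 0 := by
      rw [← hxe, ← LinearMap.baseChange_mul, h2, LinearMap.baseChange_zero]
    rw [hxe]
    by_cases h0 : bcr ρ Ω γ - 1 = 0
    · rw [h0]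
      exact Submodule.zero_mem _
    · obtain ⟨u, hu⟩ : ∃ u, (bcr ρ Ω γ - 1) u ≠ 0 := by
        by_contra hcon
        push Not at hcon
        exact h0 (LinearMap.ext hcon)
      have hχ : bcc χ Ω γ = 1 := unip_chi (bcb Ω ω) (bcb_nondeg_left ω hr hl)
        (fun g u v => bcb_inv ρ χ ω hωρ g u v) γ h2' hu
      refine ⟨fun B hB u v => lieT_bil _ _ hB (unip_lieT _ _ γ h2' hχ) u v, ?_⟩
      rintro _ ⟨Λ, rfl⟩
      obtain ⟨M, hM0, hM⟩ := exists_pow_mem Δ hΔ γ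
      refine kills_unip (bcr ρ Ω) γ h2' (M := M * q) (Nat.mul_ne_zero hM0 hq0) _ fun i v => ?_
      have h3 : γ ^ (i * (M * q)) ∈ Δ := by
        have h4 : γ ^ (i * (M * q)) = (γ ^ M) ^ (i * q) := by
          rw [← pow_mul]
          congr 1
          ring
        rw [h4]
        exact Δ.pow_mem hM _
      have h4 : σ (γ ^ (i * (M * q))) = 1 := by
        have h5 : i * (M * q) = q * (i * M) := by ring
        rw [h5, pow_mul, map_pow, map_pow, hq, one_pow]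
      rw [LinearMap.compMultilinearMap_apply, LinearMap.compMultilinearMap_apply, hf' _ h3, map_pow,
        hχ, one_pow, one_pow, one_smul]
      congr 1
      have h5 : bcr σ Ω (γ ^ (i * (M * q))) = 1 := by
        change (σ (γ ^ (i * (M * q)))).baseChange Ω = 1
        rw [h4]
        exact LinearMap.baseChange_id
      rw [h5]
      rfl
  · refine ⟨fun B hB u v => weight_skew (R := bcr ρ Ω) (χ := bcc χ Ω) hcF w hB hD u v, ?_⟩
    rintro _ ⟨Λ, rfl⟩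
    exact weight_joint (R := bcr ρ Ω) (χ := bcc χ Ω) hcF w (bcr σ Ω) (fK b hb Ω f) c j hcj
      hΔ hf' hw hD Λ

/-- Descent of a form whose extension is a combination of products. -/
theorem descend_mem {m : ℕ} (φ : MultilinearMap k (fun _ : Fin m × Fin 2 => V) k)
    (Φ : MultilinearMap Ω (fun _ : Fin m × Fin 2 => Ω ⊗[k] V) Ω)
    (hΦ : Φ ∈ Submodule.span Ω (PT (bcr ρ Ω) (bcc χ Ω) m))
    (h : ∀ v, Φ (fun l => (1 : Ω) ⊗ₜ[k] v l) = algebraMap k Ω (φ v)) :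
    φ ∈ Submodule.span k (PT ρ χ m) := by
  classical
  let b := Module.finBasis k V
  let w := Basis.ofVectorSpace k Ω
  let res : MultilinearMap Ω (fun _ : Fin m × Fin 2 => Ω ⊗[k] V) Ω →ₗ[Ω]
      ((Fin m × Fin 2 → V) → Ω) :=
    { toFun := fun F v => F (fun l => (1 : Ω) ⊗ₜ[k] v l)
      map_add' := fun _ _ => rfl
      map_smul' := fun _ _ => rfl }
  let emb : MultilinearMap k (fun _ : Fin m × Fin 2 => V) k →ₗ[k]
      ((Fin m × Fin 2 → V) → k) :=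
    { toFun := fun F v => F v
      map_add' := fun _ _ => rfl
      map_smul' := fun _ _ => rfl }
  have h2 : res Φ = fun v => algebraMap k Ω (φ v) := funext h
  have h3 : (fun v => algebraMap k Ω (φ v)) ∈ Submodule.span Ω
      {g : (Fin m × Fin 2 → V) → Ω | ∃ s ∈ emb '' (PT ρ χ m),
        g = fun x => algebraMap k Ω (s x)} := by
    rw [← h2]
    have h4 : (Submodule.span Ω (PT (bcr ρ Ω) (bcc χ Ω) m)).map res ≤ Submodule.span Ω
      {g : (Fin m × Fin 2 → V) → Ω | ∃ s ∈ emb '' (PT ρ χ m),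
        g = fun x => algebraMap k Ω (s x)} := by
      rw [Submodule.map_span, Submodule.span_le]
      rintro _ ⟨_, ⟨σ, B, hB, rfl⟩, rfl⟩
      -- finitely many components
      let F : Finset (Basis.ofVectorSpaceIndex k Ω) := Finset.univ.biUnion (fun l : Fin m =>
        Finset.univ.biUnion (fun i : Fin (finrank k V) =>
          Finset.univ.biUnion (fun i' : Fin (finrank k V) =>
          (w.repr (B l ((1 : Ω) ⊗ₜ[k] b i) ((1 : Ω) ⊗ₜ[k] b i'))).support)))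
      have h6 : ∀ (l : Fin m) (u v : V), B l ((1 : Ω) ⊗ₜ[k] u) ((1 : Ω) ⊗ₜ[k] v) =
          ∑ i ∈ F, w i * algebraMap k Ω (compG w (B l) i u v) := by
        intro l u v
        have h7 : (w.repr (B l ((1 : Ω) ⊗ₜ[k] u) ((1 : Ω) ⊗ₜ[k] v))).support ⊆ F := by
          intro i hi
          by_contra hiF
          rw [Finsupp.mem_support_iff] at hi
          apply hi
          have h8 : compG w (B l) i = 0 := by
            refine b.ext fun a => b.ext fun a' => ?_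
            rw [compG_apply, LinearMap.zero_apply, LinearMap.zero_apply]
            by_contra h9
            apply hiF
            simp only [F, Finset.mem_biUnion, Finset.mem_univ, true_and]
            exact ⟨l, a, a', Finsupp.mem_support_iff.2 h9⟩
          rw [← compG_apply, h8]
          rfl
        conv_lhs => rw [← w.linearCombination_repr (B l ((1 : Ω) ⊗ₜ[k] u) ((1 : Ω) ⊗ₜ[k] v)),
          Finsupp.linearCombination_apply, Finsupp.sum_of_support_subset _ h7 (fun i a => a • w i) (fun i _ => zero_smul _ _)]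
        refine Finset.sum_congr rfl fun i _ => ?_
        rw [compG_apply, Algebra.smul_def, mul_comm]
      have h5 : res (mmG σ B) = ∑ g ∈ Fintype.piFinset (fun _ : Fin m => F), (∏ l, w (g l)) •
          (fun v => algebraMap k Ω (mmG σ (fun l => compG w (B l) (g l)) v)) := by
        funext v
        rw [Finset.sum_apply]
        change mmG σ B (fun l => (1 : Ω) ⊗ₜ[k] v l) = _
        rw [mmG_apply]
        rw [Finset.prod_congr rfl (fun l _ => h6 l _ _), Finset.prod_univ_sum]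
        refine Finset.sum_congr rfl fun g _ => ?_
        rw [Finset.prod_mul_distrib, Pi.smul_apply, smul_eq_mul, mmG_apply, map_prod]
      rw [h5]
      refine Submodule.sum_mem _ fun g _ => Submodule.smul_mem _ _ (Submodule.subset_span ?_)
      exact ⟨_, ⟨_, ⟨σ, _, fun l => compG_tate ρ χ w (hB l) (g l), rfl⟩, rfl⟩, rfl⟩
    exact h4 (Submodule.mem_map_of_mem hΦ)
  have h4 := span_descent_k _ _ h3
  rw [← Submodule.map_span] at h4
  obtain ⟨φ', hφ', hφφ⟩ := h4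
  have h6 : φ' = φ := MultilinearMap.ext fun v => congrFun hφφ v
  rwa [← h6]

/-- The hypotheses on the abelian variety and on the operators which separate it from `H`. -/
structure Hyp (Ω : Type*) [Field Ω] [Algebra k Ω] (j : ℕ) : Prop where
  symp : ∀ U, SI (bcr ρ Ω) U → Du (bcr ρ Ω) (bcc χ Ω) U U → ∃ Δ : Subgroup Γ, Δ.FiniteIndex ∧
      ∃ B : (Ω ⊗[k] V) →ₗ[Ω] (Ω ⊗[k] V) →ₗ[Ω] Ω, (∃ u ∈ U, ∃ v ∈ U, B u v ≠ 0) ∧
        (∀ u ∈ U, B u u = 0) ∧
        ∀ g ∈ Δ, ∀ u ∈ U, ∀ v ∈ U, B (bcr ρ Ω g u) (bcr ρ Ω g v) = bcc χ Ω g * B u v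
  four : ∀ φ : MultilinearMap k (fun _ : Fin 2 × Fin 2 => V) k, IsTate ρ χ 2 φ →
      φ ∈ Submodule.span k (PT ρ χ 2)
  nonscalar : ∀ U, SI (bcr ρ Ω) U → 2 ≤ finrank Ω U →
      ∃ x, Sep1 ρ χ σ Ω j x ∧ ∀ c : Ω, ∃ u ∈ U, x u ≠ c • u
  traces : ∀ (q : ℕ) (U : Fin q → Submodule Ω (Ω ⊗[k] V)), (∀ i, SI (bcr ρ Ω) (U i)) →
      (∀ i j, ¬Du (bcr ρ Ω) (bcc χ Ω) (U i) (U j)) →
      (∀ i j, Tw (bcr ρ Ω) (fun _ => 1) (U i) (U j) → i = j) →
      ∀ d : Fin q → Ω, d ≠ 0 → ∃ x, Sep1 ρ χ σ Ω j x ∧ ∃ h : ∀ i, ∀ u ∈ U i, x u ∈ U i,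
        ∑ i, d i * LinearMap.trace Ω (U i) (x.restrict (h i)) ≠ 0

variable [Algebra.IsAlgebraic k Ω]

/-- The main theorem for multilinear forms. -/
theorem joint_K (hss : FiniteIndexSemisimple ρ) (ω : V →ₗ[k] V →ₗ[k] k)
    (hl : ∀ u, (∀ v, ω u v = 0) → u = 0) (hr : ∀ u, (∀ v, ω v u = 0) → u = 0)
    (hωρ : ∀ s u v, ω (ρ s u) (ρ s v) = χ s * ω u v) {κ : Type} [Fintype κ] [DecidableEq κ]
    (f : MultilinearMap k (fun _ : κ => V) H) (c j : ℕ) (hcj : Fintype.card κ + j = 2 * c)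
    (hyp : Hyp ρ χ σ Ω j) {Δ : Subgroup Γ} (hΔ : Δ.FiniteIndex)
    (hf : ∀ g ∈ Δ, ∀ v, f (fun l => ρ g (v l)) = χ g ^ c • σ g (f v))
    {φ : MultilinearMap Ω (fun _ : κ => Ω ⊗[k] V) Ω} (hφ : φ ∈ SF b hb (Ω := Ω) f) :
    (∀ m, Fintype.card κ = 2 * m →
      φ ∈ Submodule.span Ω (ProdT (T2 (bcr ρ Ω) (bcc χ Ω)) κ m)) ∧
    (Odd (Fintype.card κ) → φ = 0) := by
  classical
  have hsep := fun (x : Module.End Ω (Ω ⊗[k] V)) (hx : Sep1 ρ χ σ Ω j x) =>
    sep_mem ρ χ σ b hb ω hl hr hωρ f c j hcj hΔ hf hx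
  refine K_main (hasProj_bcr ρ Ω hss) (bcb Ω ω) (bcb_nondeg_left ω hr hl)
    (fun g u v => bcb_inv ρ χ ω hωρ g u v) hyp.symp
    (tate_ext ρ χ b hyp.four) (SF b hb (Ω := Ω) f) hΔ ?_ ?_ ?_ hφ
  · rintro g hg _ ⟨Λ, rfl⟩
    refine ⟨bcc χ Ω g ^ c, _, ⟨Λ.comp (bcr σ Ω g), rfl⟩, fun v => ?_⟩
    rw [LinearMap.compMultilinearMap_apply, LinearMap.compMultilinearMap_apply,
      fK_equiv ρ χ σ b hb f c (hf g hg), map_smul, smul_eq_mul]
    rfl
  · intro U hU h2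
    obtain ⟨x, hx, hxc⟩ := hyp.nonscalar U hU h2
    exact ⟨x, hsep x hx, hxc⟩
  · intro q U h1 h2 h3 d hd
    obtain ⟨x, hx, hxc⟩ := hyp.traces q U h1 h2 h3 d hd
    exact ⟨x, hsep x hx, hxc⟩

/-- The components of a joint Tate form are combinations of products. -/
theorem joint_even (hss : FiniteIndexSemisimple ρ) (ω : V →ₗ[k] V →ₗ[k] k)
    (hl : ∀ u, (∀ v, ω u v = 0) → u = 0) (hr : ∀ u, (∀ v, ω v u = 0) → u = 0)
    (hωρ : ∀ s u v, ω (ρ s u) (ρ s v) = χ s * ω u v) {m : ℕ}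
    (f : MultilinearMap k (fun _ : Fin m × Fin 2 => V) H) (c j : ℕ) (hcj : 2 * m + j = 2 * c)
    (hyp : Hyp ρ χ σ Ω j) {Δ : Subgroup Γ} (hΔ : Δ.FiniteIndex)
    (hf : ∀ g ∈ Δ, ∀ v, f (fun l => ρ g (v l)) = χ g ^ c • σ g (f v)) (lam : Dual k H) :
    lam.compMultilinearMap f ∈ Submodule.span k (PT ρ χ m) := by
  classical
  let b := Module.finBasis k V
  let hb := Module.finBasis k H
  have hcard : Fintype.card (Fin m × Fin 2) = 2 * m := by
    rw [Fintype.card_prod, Fintype.card_fin, Fintype.card_fin, mul_comm]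
  -- the functional over the extension
  let Λ : Dual Ω (Ω ⊗[k] H) := Module.Dual.baseChange Ω lam
  have hΛ : ∀ h : H, Λ ((1 : Ω) ⊗ₜ[k] h) = algebraMap k Ω (lam h) := by
    intro h
    rw [Module.Dual.baseChange_apply_tmul, Algebra.algebraMap_eq_smul_one]
  have h1 := (joint_K ρ χ σ b hb (Ω := Ω) hss ω hl hr hωρ f c j (by rw [hcard]; exact hcj) hyp hΔ
    hf (φ := Λ.compMultilinearMap (fK b hb Ω f)) ⟨Λ, rfl⟩).1 m hcard
  have h2 : Submodule.span Ω (ProdT (T2 (bcr ρ Ω) (bcc χ Ω)) (Fin m × Fin 2) m) ≤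
      Submodule.span Ω (PT (bcr ρ Ω) (bcc χ Ω) m) := by
    refine Submodule.span_mono ?_
    rintro ψ ⟨e, B, hB, hψ⟩
    exact ⟨e, B, hB, MultilinearMap.ext fun v => by rw [hψ, mmG_apply]⟩
  refine descend_mem ρ χ (Ω := Ω) _ _ (h2 h1) fun v => ?_
  rw [LinearMap.compMultilinearMap_apply, fK_one, hΛ]
  rfl

/-- Joint Tate forms in an odd number of variables vanish. -/
theorem joint_odd (hss : FiniteIndexSemisimple ρ) (ω : V →ₗ[k] V →ₗ[k] k)
    (hl : ∀ u, (∀ v, ω u v = 0) → u = 0) (hr : ∀ u, (∀ v, ω v u = 0) → u = 0)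
    (hωρ : ∀ s u v, ω (ρ s u) (ρ s v) = χ s * ω u v) {κ : Type} [Fintype κ] [DecidableEq κ]
    (f : MultilinearMap k (fun _ : κ => V) H) (c j : ℕ) (hcj : Fintype.card κ + j = 2 * c)
    (hodd : Odd (Fintype.card κ))
    (hyp : Hyp ρ χ σ Ω j) {Δ : Subgroup Γ} (hΔ : Δ.FiniteIndex)
    (hf : ∀ g ∈ Δ, ∀ v, f (fun l => ρ g (v l)) = χ g ^ c • σ g (f v)) : f = 0 := by
  classical
  let b := Module.finBasis k V
  let hb := Module.finBasis k H
  ext v
  rw [zero_apply, ← Module.forall_dual_apply_eq_zero_iff k]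
  intro lam
  let Λ : Dual Ω (Ω ⊗[k] H) := Module.Dual.baseChange Ω lam
  have hΛ : ∀ h : H, Λ ((1 : Ω) ⊗ₜ[k] h) = algebraMap k Ω (lam h) := by
    intro h
    rw [Module.Dual.baseChange_apply_tmul, Algebra.algebraMap_eq_smul_one]
  have h1 := (joint_K ρ χ σ b hb (Ω := Ω) hss ω hl hr hωρ f c j hcj hyp hΔ
    hf (φ := Λ.compMultilinearMap (fK b hb Ω f)) ⟨Λ, rfl⟩).2 hodd
  have h2 := congrArg (fun F : MultilinearMap Ω (fun _ : κ => Ω ⊗[k] V) Ω =>
    F (fun l => (1 : Ω) ⊗ₜ[k] v l)) h1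
  change Λ (fK b hb Ω f (fun l => (1 : Ω) ⊗ₜ[k] v l)) = 0 at h2
  rw [fK_one, hΛ] at h2
  exact (map_eq_zero_iff _ (algebraMap k Ω).injective).1 h2

end

end Pool.Agent.X300.KT
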