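import Mathlib
import Pool.Agent.X300.KT.Top

/-!
# Classes on the product of a power of an abelian variety and another variety
-/

set_option linter.unusedSectionVars false

namespace Pool.Agent.X300.KT

open Module TensorProduct Pool.Agent.H204R3.SP Pool.Agent.H204R3.GP Pool.Agent.H204R3.CM
  Pool.Agent.W522.U

noncomputable section

variable {k : Type*} [Field k] [CharZero k] {V : Type*} [AddCommGroup V] [Module k V]
  {H : Type*} [AddCommGroup H] [Module k H] {Γ : Type*} [Group Γ]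
  (ρ : Representation k Γ V) (χ : Γ →* k) (σ : Representation k Γ H)

/-- Alternating forms on `V ^ n` whose components are combinations of products. -/
theorem alt_of_components {n m : ℕ} (f : (Fin n → V) [⋀^Fin m × Fin 2]→ₗ[k] k)
    (hall : ∀ c : Fin m × Fin 2 → Fin n, f.toMultilinearMap.compLinearMap
      (fun l => LinearMap.single k (fun _ : Fin n => V) (c l)) ∈ Submodule.span k (PT ρ χ m)) :
    f ∈ Submodule.span k {g : (Fin n → V) [⋀^Fin m × Fin 2]→ₗ[k] k |
      ∃ B : Fin m → (Fin n → V) [⋀^Fin 2]→ₗ[k] k, (∀ l, IsTateClass ρ χ 1 (B l)) ∧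
        IsWedge B g} := by
  classical
  let BB : Set (MultilinearMap k (fun _ : Fin 2 => Fin n → V) k) :=
    {B | ∃ Δ : Subgroup Γ, Δ.FiniteIndex ∧ ∀ s ∈ Δ, ∀ v : Fin 2 → Fin n → V,
      B (fun ε i => ρ s (v ε i)) = χ s * B v}
  have hmem : (fun v => f v) ∈ Submodule.span k {g : (Fin m × Fin 2 → Fin n → V) → k |
      ∃ (e : Equiv.Perm (Fin m × Fin 2))
        (B : Fin m → MultilinearMap k (fun _ : Fin 2 => Fin n → V) k),
        (∀ s, B s ∈ BB) ∧ g = fun v => ∏ s, B s (fun ε => v (e (s, ε)))} := by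
    let fc : (Fin m × Fin 2 → Fin n) → MultilinearMap k (fun _ : Fin m × Fin 2 => V) k := fun c =>
      f.toMultilinearMap.compLinearMap (fun l => LinearMap.single k (fun _ : Fin n => V) (c l))
    have hsum : (fun v => f v) = ∑ c : Fin m × Fin 2 → Fin n,
        (fun v : Fin m × Fin 2 → Fin n → V => fc c (fun l => v l (c l))) := by
      funext v
      rw [Finset.sum_apply]
      have h1 : v = fun l => ∑ i, Pi.single i (v l i) := by
        funext l
        exact (Finset.univ_sum_single (v l)).symm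
      conv_lhs => rw [h1]
      exact f.toMultilinearMap.map_sum (fun l i => Pi.single i (v l i))
    rw [hsum]
    refine Submodule.sum_mem _ fun c _ => ?_
    have h2 := hall c
    have h3 : ∀ φ ∈ Submodule.span k (PT ρ χ m),
        (fun v : Fin m × Fin 2 → Fin n → V => φ (fun l => v l (c l))) ∈
        Submodule.span k {g : (Fin m × Fin 2 → Fin n → V) → k |
      ∃ (e : Equiv.Perm (Fin m × Fin 2))
        (B : Fin m → MultilinearMap k (fun _ : Fin 2 => Fin n → V) k),
        (∀ s, B s ∈ BB) ∧ g = fun v => ∏ s, B s (fun ε => v (e (s, ε)))} := by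
      intro φ hφ
      induction hφ using Submodule.span_induction with
      | mem φ hφ =>
        obtain ⟨σ, B, hB, rfl⟩ := hφ
        refine Submodule.subset_span ⟨σ, fun s => bil2 ((B s).compl₁₂
          (LinearMap.proj (c (σ (s, 0)))) (LinearMap.proj (c (σ (s, 1))))), fun s => ?_, ?_⟩
        · obtain ⟨Δ', hΔ', hB'⟩ := hB s
          refine ⟨Δ', hΔ', fun t ht v => ?_⟩
          rw [bil2_apply, bil2_apply]
          exact hB' t ht _ _
        · funext v
          rw [mmG_apply]
          rfl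
      | zero => exact Submodule.zero_mem _
      | add a b _ _ ha hb => exact Submodule.add_mem _ ha hb
      | smul c a _ ha => exact Submodule.smul_mem _ c ha
    exact h3 _ h2
  have h1 := alt_span BB f hmem
  refine Submodule.span_mono ?_ h1
  rintro g ⟨B, hB, hg⟩
  refine ⟨fun l => MultilinearMap.alternatization (B l), fun l => ?_, hg⟩
  obtain ⟨Δ', hΔ', hB'⟩ := hB l
  refine ⟨Δ', hΔ', fun s hs v => ?_⟩
  rw [MultilinearMap.alternatization_apply, MultilinearMap.alternatization_apply, Finset.mul_sum]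
  refine Finset.sum_congr rfl fun σ _ => ?_
  rw [mul_smul_comm, pow_one]
  congr 1
  exact hB' s hs (fun ε => v (σ ε))

theorem alt_sum_apply {W : Type*} [AddCommGroup W] [Module k W] {κ ι : Type*} (S : Finset ι)
    (g : ι → W [⋀^κ]→ₗ[k] k) (v : κ → W) : (∑ i ∈ S, g i) v = ∑ i ∈ S, g i v := by
  let ev : (W [⋀^κ]→ₗ[k] k) →+ k :=
    { toFun := fun F => F v
      map_zero' := rfl
      map_add' := fun _ _ => rfl }
  exact map_sum ev g S

/-- A map whose coordinates are combinations of given forms. -/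
theorem tensor_dec [FiniteDimensional k H] {W : Type*} [AddCommGroup W] [Module k W]
    {κ : Type*} (𝒲 : Set (W [⋀^κ]→ₗ[k] k)) (f : W [⋀^κ]→ₗ[k] H)
    (h : ∀ lam : Dual k H, lam.compAlternatingMap f ∈ Submodule.span k 𝒲) :
    ∃ (r : ℕ) (g : Fin r → W [⋀^κ]→ₗ[k] k) (y : Fin r → H), (∀ i, g i ∈ 𝒲) ∧
      LinearIndependent k g ∧ ∀ v, f v = ∑ i, g i v • y i := by
  classical
  obtain ⟨b, hb, hspan, hli⟩ := exists_linearIndependent k 𝒲
  let hB := Module.finBasis k H
  have h1 : ∀ i, ∃ c : b →₀ k, Finsupp.linearCombination k ((↑) : b → W [⋀^κ]→ₗ[k] k) c =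
      (hB.coord i).compAlternatingMap f := by
    intro i
    have h2 := h (hB.coord i)
    rw [← hspan, Finsupp.mem_span_iff_linearCombination] at h2
    exact h2
  choose c hc using h1
  let S : Finset b := Finset.univ.biUnion (fun i => (c i).support)
  have h2 : ∀ i v, hB.coord i (f v) = ∑ g ∈ S, c i g * (g : W [⋀^κ]→ₗ[k] k) v := by
    intro i v
    have h3 := congrArg (fun F : W [⋀^κ]→ₗ[k] k => F v) (hc i)
    change (Finsupp.linearCombination k ((↑) : b → W [⋀^κ]→ₗ[k] k) (c i)) v = _ at h3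
    rw [Finsupp.linearCombination_apply, Finsupp.sum_of_support_subset _
      (Finset.subset_biUnion_of_mem (fun i => (c i).support) (Finset.mem_univ i))
      (fun (g : b) a => a • (g : W [⋀^κ]→ₗ[k] k)) (fun _ _ => zero_smul _ _)] at h3
    rw [alt_sum_apply] at h3
    exact h3.symm
  let e := S.equivFin
  refine ⟨S.card, fun i => ((e.symm i : S) : b), fun i => ∑ l, c l (e.symm i : S) • hB l,
    fun i => hb ((e.symm i : S) : b).2, ?_, fun v => ?_⟩
  · exact hli.comp _ (fun i j hij => e.symm.injective (Subtype.ext hij))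
  · have h3 : ∑ i, (((e.symm i : S) : b) : W [⋀^κ]→ₗ[k] k) v • ∑ l, c l (e.symm i : S) • hB l =
        ∑ g : S, ((g : b) : W [⋀^κ]→ₗ[k] k) v • ∑ l, c l (g : b) • hB l :=
      e.symm.sum_comp (fun g : S => ((g : b) : W [⋀^κ]→ₗ[k] k) v • ∑ l, c l (g : b) • hB l)
    rw [h3, Finset.sum_coe_sort S (fun g : b => (g : W [⋀^κ]→ₗ[k] k) v • ∑ l, c l g • hB l)]
    conv_lhs => rw [← hB.sum_repr (f v)]
    have h4 : ∀ i, hB.repr (f v) i • hB i = ∑ g ∈ S, (c i g * (g : W [⋀^κ]→ₗ[k] k) v) • hB i := by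
      intro i
      rw [← Finset.sum_smul, ← h2 i v]
      rfl
    rw [Finset.sum_congr rfl fun i _ => h4 i, Finset.sum_comm]
    refine Finset.sum_congr rfl fun g _ => ?_
    rw [Finset.smul_sum]
    refine Finset.sum_congr rfl fun i _ => ?_
    rw [smul_smul, mul_comm]

variable [FiniteDimensional k V] [FiniteDimensional k H] {Ω : Type*} [Field Ω] [Algebra k Ω]
  [CharZero Ω] [IsAlgClosed Ω] [Algebra.IsAlgebraic k Ω]

/-- **Künneth theorem for Tate classes, even degrees.** -/
theorem kunneth_even (hss : FiniteIndexSemisimple ρ) (ω : V →ₗ[k] V →ₗ[k] k)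
    (hl : ∀ u, (∀ v, ω u v = 0) → u = 0) (hr : ∀ u, (∀ v, ω v u = 0) → u = 0)
    (hωρ : ∀ s u v, ω (ρ s u) (ρ s v) = χ s * ω u v) {n m : ℕ} (d : ℕ)
    (hyp : Hyp ρ χ σ Ω (2 * d)) (f : (Fin n → V) [⋀^Fin m × Fin 2]→ₗ[k] H)
    {Δ : Subgroup Γ} (hΔ : Δ.FiniteIndex)
    (hf : ∀ g ∈ Δ, ∀ v : Fin m × Fin 2 → Fin n → V,
      f (fun l i => ρ g (v l i)) = χ g ^ (m + d) • σ g (f v)) :
    ∃ (r : ℕ) (g : Fin r → (Fin n → V) [⋀^Fin m × Fin 2]→ₗ[k] k) (y : Fin r → H),
      (∀ i, ∃ B : Fin m → (Fin n → V) [⋀^Fin 2]→ₗ[k] k, (∀ l, IsTateClass ρ χ 1 (B l)) ∧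
        IsWedge B (g i)) ∧
      (∃ Δ' : Subgroup Γ, Δ'.FiniteIndex ∧ ∀ s ∈ Δ', ∀ i, χ s ^ d • σ s (y i) = y i) ∧
      ∀ v, f v = ∑ i, g i v • y i := by
  classical
  obtain ⟨r, g, y, hg, hli, hsum⟩ := tensor_dec
    {g : (Fin n → V) [⋀^Fin m × Fin 2]→ₗ[k] k |
      ∃ B : Fin m → (Fin n → V) [⋀^Fin 2]→ₗ[k] k, (∀ l, IsTateClass ρ χ 1 (B l)) ∧
        IsWedge B g} f (by
    intro lam
    refine alt_of_components ρ χ _ fun c => ?_
    have h1 : (lam.compAlternatingMap f).toMultilinearMap.compLinearMap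
        (fun l => LinearMap.single k (fun _ : Fin n => V) (c l)) = lam.compMultilinearMap
        (f.toMultilinearMap.compLinearMap
          (fun l => LinearMap.single k (fun _ : Fin n => V) (c l))) := rfl
    rw [h1]
    refine joint_even ρ χ σ (Ω := Ω) hss ω hl hr hωρ _ (m + d) (2 * d) (by ring) hyp hΔ
      (fun s hs v => ?_) lam
    have h2 := hf s hs (fun l => Pi.single (c l) (v l))
    change f (fun l => Pi.single (c l) (ρ s (v l))) =
      χ s ^ (m + d) • σ s (f (fun l => Pi.single (c l) (v l)))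
    rw [← h2]
    congr 1
    funext l i
    by_cases hi : i = c l
    · subst hi
      rw [Pi.single_eq_same, Pi.single_eq_same]
    · rw [Pi.single_eq_of_ne hi, Pi.single_eq_of_ne hi, map_zero])
  refine ⟨r, g, y, hg, ?_, hsum⟩
  choose B hB hw using hg
  choose D hD hBD using fun i l => hB i l
  have hfi : (Δ ⊓ ⨅ i, ⨅ l, D i l).FiniteIndex := by
    have := Subgroup.finiteIndex_iInf (fun i => Subgroup.finiteIndex_iInf (hD i))
    infer_instance
  refine ⟨Δ ⊓ ⨅ i, ⨅ l, D i l, hfi, fun s hs i => ?_⟩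
  have hgs : ∀ i v, g i (fun l a => ρ s (v l a)) = χ s ^ m * g i v := by
    intro i v
    rw [hw i, hw i, Finset.mul_sum]
    refine Finset.sum_congr rfl fun τ _ => ?_
    have h1 : ∀ l, B i l ![(fun a => ρ s (v (τ (l, 0)) a)), (fun a => ρ s (v (τ (l, 1)) a))] =
        χ s * B i l ![v (τ (l, 0)), v (τ (l, 1))] := by
      intro l
      have h2 := hBD i l s (Subgroup.mem_iInf.1 (Subgroup.mem_iInf.1 hs.2 i) l)
        ![v (τ (l, 0)), v (τ (l, 1))]
      rw [pow_one] at h2
      rw [← h2]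
      congr 1
      funext ε
      fin_cases ε <;> rfl
    rw [Finset.prod_congr rfl fun l _ => h1 l, Finset.prod_mul_distrib, Finset.prod_const,
      Finset.card_univ, Fintype.card_fin]
    ring
  have h1 : ∀ i, χ s ^ m • y i - χ s ^ (m + d) • σ s (y i) = 0 := by
    intro i
    rw [← Module.forall_dual_apply_eq_zero_iff k]
    intro lam
    have h2 : ∑ i, lam (χ s ^ m • y i - χ s ^ (m + d) • σ s (y i)) • g i = 0 := by
      ext v
      rw [alt_sum_apply, AlternatingMap.zero_apply]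
      have h3 := hf s hs.1 v
      rw [hsum, hsum, map_sum, Finset.smul_sum, ← sub_eq_zero, ← Finset.sum_sub_distrib] at h3
      have h4 := congrArg lam h3
      rw [map_sum, map_zero] at h4
      rw [← h4]
      refine Finset.sum_congr rfl fun i _ => ?_
      rw [hgs, AlternatingMap.smul_apply, smul_eq_mul, map_smul, map_sub, map_sub, map_smul, map_smul,
        map_smul, map_smul, map_smul]
      simp only [smul_eq_mul]
      ring
    exact (Fintype.linearIndependent_iff.1 hli) _ h2 i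
  have h2 := sub_eq_zero.1 (h1 i)
  have hχ : χ s ^ m ≠ 0 := pow_ne_zero _ (χne s)
  rw [pow_add, mul_smul] at h2
  exact (smul_right_injective H hχ h2).symm

/-- **Künneth theorem for Tate classes, odd degrees.** -/
theorem kunneth_odd (hss : FiniteIndexSemisimple ρ) (ω : V →ₗ[k] V →ₗ[k] k)
    (hl : ∀ u, (∀ v, ω u v = 0) → u = 0) (hr : ∀ u, (∀ v, ω v u = 0) → u = 0)
    (hωρ : ∀ s u v, ω (ρ s u) (ρ s v) = χ s * ω u v) {n a : ℕ} (c j : ℕ) (hcj : a + j = 2 * c)
    (hodd : Odd a) (hyp : Hyp ρ χ σ Ω j) (f : (Fin n → V) [⋀^Fin a]→ₗ[k] H)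
    {Δ : Subgroup Γ} (hΔ : Δ.FiniteIndex)
    (hf : ∀ g ∈ Δ, ∀ v : Fin a → Fin n → V,
      f (fun l i => ρ g (v l i)) = χ g ^ c • σ g (f v)) : f = 0 := by
  classical
  have h0 : ∀ t : Fin a → Fin n, f.toMultilinearMap.compLinearMap
      (fun l => LinearMap.single k (fun _ : Fin n => V) (t l)) = 0 := by
    intro t
    refine joint_odd ρ χ σ (Ω := Ω) hss ω hl hr hωρ _ c j (by rw [Fintype.card_fin]; exact hcj)
      (by rw [Fintype.card_fin]; exact hodd) hyp hΔ (fun s hs v => ?_)
    have h2 := hf s hs (fun l => Pi.single (t l) (v l))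
    change f (fun l => Pi.single (t l) (ρ s (v l))) =
      χ s ^ c • σ s (f (fun l => Pi.single (t l) (v l)))
    rw [← h2]
    congr 1
    funext l i
    by_cases hi : i = t l
    · subst hi
      rw [Pi.single_eq_same, Pi.single_eq_same]
    · rw [Pi.single_eq_of_ne hi, Pi.single_eq_of_ne hi, map_zero]
  ext v
  have h1 : v = fun l => ∑ i, Pi.single i (v l i) := by
    funext l
    exact (Finset.univ_sum_single (v l)).symm
  have h2 : f.toMultilinearMap v = 0 := by
    conv_lhs => rw [h1]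
    rw [f.toMultilinearMap.map_sum (fun l i => Pi.single i (v l i))]
    refine Finset.sum_eq_zero fun t _ => ?_
    have h3 := congrArg (fun F : MultilinearMap k (fun _ : Fin a => V) H =>
      F (fun l => v l (t l))) (h0 t)
    exact h3
  exact h2

end

end Pool.Agent.X300.KT
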