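import Mathlib
import Pool.Agent.X300.KT.Alt
import Pool.Agent.Y126.AV.Wedge

/-!
# Exterior products with the classes of another variety
-/

set_option linter.unusedSectionVars false

namespace Pool.Agent.X300.KT

open Module TensorProduct Pool.Agent.H204R3.SP Pool.Agent.H204R3.GP Pool.Agent.Y126.AV

noncomputable section

variable {k W H : Type} [Field k] [CharZero k] [AddCommGroup W] [Module k W]
  [AddCommGroup H] [Module k H]

/-- The exterior product of an alternating form and a vector. -/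
def ext (κ : Type) : (W [⋀^κ]→ₗ[k] k) →ₗ[k] H →ₗ[k] (W [⋀^κ]→ₗ[k] H) :=
  LinearMap.mk₂ k (fun g y => (LinearMap.toSpanSingleton k H y).compAlternatingMap g)
    (fun g g' y => by
      ext v
      simp)
    (fun c g y => by
      ext v
      simp)
    (fun g y y' => by
      ext v
      simp)
    (fun c g y => by
      ext v
      change g v • (c • y) = c • (g v • y)
      rw [smul_comm])

theorem ext_apply {κ : Type} (g : W [⋀^κ]→ₗ[k] k) (y : H) (v : κ → W) : ext κ g y v = g v • y := rfl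

/-- Exterior products of combinations. -/
theorem ext_mem [FiniteDimensional k W] {m : ℕ} {D : Set (W [⋀^Fin 2]→ₗ[k] k)} {CZ : Set H}
    {C : Set (W [⋀^Fin m × Fin 2]→ₗ[k] H)}
    (hC : ∀ (B : Fin m → W [⋀^Fin 2]→ₗ[k] k) (g) (y : H), (∀ l, B l ∈ D) → IsWedge B g → y ∈ CZ →
      ext _ g y ∈ C)
    {B : Fin m → W [⋀^Fin 2]→ₗ[k] k} (hB : ∀ l, B l ∈ Submodule.span k D)
    {g : W [⋀^Fin m × Fin 2]→ₗ[k] k} (hg : IsWedge B g) {y : H} (hy : y ∈ Submodule.span k CZ) :
    ext _ g y ∈ Submodule.span k C := by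
  have h1 : g ∈ Submodule.span k {g : W [⋀^Fin m × Fin 2]→ₗ[k] k |
      ∃ B : Fin m → W [⋀^Fin 2]→ₗ[k] k, (∀ l, B l ∈ D) ∧ IsWedge B g} :=
    wedge_mem (C := {g : W [⋀^Fin m × Fin 2]→ₗ[k] k |
      ∃ B : Fin m → W [⋀^Fin 2]→ₗ[k] k, (∀ l, B l ∈ D) ∧ IsWedge B g})
      (fun B g hB hg => ⟨B, hB, hg⟩) hB hg
  refine LinearMap.BilinMap.apply_apply_mem_of_mem_span _ _ _ (ext _) ?_ g y h1 hy
  rintro g' ⟨B', hB', hg'⟩ y' hy'
  exact Submodule.subset_span (hC B' g' y' hB' hg' hy')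

end

end Pool.Agent.X300.KT
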